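import Mathlib

/-!
Module C.Comm. The centraliser of a matrix with irreducible characteristic polynomial.

`exists_aeval`: `n ≥ 1` as `M.charpoly` is not a unit. Take `v ≠ 0`. The polynomials `p` with
`aeval M p *ᵥ v = 0` form an ideal containing `M.charpoly` (Cayley-Hamilton,
`Matrix.aeval_self_charpoly`), not containing `1`, so it is generated by `M.charpoly` (irreducible):
the `n` vectors `M ^ i *ᵥ v`, `i < n`, are linearly independent, a basis. `R *ᵥ v = aeval M p *ᵥ v` for
some `p`, and `R`, `aeval M p` commute with `M`, so they agree on the basis.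

`field_like`: for `A = aeval M p` either `A = 0` or `A` is invertible (`p` is divisible by
`M.charpoly`, or prime to it).

`unipotent_eq_one`: `R - 1 = aeval M p`, nilpotent, so not invertible, so `0`.

`sq_eq_one`: `(R - 1) * (R + 1) = 0`.
-/

set_option autoImplicit false

open Polynomial

namespace Pool.Agent.HYP

variable {F : Type} [Field F] {n : ℕ}

private theorem comm_dvd (M : Matrix (Fin n) (Fin n) F) (hM : Irreducible M.charpoly)
    (v : Fin n → F) (hv : v ≠ 0) (p : F[X]) (hp : (aeval M p).mulVec v = 0) :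
    M.charpoly ∣ p := by
  by_contra hnd
  obtain ⟨a, b, hab⟩ := (hM.coprime_iff_not_dvd).2 hnd
  have h1 := congrArg (fun q => (aeval M q).mulVec v) hab
  simp only [map_add, map_mul, Matrix.aeval_self_charpoly, mul_zero, zero_add, map_one,
    Matrix.one_mulVec, ← Matrix.mulVec_mulVec, hp, Matrix.mulVec_zero] at h1
  exact hv h1.symm

private theorem comm_pos (M : Matrix (Fin n) (Fin n) F) (hM : Irreducible M.charpoly) : 0 < n := by
  rcases Nat.eq_zero_or_pos n with h | h
  · subst h
    exact absurd (by rw [Matrix.charpoly, Matrix.det_fin_zero] : M.charpoly = 1)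
      (fun h1 => hM.not_isUnit (by rw [h1]; exact isUnit_one))
  · exact h

private theorem comm_surj (M : Matrix (Fin n) (Fin n) F) (hM : Irreducible M.charpoly)
    (v : Fin n → F) (hv : v ≠ 0) (w : Fin n → F) : ∃ p : F[X], (aeval M p).mulVec v = w := by
  let L : degreeLT F n →ₗ[F] (Fin n → F) :=
    { toFun := fun p => (aeval M (p : F[X])).mulVec v
      map_add' := fun p q => by
        simp only [Submodule.coe_add, map_add, Matrix.add_mulVec]
      map_smul' := fun c p => by
        simp only [Submodule.coe_smul, map_smul, Matrix.smul_mulVec, RingHom.id_apply] }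
  have hinj : Function.Injective L := by
    rw [injective_iff_map_eq_zero]
    intro p hp
    have h1 : M.charpoly ∣ (p : F[X]) := comm_dvd M hM v hv p hp
    have h2 : (p : F[X]).degree < n := mem_degreeLT.1 p.2
    have h3 : M.charpoly.degree = n := by
      rw [Matrix.charpoly_degree_eq_dim, Fintype.card_fin]
    have h4 : (p : F[X]) = 0 := eq_zero_of_dvd_of_degree_lt h1 (by rw [h3]; exact h2)
    exact Subtype.ext h4
  have hfr : Module.finrank F (degreeLT F n) = Module.finrank F (Fin n → F) := by
    rw [(degreeLTEquiv F n).finrank_eq]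
  have : FiniteDimensional F (degreeLT F n) :=
    Module.Finite.equiv (degreeLTEquiv F n).symm
  have hsurj : Function.Surjective L :=
    (LinearMap.injective_iff_surjective_of_finrank_eq_finrank hfr).1 hinj
  obtain ⟨p, hp⟩ := hsurj w
  exact ⟨p, hp⟩

theorem exists_aeval (M R : Matrix (Fin n) (Fin n) F) (hM : Irreducible M.charpoly)
    (h : R * M = M * R) : ∃ p : F[X], R = aeval M p := by
  have hn := comm_pos M hM
  obtain ⟨v, hv⟩ : ∃ v : Fin n → F, v ≠ 0 :=
    ⟨Pi.single ⟨0, hn⟩ 1, fun h0 => by simpa using congrFun h0 ⟨0, hn⟩⟩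
  obtain ⟨p, hp⟩ := comm_surj M hM v hv (R.mulVec v)
  refine ⟨p, ?_⟩
  have hcomm : ∀ q : F[X], R * aeval M q = aeval M q * R := by
    intro q
    have h1 : Commute R M := h
    induction q using Polynomial.induction_on' with
    | add a b ha hb => rw [map_add, mul_add, add_mul, ha, hb]
    | monomial k c =>
      rw [aeval_monomial, Algebra.algebraMap_eq_smul_one, smul_mul_assoc, one_mul, mul_smul_comm,
        smul_mul_assoc, (h1.pow_right k).eq]
  have hall : ∀ u : Fin n → F, R.mulVec u = (aeval M p).mulVec u := by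
    intro u
    obtain ⟨q, rfl⟩ := comm_surj M hM v hv u
    rw [Matrix.mulVec_mulVec, hcomm, ← Matrix.mulVec_mulVec, ← hp, Matrix.mulVec_mulVec,
      Matrix.mulVec_mulVec, ← map_mul, ← map_mul, mul_comm]
  ext i j
  have h1 := congrFun (hall (Pi.single j 1)) i
  simpa using h1

theorem field_like (M R : Matrix (Fin n) (Fin n) F) (hM : Irreducible M.charpoly)
    (h : R * M = M * R) : R = 0 ∨ IsUnit R := by
  obtain ⟨p, rfl⟩ := exists_aeval M R hM h
  by_cases hd : M.charpoly ∣ p
  · left
    obtain ⟨c, rfl⟩ := hd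
    rw [map_mul, Matrix.aeval_self_charpoly, zero_mul]
  · right
    obtain ⟨a, b, hab⟩ := (hM.coprime_iff_not_dvd).2 hd
    have h1 := congrArg (aeval M) hab
    rw [map_add, map_mul, map_mul, Matrix.aeval_self_charpoly, mul_zero, zero_add, map_one] at h1
    exact IsUnit.of_mul_eq_one_right _ h1

theorem unipotent_eq_one (M R : Matrix (Fin n) (Fin n) F) (hM : Irreducible M.charpoly)
    (h : R * M = M * R) (hR : IsNilpotent (R - 1)) : R = 1 := by
  rcases field_like M (R - 1) hM (by rw [sub_mul, mul_sub, h, one_mul, mul_one]) with h1 | h1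
  · exact sub_eq_zero.1 h1
  · obtain ⟨k, hk⟩ := hR
    have h2 := h1.pow k
    rw [hk, isUnit_zero_iff] at h2
    exact eq_of_zero_eq_one h2 _ _

/-- automorphisms of a pair of symmetric matrices -/
theorem pair_stab (S T R : Matrix (Fin n) (Fin n) F) (hS : S.transpose = S) (hT : T.transpose = T)
    (hd : IsUnit S.det) (hM : Irreducible (T * S⁻¹).charpoly)
    (h1 : R * S * R.transpose = S) (h2 : R * T * R.transpose = T) :
    R = 1 ∨ R = -1 := by
  have hRdet : IsUnit R.det := by
    have h3 := congrArg Matrix.det h1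
    rw [Matrix.det_mul, Matrix.det_mul, Matrix.det_transpose] at h3
    rw [← h3] at hd
    exact isUnit_of_mul_isUnit_right hd
  have hSS : S * S⁻¹ = 1 := Matrix.mul_nonsing_inv S hd
  have hSS' : S⁻¹ * S = 1 := Matrix.nonsing_inv_mul S hd
  have hRR : R * R⁻¹ = 1 := Matrix.mul_nonsing_inv R hRdet
  have hRR' : R⁻¹ * R = 1 := Matrix.nonsing_inv_mul R hRdet
  -- R commutes with M = T S⁻¹
  have h3 : S * R.transpose = R⁻¹ * S := by
    calc S * R.transpose = (R⁻¹ * R) * (S * R.transpose) := by rw [hRR', one_mul]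
      _ = R⁻¹ * (R * S * R.transpose) := by simp only [Matrix.mul_assoc]
      _ = R⁻¹ * S := by rw [h1]
  have h4 : R.transpose = S⁻¹ * R⁻¹ * S := by
    calc R.transpose = (S⁻¹ * S) * R.transpose := by rw [hSS', one_mul]
      _ = S⁻¹ * (S * R.transpose) := by rw [Matrix.mul_assoc]
      _ = S⁻¹ * R⁻¹ * S := by rw [h3, Matrix.mul_assoc]
  have hcomm : R * (T * S⁻¹) = (T * S⁻¹) * R := by
    have h5 : R * T * (S⁻¹ * R⁻¹ * S) = T := by rw [← h4]; exact h2
    calc R * (T * S⁻¹) = (R * T * (S⁻¹ * R⁻¹ * S)) * S⁻¹ * R := by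
          have : (R * T * (S⁻¹ * R⁻¹ * S)) * S⁻¹ * R =
              R * T * S⁻¹ * (R⁻¹ * ((S * S⁻¹) * R)) := by simp only [Matrix.mul_assoc]
          rw [this, hSS, one_mul, hRR', mul_one, Matrix.mul_assoc]
      _ = (T * S⁻¹) * R := by rw [h5]
  obtain ⟨p, hp⟩ := exists_aeval _ R hM hcomm
  -- R S = S Rᵀ
  have hMS : (T * S⁻¹) * S = S * (T * S⁻¹).transpose := by
    rw [Matrix.transpose_mul, Matrix.transpose_nonsing_inv, hS, hT, Matrix.mul_assoc, hSS',
      mul_one, ← Matrix.mul_assoc, hSS, one_mul]
  have hpS : ∀ q : F[X], (aeval (T * S⁻¹) q) * S = S * (aeval (T * S⁻¹) q).transpose := by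
    intro q
    induction q using Polynomial.induction_on' with
    | add a b ha hb => rw [map_add, add_mul, ha, hb, Matrix.transpose_add, mul_add]
    | monomial k c =>
      have hk : (T * S⁻¹) ^ k * S = S * ((T * S⁻¹) ^ k).transpose := by
        induction k with
        | zero => simp
        | succ k ih =>
          rw [pow_succ, Matrix.mul_assoc, hMS, ← Matrix.mul_assoc, ih, Matrix.mul_assoc,
            ← Matrix.transpose_mul, ← pow_succ', ← pow_succ]
      rw [aeval_monomial, Algebra.algebraMap_eq_smul_one, smul_mul_assoc, one_mul,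
        smul_mul_assoc, hk, Matrix.transpose_smul, mul_smul_comm]
  have hRS : R * S = S * R.transpose := by rw [hp]; exact hpS p
  have hR2 : R * R = 1 := by
    have h5 : R * (R * S) = S := by rw [hRS, ← Matrix.mul_assoc, h1]
    calc R * R = R * (R * (S * S⁻¹)) := by rw [hSS, mul_one]
      _ = (R * (R * S)) * S⁻¹ := by simp only [Matrix.mul_assoc]
      _ = 1 := by rw [h5, hSS]
  have h6 : (R - 1) * (R + 1) = 0 := by
    rw [sub_mul, mul_add, mul_add, hR2, mul_one, one_mul, mul_one]
    abel
  rcases field_like _ (R - 1) hM (by rw [sub_mul, mul_sub, hcomm, one_mul, mul_one]) with h7 | h7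
  · left
    exact sub_eq_zero.1 h7
  · right
    have h8 : R + 1 = 0 := (h7.mul_right_eq_zero).1 h6
    exact eq_neg_of_add_eq_zero_left h8

end Pool.Agent.HYP
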