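import Pool.Agent.Lib.HYP.C.Defs

/-!
Module C.Inv. Invariance of the pencil determinant and of detection under congruence and
`G2 ↦ G2 - s G1`.

* `pen_congr`: `x P G1 Pᵀ - P G2 Pᵀ = P (x G1 - G2) Pᵀ` over `S[x]` (`P.map C`), determinants.
* `pen_shift`: `x G1 - (G2 - s G1) = (x + s) G1 - G2` is the image of `x G1 - G2` under
  `x ↦ x + s` (`Polynomial.compRingHom (X + C s)` and `RingHom.map_det`).
* `det_congr`: `w' = (Pᵀ)⁻¹ w`: `P G2 Pᵀ w' = P G2 w = ρ P G1 w`, `w'ᵀ P G1 Pᵀ w' = wᵀ G1 w`.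
* `det_shift`: `ρ' = ρ - s`, the same `w`, `h' = h.comp (X + C s)` (monic, irreducible:
  `Polynomial.Monic.comp_X_add_C`, `Polynomial.algEquivAevalXAddC` and `MulEquiv.irreducible_iff`),
  `h' (ρ') = h (ρ)`.
* the `iff` by the inverse operations.
* `pen_map`: base change.
-/

set_option autoImplicit false

open Polynomial

namespace Pool.Agent.HYP

section ring

variable {S : Type} [CommRing S] {n : ℕ}

private theorem penM (G1 G2 : Matrix (Fin n) (Fin n) S) (i j : Fin n) :
    (Matrix.scalar (Fin n) (X : S[X]) * G1.map C - G2.map C) i j = X * C (G1 i j) - C (G2 i j) := by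
  rw [Matrix.sub_apply, Matrix.scalar_apply, Matrix.diagonal_mul, Matrix.map_apply,
    Matrix.map_apply]

theorem pen_congr (P G1 G2 : Matrix (Fin n) (Fin n) S) :
    pen (P * G1 * P.transpose) (P * G2 * P.transpose) = C (P.det ^ 2) * pen G1 G2 := by
  have h1 : Matrix.scalar (Fin n) (X : S[X]) * (P * G1 * P.transpose).map C -
      (P * G2 * P.transpose).map C =
      P.map C * (Matrix.scalar (Fin n) (X : S[X]) * G1.map C - G2.map C) * (P.map C).transpose := by
    have hc : Matrix.scalar (Fin n) (X : S[X]) * P.map C = P.map C * Matrix.scalar (Fin n) X :=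
      (Matrix.scalar_commute X (fun r => Commute.all _ _) _).eq
    rw [Matrix.map_mul, Matrix.map_mul, Matrix.map_mul, Matrix.map_mul, Matrix.transpose_map,
      mul_sub, sub_mul]
    simp only [← mul_assoc]
    rw [hc]
  have h2 : (P.map C).det = (C P.det : S[X]) := by
    have h3 := (RingHom.map_det (C : S →+* S[X]) P).symm
    rw [← h3]
    rfl
  unfold pen
  rw [h1, Matrix.det_mul, Matrix.det_mul, Matrix.det_transpose, h2, C_pow]
  ring

theorem pen_shift (G1 G2 : Matrix (Fin n) (Fin n) S) (s : S) :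
    pen G1 (G2 - s • G1) = (pen G1 G2).comp (X + C s) := by
  unfold pen
  have h1 : (Matrix.scalar (Fin n) (X : S[X]) * G1.map C - G2.map C).det.comp (X + C s) =
      (compRingHom (X + C s)) (Matrix.scalar (Fin n) (X : S[X]) * G1.map C - G2.map C).det := rfl
  rw [h1, RingHom.map_det]
  congr 1
  ext1 i j
  rw [penM, RingHom.mapMatrix_apply, Matrix.map_apply, penM]
  have h2 : ∀ p : S[X], (compRingHom (X + C s)) p = p.comp (X + C s) := fun p => rfl
  rw [h2]
  simp only [Matrix.sub_apply, Matrix.smul_apply, smul_eq_mul, map_sub, map_mul, sub_comp, mul_comp,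
    X_comp, C_comp]
  ring

theorem pen_map {T : Type} [CommRing T] (φ : S →+* T) (G1 G2 : Matrix (Fin n) (Fin n) S) :
    pen (G1.map φ) (G2.map φ) = (pen G1 G2).map φ := by
  unfold pen
  rw [← coe_mapRingHom, RingHom.map_det]
  congr 1
  ext1 i j
  have h1 := penM (G1.map φ) (G2.map φ) i j
  have h2 := penM G1 G2 i j
  have h3 : (mapRingHom φ).mapMatrix (Matrix.scalar (Fin n) (X : S[X]) * G1.map C - G2.map C) i j =
      mapRingHom φ (X * C (G1 i j) - C (G2 i j)) := by
    rw [← h2]
    rfl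
  rw [h1, h3, coe_mapRingHom, Polynomial.map_sub, Polynomial.map_mul, map_X, map_C, map_C]
  rfl

end ring

variable {κ : Type} [Field κ] {n : ℕ}

private theorem det_congr_one {P : Matrix (Fin n) (Fin n) κ} (hP : IsUnit P.det)
    (G1 G2 : Matrix (Fin n) (Fin n) κ) (h : Det G1 G2) :
    Det (P * G1 * P.transpose) (P * G2 * P.transpose) := by
  obtain ⟨ρ, w, f, hw, hk, hm, hi, hd, hs⟩ := h
  have hPt : IsUnit P.transpose.det := by rw [Matrix.det_transpose]; exact hP
  set w' : Fin n → κ := P.transpose⁻¹.mulVec w with hw'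
  have hPw : P.transpose.mulVec w' = w := by
    rw [hw', Matrix.mulVec_mulVec, Matrix.mul_nonsing_inv _ hPt, Matrix.one_mulVec]
  have hmul : ∀ G : Matrix (Fin n) (Fin n) κ,
      (P * G * P.transpose).mulVec w' = P.mulVec (G.mulVec w) := by
    intro G
    rw [← Matrix.mulVec_mulVec, hPw, ← Matrix.mulVec_mulVec]
  refine ⟨ρ, w', f, ?_, ?_, hm, hi, ?_, ?_⟩
  · intro h0
    apply hw
    rw [← hPw, h0, Matrix.mulVec_zero]
  · rw [hmul, hmul, hk, Matrix.mulVec_smul]
  · have h1 := pen_congr P G1 G2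
    have h2 : pen G1 G2 = C G1.det * ((X - C ρ) * f) := hd
    rw [h2] at h1
    have h3 : (P * G1 * P.transpose).det = P.det ^ 2 * G1.det := by
      rw [Matrix.det_mul, Matrix.det_mul, Matrix.det_transpose]
      ring
    have h4 : (C (P * G1 * P.transpose).det : κ[X]) * ((X - C ρ) * f) =
        C (P.det ^ 2) * (C G1.det * ((X - C ρ) * f)) := by
      rw [h3, C_mul]
      ring
    unfold pen at h1
    rw [h4]
    exact h1
  · have h1 : dotProduct w' ((P * G1 * P.transpose).mulVec w') = dotProduct w (G1.mulVec w) := by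
      rw [hmul, Matrix.dotProduct_mulVec, ← Matrix.mulVec_transpose, hPw]
    rw [h1]
    exact hs

theorem det_congr_iff {P : Matrix (Fin n) (Fin n) κ} (hP : IsUnit P.det)
    (G1 G2 : Matrix (Fin n) (Fin n) κ) :
    Det (P * G1 * P.transpose) (P * G2 * P.transpose) ↔ Det G1 G2 := by
  refine ⟨fun h => ?_, det_congr_one hP G1 G2⟩
  have hP' : IsUnit P⁻¹.det := Matrix.isUnit_nonsing_inv_det P hP
  have h1 := det_congr_one hP' _ _ h
  have h2 : ∀ G : Matrix (Fin n) (Fin n) κ,
      P⁻¹ * (P * G * P.transpose) * P⁻¹.transpose = G := by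
    intro G
    have h3 : P.transpose * P⁻¹.transpose = 1 := by
      rw [← Matrix.transpose_mul, Matrix.nonsing_inv_mul _ hP, Matrix.transpose_one]
    calc P⁻¹ * (P * G * P.transpose) * P⁻¹.transpose
        = (P⁻¹ * P) * G * (P.transpose * P⁻¹.transpose) := by simp only [mul_assoc]
      _ = G := by rw [Matrix.nonsing_inv_mul _ hP, h3, one_mul, mul_one]
  rw [h2, h2] at h1
  exact h1

private theorem det_shift_one (s : κ) (G1 G2 : Matrix (Fin n) (Fin n) κ) (h : Det G1 G2) :
    Det G1 (G2 - s • G1) := by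
  obtain ⟨ρ, w, f, hw, hk, hm, hi, hd, hs⟩ := h
  refine ⟨ρ - s, w, f.comp (X + C s), hw, ?_, hm.comp_X_add_C s, ?_, ?_, ?_⟩
  · rw [Matrix.sub_mulVec, Matrix.smul_mulVec, hk, sub_smul]
  · have h1 : (algEquivAevalXAddC s) f = f.comp (X + C s) := rfl
    rw [← h1]
    exact (MulEquiv.irreducible_iff (algEquivAevalXAddC s)).mpr hi
  · have h1 := pen_shift G1 G2 s
    have h2 : pen G1 G2 = C G1.det * ((X - C ρ) * f) := hd
    rw [h2] at h1
    unfold pen at h1
    refine h1.trans ?_
    rw [mul_comp, mul_comp, sub_comp, C_comp, X_comp, C_comp, C_sub]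
    ring
  · rw [eval_comp, eval_add, eval_X, eval_C, sub_add_cancel]
    exact hs

theorem det_shift_iff (s : κ) (G1 G2 : Matrix (Fin n) (Fin n) κ) :
    Det G1 (G2 - s • G1) ↔ Det G1 G2 := by
  refine ⟨fun h => ?_, det_shift_one s G1 G2⟩
  have h1 := det_shift_one (-s) _ _ h
  have h2 : G2 - s • G1 - -s • G1 = G2 := by
    rw [neg_smul, sub_neg_eq_add, sub_add_cancel]
  rw [h2] at h1
  exact h1

end Pool.Agent.HYP
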