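import Pool.Agent.Lib.HYP.Ifc

/-!
Block C (counting): definitions.
-/

set_option autoImplicit false

open Polynomial

namespace Pool.Agent.HYP

/-- Number of the free coefficients of `G1 i j`. -/
def e1 (g : ℕ) (r : ℕ → ℕ) (i j : Fin (2 * g + 1)) : ℕ := (nn g r i + nn g r j + 1).toNat

/-- Number of the free coefficients of `G2 i j`. -/
def e2 (g m : ℕ) (r : ℕ → ℕ) (i j : Fin (2 * g + 1)) : ℕ :=
  (2 * m + nn g r i + nn g r j + 1).toNat

/-- Number of the free coefficients of `h i j`, `j < i`. -/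
def eh (g : ℕ) (r : ℕ → ℕ) (i j : Fin (2 * g + 1)) : ℕ := (nn g r i - nn g r j + 1).toNat

/-- The sum of a function over the pairs `i ≤ j`. -/
def sumLe {n : ℕ} (e : Fin n → Fin n → ℕ) : ℕ := ∑ i, ∑ j, if i ≤ j then e i j else 0

/-- The sum of a function over the pairs `j < i`. -/
def sumLt {n : ℕ} (e : Fin n → Fin n → ℕ) : ℕ := ∑ i, ∑ j, if j < i then e i j else 0

/-- The determinant of the pencil `x G1 - G2`. -/
noncomputable def pen {S : Type} [CommRing S] {n : ℕ} (G1 G2 : Matrix (Fin n) (Fin n) S) : S[X] :=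
  (Matrix.scalar (Fin n) (X : S[X]) * G1.map C - G2.map C).det

variable {k : Type} [Field k]

/-- The pair `(G1, G2)` of type `r` represents the polynomial `f`. -/
structure Rep (g m : ℕ) (r : ℕ → ℕ) (f : k[X][X])
    (G1 G2 : Matrix (Fin (2 * g + 1)) (Fin (2 * g + 1)) k[X]) : Prop where
  deg : DegP g m r G1 G2
  char : pen G1 G2 = C G1.det * f

/-- The pair `(G1, G2)` is detected at no prime of `V`. -/
def Undet {n : ℕ} (V : Finset k[X]) (G1 G2 : Matrix (Fin n) (Fin n) k[X]) : Prop :=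
  ∀ π ∈ V, ∀ h : Irreducible π, haveI : Fact (Irreducible π) := ⟨h⟩;
    ¬ Det (G1.map (AdjoinRoot.mk π)) (G2.map (AdjoinRoot.mk π))

/-- `f` is represented by a pair of type `r` which is detected at no prime of `V`. -/
def RepV (g m : ℕ) (V : Finset k[X]) (r : ℕ → ℕ) (f : k[X][X]) : Prop :=
  ∃ G1 G2, Rep g m r f G1 G2 ∧ Undet V G1 G2

end Pool.Agent.HYP
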