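import Pool.Agent.Lib.HYP.C.Defs

/-!
Module C.Nn. The norms `nn g r` (`- r g, …, - r 1, 0, r 1, …, r g`) and sums over pairs of indices.

* `nn_rev`: `Fin.val_rev : (Fin.rev i).val = 2 g + 1 - (i.val + 1)`. `nn_mono`: cases.
* `sum_idx`: split `Fin (2 g + 1)` into `i < g`, `i = g`, `i > g` (`Fin.sum_univ_eq_sum_range`, then
  `Finset.sum_range_add`-type lemmas, `Finset.sum_range_reflect` for the part `i < g`, reindexed by
  `b = g - 1 - i`).
* `pair_sum`: `2 ∑_{i ≤ j} φ (ν i + ν j) = ∑_{i,j} φ (ν i + ν j) + ∑_i φ (2 ν i)` (the summand is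
  symmetric); both sums on the right by `sum_idx`; for the double sum over `b, a < g` of a
  symmetric function `ψ a b` use `∑_{a,b} ψ a b = ∑_b ψ b b + 2 ∑_b ∑_{a<b} ψ a b`, here
  `ψ a b = φ(r b + r a) + φ(-r b - r a) + φ(r b - r a) + φ(r a - r b)`, with `ψ b b =
  φ(2 r b) + φ(-2 r b) + 2 φ 0`. Divide by 2.
* `lt_sum`: `∑_{j<i} (ν i - ν j) = ∑_i (#{j < i} - #{j > i}) ν i = ∑_i (2 i - 2 g) ν i`, then
  `sum_idx`: the terms `b` are `(2 (g+1+b) - 2 g) r (b+1) + (2 (g-1-b) - 2 g) (- r (b+1)) =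
  4 (b+1) r (b+1)`.
-/

/-!
Module C.Nn. The norms `nn g r` (`- r g, …, - r 1, 0, r 1, …, r g`) and sums over pairs of indices.

* `nn_rev`: `Fin.val_rev : (Fin.rev i).val = 2 g + 1 - (i.val + 1)`. `nn_mono`: cases.
* `sum_idx`: split `Fin (2 g + 1)` into `i < g`, `i = g`, `i > g` (`Fin.sum_univ_eq_sum_range`, then
  `Finset.sum_range_add`-type lemmas, `Finset.sum_range_reflect` for the part `i < g`, reindexed by
  `b = g - 1 - i`).
* `pair_sum`: `2 ∑_{i ≤ j} φ (ν i + ν j) = ∑_{i,j} φ (ν i + ν j) + ∑_i φ (2 ν i)` (the summand is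
  symmetric); both sums on the right by `sum_idx`; for the double sum over `b, a < g` of a
  symmetric function `ψ a b` use `∑_{a,b} ψ a b = ∑_b ψ b b + 2 ∑_b ∑_{a<b} ψ a b`, here
  `ψ a b = φ(r b + r a) + φ(-r b - r a) + φ(r b - r a) + φ(r a - r b)`, with `ψ b b =
  φ(2 r b) + φ(-2 r b) + 2 φ 0`. Divide by 2.
* `lt_sum`: `∑_{j<i} (ν i - ν j) = ∑_i (#{j < i} - #{j > i}) ν i = ∑_i (2 i - 2 g) ν i`, then
  `sum_idx`: the terms `b` are `(2 (g+1+b) - 2 g) r (b+1) + (2 (g-1-b) - 2 g) (- r (b+1)) =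
  4 (b+1) r (b+1)`.
-/

set_option autoImplicit false

namespace Pool.Agent.HYP

variable {g : ℕ}

private theorem r_mono {m : ℕ} {r : ℕ → ℕ} (h : Typ g m r) :
    ∀ d a : ℕ, a + d ≤ g → r a ≤ r (a + d)
  | 0, a, _ => le_rfl
  | d + 1, a, hd => (r_mono h d a (by omega)).trans (h.mono (a + d) (by omega))

private theorem r_le {m : ℕ} {r : ℕ → ℕ} (h : Typ g m r) {a b : ℕ} (hab : a ≤ b) (hb : b ≤ g) :
    r a ≤ r b := by
  have := r_mono h (b - a) a (by omega)
  rwa [show a + (b - a) = b by omega] at this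

theorem nn_rev (r : ℕ → ℕ) (i : Fin (2 * g + 1)) : nn g r (Fin.rev i) = -nn g r i := by
  have hi := i.isLt
  unfold nn
  rw [Fin.val_rev, show 2 * g + 1 - (i.val + 1) - g = g - i.val by omega,
    show g - (2 * g + 1 - (i.val + 1)) = i.val - g by omega]
  ring

theorem nn_mono {m : ℕ} {r : ℕ → ℕ} (h : Typ g m r) : Monotone (nn g r) := by
  intro i j hij
  have hi := i.isLt
  have hj := j.isLt
  have hij' : i.val ≤ j.val := hij
  unfold nn
  have h1 : r (i.val - g) ≤ r (j.val - g) := r_le h (by omega) (by omega)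
  have h2 : r (g - j.val) ≤ r (g - i.val) := r_le h (by omega) (by omega)
  omega

theorem abs_nn_le {m : ℕ} {r : ℕ → ℕ} (h : Typ g m r) (i : Fin (2 * g + 1)) :
    -(r g : ℤ) ≤ nn g r i ∧ nn g r i ≤ r g := by
  have hi := i.isLt
  unfold nn
  have h1 : r (i.val - g) ≤ r g := r_le h (by omega) le_rfl
  have h2 : r (g - i.val) ≤ r g := r_le h (by omega) le_rfl
  omega

theorem sum_idx {r : ℕ → ℕ} (h0 : r 0 = 0) (F : ℤ → ℤ → ℤ) :
    ∑ i : Fin (2 * g + 1), F i.val (nn g r i) =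
      F g 0 + ∑ b ∈ Finset.range g, (F (g + 1 + b) (r (b + 1)) + F (g - 1 - b) (-(r (b + 1) : ℤ))) := by
  have e0 : ∑ i : Fin (2 * g + 1), F i.val (nn g r i) =
      ∑ i ∈ Finset.range (2 * g + 1), F (i : ℤ) ((r (i - g) : ℤ) - r (g - i)) := by
    rw [← Fin.sum_univ_eq_sum_range (fun i => F (i : ℤ) ((r (i - g) : ℤ) - r (g - i)))]
    rfl
  rw [e0, show 2 * g + 1 = g + (g + 1) by ring, Finset.sum_range_add, Finset.sum_range_succ',
    ← Finset.sum_range_reflect, Finset.sum_add_distrib]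
  have e1 : ∀ j ∈ Finset.range g, F ((g - 1 - j : ℕ) : ℤ)
      ((r (g - 1 - j - g) : ℤ) - r (g - (g - 1 - j))) = F (g - 1 - j) (-(r (j + 1) : ℤ)) := by
    intro j hj
    have hj' := Finset.mem_range.1 hj
    rw [show g - 1 - j - g = 0 by omega, show g - (g - 1 - j) = j + 1 by omega, h0,
      show ((g - 1 - j : ℕ) : ℤ) = g - 1 - j by omega]
    simp
  have e2 : ∀ j ∈ Finset.range g, F ((g + (j + 1) : ℕ) : ℤ)
      ((r (g + (j + 1) - g) : ℤ) - r (g - (g + (j + 1)))) = F (g + 1 + j) (r (j + 1)) := by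
    intro j hj
    rw [show g + (j + 1) - g = j + 1 by omega, show g - (g + (j + 1)) = 0 by omega, h0,
      show ((g + (j + 1) : ℕ) : ℤ) = g + 1 + j by push_cast; ring]
    simp
  rw [Finset.sum_congr rfl e1, Finset.sum_congr rfl e2]
  simp only [add_zero, Nat.sub_self, sub_self]
  ring

private theorem dbl (ψ : ℕ → ℕ → ℤ) (hψ : ∀ a b, ψ a b = ψ b a) : ∀ n : ℕ,
    ∑ a ∈ Finset.range n, ∑ b ∈ Finset.range n, ψ a b =
      ∑ b ∈ Finset.range n, ψ b b + 2 * ∑ b ∈ Finset.range n, ∑ a ∈ Finset.range b, ψ a b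
  | 0 => by simp
  | n + 1 => by
    have ih := dbl ψ hψ n
    rw [Finset.sum_range_succ, Finset.sum_congr rfl fun a _ =>
        Finset.sum_range_succ (fun b => ψ a b) n,
      Finset.sum_add_distrib, ih, Finset.sum_range_succ (fun b => ψ n b),
      Finset.sum_range_succ (fun b => ψ b b),
      Finset.sum_range_succ (fun b => ∑ a ∈ Finset.range b, ψ a b),
      Finset.sum_congr rfl fun b _ => hψ n b]
    ring

private theorem half {n : ℕ} (ψ : Fin n → Fin n → ℤ) (hψ : ∀ i j, ψ i j = ψ j i) :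
    2 * ∑ i, ∑ j, (if i ≤ j then ψ i j else 0) = ∑ i, ∑ j, ψ i j + ∑ i, ψ i i := by
  have e1 : ∑ i, ∑ j, (if i ≤ j then ψ i j else 0) = ∑ i, ∑ j, (if j ≤ i then ψ i j else 0) := by
    rw [Finset.sum_comm]
    refine Finset.sum_congr rfl fun i _ => Finset.sum_congr rfl fun j _ => ?_
    rw [hψ j i]
  have e2 : ∑ i, ψ i i = ∑ i, ∑ j, (if i = j then ψ i j else 0) := by
    refine Finset.sum_congr rfl fun i _ => ?_
    simp
  rw [two_mul]
  nth_rewrite 2 [e1]
  rw [e2, ← Finset.sum_add_distrib, ← Finset.sum_add_distrib]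
  refine Finset.sum_congr rfl fun i _ => ?_
  rw [← Finset.sum_add_distrib, ← Finset.sum_add_distrib]
  refine Finset.sum_congr rfl fun j _ => ?_
  rcases lt_trichotomy i j with h | h | h
  · rw [if_pos h.le, if_neg (not_le.2 h), if_neg h.ne]
  · subst h; simp
  · rw [if_neg (not_le.2 h), if_pos h.le, if_neg h.ne']; ring

private theorem sum_icc (f : ℕ → ℤ) (g : ℕ) :
    ∑ b ∈ Finset.Icc 1 g, f b = ∑ b ∈ Finset.range g, f (b + 1) := by
  have : Finset.Icc 1 g = Finset.Ico 1 (g + 1) := by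
    ext x
    simp only [Finset.mem_Icc, Finset.mem_Ico]
    omega
  rw [this, Finset.sum_Ico_eq_sum_range]
  refine Finset.sum_congr rfl fun b _ => ?_
  rw [add_comm]

theorem pair_sum {r : ℕ → ℕ} (h0 : r 0 = 0) (φ : ℤ → ℤ) :
    ∑ i, ∑ j, (if i ≤ j then φ (nn g r i + nn g r j) else 0) =
      (g + 1) * φ 0 +
      ∑ b ∈ Finset.Icc 1 g, (φ (2 * r b) + φ (-(2 * r b : ℤ)) + φ (r b) + φ (-(r b : ℤ))) +
      ∑ b ∈ Finset.Icc 1 g, ∑ a ∈ Finset.Ico 1 b,
        (φ (r b + r a) + φ (-(r b : ℤ) - r a) + φ (r b - r a) + φ (r a - r b)) := by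
  have h1 := half (fun i j => φ (nn g r i + nn g r j)) (fun i j => by rw [add_comm])
  have h2 : ∑ i : Fin (2 * g + 1), φ (nn g r i + nn g r i) =
      φ 0 + ∑ b ∈ Finset.range g, (φ (2 * r (b + 1)) + φ (-(2 * r (b + 1) : ℤ))) := by
    have := sum_idx (g := g) h0 (fun _ y => φ (y + y))
    simp only [add_zero] at this
    rw [this]
    congr 1
    refine Finset.sum_congr rfl fun b _ => ?_
    congr 2 <;> ring
  have h3 : ∀ i : Fin (2 * g + 1), ∑ j : Fin (2 * g + 1), φ (nn g r i + nn g r j) =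
      φ (nn g r i) + ∑ b ∈ Finset.range g,
        (φ (nn g r i + r (b + 1)) + φ (nn g r i + -(r (b + 1) : ℤ))) := by
    intro i
    have := sum_idx (g := g) h0 (fun _ y => φ (nn g r i + y))
    simp only [add_zero] at this
    exact this
  have h4 : ∑ i : Fin (2 * g + 1), ∑ j : Fin (2 * g + 1), φ (nn g r i + nn g r j) =
      (φ 0 + ∑ b ∈ Finset.range g, (φ (0 + r (b + 1)) + φ (0 + -(r (b + 1) : ℤ)))) +
      ∑ a ∈ Finset.range g, ((φ (r (a + 1)) + ∑ b ∈ Finset.range g,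
        (φ ((r (a + 1) : ℤ) + r (b + 1)) + φ ((r (a + 1) : ℤ) + -(r (b + 1) : ℤ)))) +
        (φ (-(r (a + 1) : ℤ)) + ∑ b ∈ Finset.range g,
        (φ (-(r (a + 1) : ℤ) + r (b + 1)) + φ (-(r (a + 1) : ℤ) + -(r (b + 1) : ℤ))))) := by
    rw [Finset.sum_congr rfl fun i _ => h3 i]
    exact sum_idx (g := g) h0 (fun _ y => φ y + ∑ b ∈ Finset.range g,
      (φ (y + r (b + 1)) + φ (y + -(r (b + 1) : ℤ))))
  have h5 := dbl (fun a b => φ ((r (b + 1) : ℤ) + r (a + 1)) + φ (-(r (b + 1) : ℤ) - r (a + 1)) +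
    φ ((r (b + 1) : ℤ) - r (a + 1)) + φ ((r (a + 1) : ℤ) - r (b + 1))) (fun a b => by
      rw [add_comm (r (b + 1) : ℤ), show -(r (b + 1) : ℤ) - r (a + 1) = -(r (a + 1) : ℤ) - r (b + 1)
        by ring]
      ring) g
  have h6 : ∑ a ∈ Finset.range g, ((φ (r (a + 1)) + ∑ b ∈ Finset.range g,
        (φ ((r (a + 1) : ℤ) + r (b + 1)) + φ ((r (a + 1) : ℤ) + -(r (b + 1) : ℤ)))) +
        (φ (-(r (a + 1) : ℤ)) + ∑ b ∈ Finset.range g,
        (φ (-(r (a + 1) : ℤ) + r (b + 1)) + φ (-(r (a + 1) : ℤ) + -(r (b + 1) : ℤ))))) =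
      ∑ a ∈ Finset.range g, (φ (r (a + 1)) + φ (-(r (a + 1) : ℤ))) +
      ∑ a ∈ Finset.range g, ∑ b ∈ Finset.range g, (φ ((r (b + 1) : ℤ) + r (a + 1)) +
        φ (-(r (b + 1) : ℤ) - r (a + 1)) +
        φ ((r (b + 1) : ℤ) - r (a + 1)) + φ ((r (a + 1) : ℤ) - r (b + 1))) := by
    rw [← Finset.sum_add_distrib]
    refine Finset.sum_congr rfl fun a _ => ?_
    have : ∀ b : ℕ, φ ((r (b + 1) : ℤ) + r (a + 1)) +
        φ (-(r (b + 1) : ℤ) - r (a + 1)) +
        φ ((r (b + 1) : ℤ) - r (a + 1)) + φ ((r (a + 1) : ℤ) - r (b + 1)) =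
        (φ ((r (a + 1) : ℤ) + r (b + 1)) + φ ((r (a + 1) : ℤ) + -(r (b + 1) : ℤ))) +
        (φ (-(r (a + 1) : ℤ) + r (b + 1)) + φ (-(r (a + 1) : ℤ) + -(r (b + 1) : ℤ))) := by
      intro b
      rw [add_comm (r (b + 1) : ℤ), show -(r (b + 1) : ℤ) - r (a + 1) =
        -(r (a + 1) : ℤ) + -(r (b + 1) : ℤ) by ring,
        show (r (b + 1) : ℤ) - r (a + 1) = -(r (a + 1) : ℤ) + r (b + 1) by ring,
        show (r (a + 1) : ℤ) - r (b + 1) = (r (a + 1) : ℤ) + -(r (b + 1) : ℤ) by ring]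
      ring
    rw [Finset.sum_congr rfl fun b _ => this b]
    simp only [Finset.sum_add_distrib]
    ring
  have h7 : ∑ b ∈ Finset.range g, (φ ((r (b + 1) : ℤ) + r (b + 1)) +
      φ (-(r (b + 1) : ℤ) - r (b + 1)) +
      φ ((r (b + 1) : ℤ) - r (b + 1)) + φ ((r (b + 1) : ℤ) - r (b + 1))) =
      ∑ b ∈ Finset.range g, (φ (2 * r (b + 1)) + φ (-(2 * r (b + 1) : ℤ))) + 2 * g * φ 0 := by
    have : ∀ b ∈ Finset.range g, (φ ((r (b + 1) : ℤ) + r (b + 1)) +
        φ (-(r (b + 1) : ℤ) - r (b + 1)) +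
        φ ((r (b + 1) : ℤ) - r (b + 1)) + φ ((r (b + 1) : ℤ) - r (b + 1))) =
        (φ (2 * r (b + 1)) + φ (-(2 * r (b + 1) : ℤ))) + 2 * φ 0 := by
      intro b _
      rw [sub_self, show (r (b + 1) : ℤ) + r (b + 1) = 2 * r (b + 1) by ring,
        show -(r (b + 1) : ℤ) - r (b + 1) = -(2 * r (b + 1)) by ring]
      ring
    rw [Finset.sum_congr rfl this, Finset.sum_add_distrib, Finset.sum_const, Finset.card_range,
      nsmul_eq_mul]
    ring
  have h8 : ∑ b ∈ Finset.Icc 1 g, ∑ a ∈ Finset.Ico 1 b,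
        (φ (r b + r a) + φ (-(r b : ℤ) - r a) + φ (r b - r a) + φ (r a - r b)) =
      ∑ b ∈ Finset.range g, ∑ a ∈ Finset.range b, (φ ((r (b + 1) : ℤ) + r (a + 1)) +
        φ (-(r (b + 1) : ℤ) - r (a + 1)) +
        φ ((r (b + 1) : ℤ) - r (a + 1)) + φ ((r (a + 1) : ℤ) - r (b + 1))) := by
    rw [sum_icc]
    refine Finset.sum_congr rfl fun b _ => ?_
    rw [Finset.sum_Ico_eq_sum_range, Nat.add_sub_cancel]
    refine Finset.sum_congr rfl fun a _ => ?_
    rw [add_comm 1 a]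
  have h9 : ∑ b ∈ Finset.Icc 1 g,
      (φ (2 * r b) + φ (-(2 * r b : ℤ)) + φ (r b) + φ (-(r b : ℤ))) =
      ∑ b ∈ Finset.range g, (φ (2 * r (b + 1)) + φ (-(2 * r (b + 1) : ℤ))) +
      ∑ b ∈ Finset.range g, (φ (r (b + 1)) + φ (-(r (b + 1) : ℤ))) := by
    rw [sum_icc, ← Finset.sum_add_distrib]
    refine Finset.sum_congr rfl fun b _ => ?_
    ring
  rw [h8, h9]
  simp only [zero_add] at h4
  rw [h4, h6, h2, h5, h7] at h1
  linarith

theorem lt_sum {r : ℕ → ℕ} (h0 : r 0 = 0) :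
    ∑ i, ∑ j, (if j < i then nn g r i - nn g r j else 0) =
      ∑ b ∈ Finset.Icc 1 g, 4 * (b : ℤ) * (r b : ℤ) := by
  have c1 : ∀ i : Fin (2 * g + 1), ∑ j : Fin (2 * g + 1), (if j < i then nn g r i else 0) =
      i.val * nn g r i := by
    intro i
    rw [← Finset.sum_filter, Finset.sum_const, nsmul_eq_mul]
    congr 1
    have : (Finset.univ.filter fun j : Fin (2 * g + 1) => j < i) = Finset.Iio i := by
      ext x; simp
    rw [this, Fin.card_Iio]
  have c2 : ∀ j : Fin (2 * g + 1), ∑ i : Fin (2 * g + 1), (if j < i then nn g r j else 0) =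
      (2 * g - j.val) * nn g r j := by
    intro j
    rw [← Finset.sum_filter, Finset.sum_const, nsmul_eq_mul]
    congr 1
    have : (Finset.univ.filter fun i : Fin (2 * g + 1) => j < i) = Finset.Ioi j := by
      ext x; simp
    rw [this, Fin.card_Ioi]
    have := j.isLt
    omega
  have e1 : ∑ i, ∑ j, (if j < i then nn g r i - nn g r j else 0) =
      ∑ i : Fin (2 * g + 1), ((2 * (i.val : ℤ) - 2 * g) * nn g r i) := by
    have e2 : ∀ i j : Fin (2 * g + 1), (if j < i then nn g r i - nn g r j else 0) =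
        (if j < i then nn g r i else 0) - (if j < i then nn g r j else 0) := by
      intro i j
      split_ifs <;> ring
    simp only [e2, Finset.sum_sub_distrib]
    rw [Finset.sum_congr rfl fun i _ => c1 i]
    rw [Finset.sum_comm (f := fun i j => if j < i then nn g r j else 0),
      Finset.sum_congr rfl fun i _ => c2 i, ← Finset.sum_sub_distrib]
    refine Finset.sum_congr rfl fun i _ => ?_
    ring
  rw [e1, sum_icc]
  have := sum_idx (g := g) h0 (fun x y => (2 * x - 2 * g) * y)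
  beta_reduce at this
  rw [this, mul_zero, zero_add]
  refine Finset.sum_congr rfl fun b _ => ?_
  push_cast
  ring

end Pool.Agent.HYP
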