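import Pool.Agent.Lib.HYP.C.Cusp
import Pool.Agent.Lib.HYP.C.Nn

/-!
Module C.Exps. The exponents of the count.

Proof of `exps` (everything in `ℤ`, `ν = nn g r`, `x⁺ = max 0 x`).
* `sumLe (e1 g r) ≤ ∑_{i≤j} ((ν i + ν j)⁺ + 1)`; by `pair_sum` with `φ = ( · )⁺`, the first part is
  `∑_b (2 r b + r b) + ∑_b ∑_{a<b} ((r b + r a) + (r b - r a)) = ∑_b (2 b + 1) r b`
  (`r a ≤ r b`), and `∑_{i≤j} 1 = (2 g + 1) (g + 1)` (`pair_sum` with `φ = 1`, or directly).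
* `sumLt (eh g r) = ∑_{j<i} (ν i - ν j + 1) = ∑_b 4 b r b + (2 g + 1) g` (`lt_sum`, `nn_mono`).
* `(2 m + ν i + ν j + 1).toNat ≤ (2 m + ν i + ν j + 1) + (-2 m - ν i - ν j)⁺`; `pair_sum` with
  `φ = id` gives `∑_{i≤j} (ν i + ν j) = 0`; with `φ x = (-2 m - x)⁺` it gives
  `ex = ∑_b ((2 r b - 2 m)⁺ + (r b - 2 m)⁺ + ∑_{a<b} ((r b + r a - 2 m)⁺ + (r b - r a - 2 m)⁺))`
  (the other terms vanish). So `sumLe (e2 g m r) ≤ (2 m + 1) (2 g + 1) (g + 1) + ex`, and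
  `g ex ≤ ∑_b (g (2 b - 1) - 1) r b` by `cusp`.
* Add up: the constants are `2 (2g+1)(g+1) + 2 m (2g+1)(g+1)` on both sides, the coefficient of `r b`
  is `g (2b+1) + g (2b-1) - 1 + 1 = 4 g b` on both sides.
-/

/-!
Module C.Exps. The exponents of the count.

Proof of `exps` (everything in `ℤ`, `ν = nn g r`, `x⁺ = max 0 x`).
* `sumLe (e1 g r) ≤ ∑_{i≤j} ((ν i + ν j)⁺ + 1)`; by `pair_sum` with `φ = ( · )⁺`, the first part is
  `∑_b (2 r b + r b) + ∑_b ∑_{a<b} ((r b + r a) + (r b - r a)) = ∑_b (2 b + 1) r b`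
  (`r a ≤ r b`), and `∑_{i≤j} 1 = (2 g + 1) (g + 1)` (`pair_sum` with `φ = 1`, or directly).
* `sumLt (eh g r) = ∑_{j<i} (ν i - ν j + 1) = ∑_b 4 b r b + (2 g + 1) g` (`lt_sum`, `nn_mono`).
* `(2 m + ν i + ν j + 1).toNat ≤ (2 m + ν i + ν j + 1) + (-2 m - ν i - ν j)⁺`; `pair_sum` with
  `φ = id` gives `∑_{i≤j} (ν i + ν j) = 0`; with `φ x = (-2 m - x)⁺` it gives
  `ex = ∑_b ((2 r b - 2 m)⁺ + (r b - 2 m)⁺ + ∑_{a<b} ((r b + r a - 2 m)⁺ + (r b - r a - 2 m)⁺))`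
  (the other terms vanish). So `sumLe (e2 g m r) ≤ (2 m + 1) (2 g + 1) (g + 1) + ex`, and
  `g ex ≤ ∑_b (g (2 b - 1) - 1) r b` by `cusp`.
* Add up: the constants are `2 (2g+1)(g+1) + 2 m (2g+1)(g+1)` on both sides, the coefficient of `r b`
  is `g (2b+1) + g (2b-1) - 1 + 1 = 4 g b` on both sides.
-/

set_option autoImplicit false

namespace Pool.Agent.HYP

variable {g : ℕ}

private theorem ex_mono {m : ℕ} {r : ℕ → ℕ} (h : Typ g m r) :
    ∀ d a : ℕ, a + d ≤ g → r a ≤ r (a + d)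
  | 0, a, _ => le_rfl
  | d + 1, a, hd => (ex_mono h d a (by omega)).trans (h.mono (a + d) (by omega))

private theorem ex_le {m : ℕ} {r : ℕ → ℕ} (h : Typ g m r) {a b : ℕ} (hab : a ≤ b) (hb : b ≤ g) :
    r a ≤ r b := by
  have := ex_mono h (b - a) a (by omega)
  rwa [show a + (b - a) = b by omega] at this

private theorem sum4 : ∀ g : ℕ, ∑ b ∈ Finset.Icc 1 g, 4 * (b : ℤ) = 2 * g * (g + 1)
  | 0 => by simp
  | g + 1 => by
    rw [Finset.sum_Icc_succ_top (by omega), sum4 g]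
    push_cast
    ring

private theorem e1_sum {m : ℕ} {r : ℕ → ℕ} (h : Typ g m r) :
    (sumLe (e1 g r) : ℤ) ≤ ∑ b ∈ Finset.Icc 1 g, (2 * (b : ℤ) + 1) * r b +
      (2 * g + 1) * (g + 1) := by
  have h1 : (sumLe (e1 g r) : ℤ) ≤
      ∑ i, ∑ j, (if i ≤ j then (fun x : ℤ => max 0 x + 1) (nn g r i + nn g r j) else 0) := by
    unfold sumLe
    push_cast
    refine Finset.sum_le_sum fun i _ => Finset.sum_le_sum fun j _ => ?_
    split_ifs with hij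
    · show ((e1 g r i j : ℕ) : ℤ) ≤ max 0 (nn g r i + nn g r j) + 1
      unfold e1
      omega
    · exact le_rfl
  have h0 := pair_sum (g := g) h.zero (fun x : ℤ => max 0 x + 1)
  rw [h0] at h1
  refine h1.trans (le_of_eq ?_)
  have h2 : ∑ b ∈ Finset.Icc 1 g, (max 0 (2 * (r b : ℤ)) + 1 + (max 0 (-(2 * (r b : ℤ))) + 1) +
      (max 0 (r b : ℤ) + 1) + (max 0 (-(r b : ℤ)) + 1)) =
      ∑ b ∈ Finset.Icc 1 g, (3 * (r b : ℤ) + 4) := by
    refine Finset.sum_congr rfl fun b _ => ?_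
    omega
  have h3 : ∑ b ∈ Finset.Icc 1 g, ∑ a ∈ Finset.Ico 1 b,
      (max 0 ((r b : ℤ) + r a) + 1 + (max 0 (-(r b : ℤ) - r a) + 1) +
      (max 0 ((r b : ℤ) - r a) + 1) + (max 0 ((r a : ℤ) - r b) + 1)) =
      ∑ b ∈ Finset.Icc 1 g, ((b : ℤ) - 1) * (2 * r b + 4) := by
    refine Finset.sum_congr rfl fun b hb => ?_
    have hb' := Finset.mem_Icc.1 hb
    have h4 : ∀ a ∈ Finset.Ico 1 b, (max 0 ((r b : ℤ) + r a) + 1 + (max 0 (-(r b : ℤ) - r a) + 1) +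
        (max 0 ((r b : ℤ) - r a) + 1) + (max 0 ((r a : ℤ) - r b) + 1)) = 2 * r b + 4 := by
      intro a ha
      have ha' := Finset.mem_Ico.1 ha
      have := ex_le h (a := a) (b := b) (by omega) hb'.2
      omega
    rw [Finset.sum_congr rfl h4, Finset.sum_const, Nat.card_Ico, nsmul_eq_mul]
    congr 1
    omega
  rw [h2, h3]
  have h5 : ∑ b ∈ Finset.Icc 1 g, (3 * (r b : ℤ) + 4) +
      ∑ b ∈ Finset.Icc 1 g, ((b : ℤ) - 1) * (2 * r b + 4) =
      ∑ b ∈ Finset.Icc 1 g, (2 * (b : ℤ) + 1) * r b + ∑ b ∈ Finset.Icc 1 g, 4 * (b : ℤ) := by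
    rw [← Finset.sum_add_distrib, ← Finset.sum_add_distrib]
    refine Finset.sum_congr rfl fun b _ => ?_
    ring
  rw [add_assoc, h5, sum4]
  simp only [max_self]
  ring

/-- the excess -/
private def exc (m : ℤ) (r : ℕ → ℕ) (b : ℕ) : ℤ :=
  max 0 (2 * (r b : ℤ) - 2 * m) + max 0 ((r b : ℤ) - 2 * m) +
      ∑ a ∈ Finset.Ico 1 b, (max 0 ((r b : ℤ) + r a - 2 * m) + max 0 ((r b : ℤ) - r a - 2 * m))

private theorem e2_sum {m : ℕ} {r : ℕ → ℕ} (h : Typ g m r) :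
    (sumLe (e2 g m r) : ℤ) ≤ ∑ b ∈ Finset.Icc 1 g, exc m r b +
      (2 * m + 1) * ((2 * g + 1) * (g + 1)) := by
  have h1 : (sumLe (e2 g m r) : ℤ) ≤
      ∑ i, ∑ j, (if i ≤ j then (fun x : ℤ => 2 * m + x + 1 + max 0 (-2 * m - x))
        (nn g r i + nn g r j) else 0) := by
    unfold sumLe
    push_cast
    refine Finset.sum_le_sum fun i _ => Finset.sum_le_sum fun j _ => ?_
    split_ifs with hij
    · show ((e2 g m r i j : ℕ) : ℤ) ≤ 2 * m + (nn g r i + nn g r j) + 1 +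
        max 0 (-2 * m - (nn g r i + nn g r j))
      unfold e2
      omega
    · exact le_rfl
  have h0 := pair_sum (g := g) h.zero (fun x : ℤ => 2 * m + x + 1 + max 0 (-2 * m - x))
  rw [h0] at h1
  refine h1.trans (le_of_eq ?_)
  have h2 : ∑ b ∈ Finset.Icc 1 g, ((2 * (m : ℤ) + 2 * (r b : ℤ) + 1 +
        max 0 (-2 * (m : ℤ) - 2 * (r b : ℤ))) +
      (2 * (m : ℤ) + -(2 * (r b : ℤ)) + 1 + max 0 (-2 * (m : ℤ) - -(2 * (r b : ℤ)))) +
      (2 * (m : ℤ) + (r b : ℤ) + 1 + max 0 (-2 * (m : ℤ) - (r b : ℤ))) +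
      (2 * (m : ℤ) + -(r b : ℤ) + 1 + max 0 (-2 * (m : ℤ) - -(r b : ℤ)))) =
      ∑ b ∈ Finset.Icc 1 g, (max 0 (2 * (r b : ℤ) - 2 * m) + max 0 ((r b : ℤ) - 2 * m) +
        4 * (2 * m + 1)) := by
    refine Finset.sum_congr rfl fun b _ => ?_
    omega
  have h3 : ∑ b ∈ Finset.Icc 1 g, ∑ a ∈ Finset.Ico 1 b,
      ((2 * (m : ℤ) + ((r b : ℤ) + r a) + 1 + max 0 (-2 * (m : ℤ) - ((r b : ℤ) + r a))) +
      (2 * (m : ℤ) + (-(r b : ℤ) - r a) + 1 + max 0 (-2 * (m : ℤ) - (-(r b : ℤ) - r a))) +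
      (2 * (m : ℤ) + ((r b : ℤ) - r a) + 1 + max 0 (-2 * (m : ℤ) - ((r b : ℤ) - r a))) +
      (2 * (m : ℤ) + ((r a : ℤ) - r b) + 1 + max 0 (-2 * (m : ℤ) - ((r a : ℤ) - r b)))) =
      ∑ b ∈ Finset.Icc 1 g, (∑ a ∈ Finset.Ico 1 b,
        (max 0 ((r b : ℤ) + r a - 2 * m) + max 0 ((r b : ℤ) - r a - 2 * m)) +
        ((b : ℤ) - 1) * (4 * (2 * m + 1))) := by
    refine Finset.sum_congr rfl fun b hb => ?_
    have hb' := Finset.mem_Icc.1 hb
    have h4 : ∀ a ∈ Finset.Ico 1 b,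
        ((2 * (m : ℤ) + ((r b : ℤ) + r a) + 1 + max 0 (-2 * (m : ℤ) - ((r b : ℤ) + r a))) +
        (2 * (m : ℤ) + (-(r b : ℤ) - r a) + 1 + max 0 (-2 * (m : ℤ) - (-(r b : ℤ) - r a))) +
        (2 * (m : ℤ) + ((r b : ℤ) - r a) + 1 + max 0 (-2 * (m : ℤ) - ((r b : ℤ) - r a))) +
        (2 * (m : ℤ) + ((r a : ℤ) - r b) + 1 + max 0 (-2 * (m : ℤ) - ((r a : ℤ) - r b)))) =
        (max 0 ((r b : ℤ) + r a - 2 * m) + max 0 ((r b : ℤ) - r a - 2 * m)) +
          4 * (2 * m + 1) := by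
      intro a ha
      have ha' := Finset.mem_Ico.1 ha
      have := ex_le h (a := a) (b := b) (by omega) hb'.2
      omega
    rw [Finset.sum_congr rfl h4, Finset.sum_add_distrib, Finset.sum_const, Nat.card_Ico,
      nsmul_eq_mul]
    congr 2
    omega
  rw [h2, h3]
  have h5 : ∑ b ∈ Finset.Icc 1 g, (max 0 (2 * (r b : ℤ) - 2 * m) + max 0 ((r b : ℤ) - 2 * m) +
        4 * (2 * m + 1)) + ∑ b ∈ Finset.Icc 1 g, (∑ a ∈ Finset.Ico 1 b,
        (max 0 ((r b : ℤ) + r a - 2 * m) + max 0 ((r b : ℤ) - r a - 2 * m)) +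
        ((b : ℤ) - 1) * (4 * (2 * m + 1))) =
      ∑ b ∈ Finset.Icc 1 g, exc m r b +
        (2 * (m : ℤ) + 1) * ∑ b ∈ Finset.Icc 1 g, 4 * (b : ℤ) := by
    rw [← Finset.sum_add_distrib, Finset.mul_sum, ← Finset.sum_add_distrib]
    refine Finset.sum_congr rfl fun b _ => ?_
    unfold exc
    ring
  rw [add_assoc, h5, sum4]
  have h6 : max 0 (-2 * (m : ℤ) - 0) = 0 := by omega
  rw [h6]
  ring

private theorem eh_sum {r : ℕ → ℕ} (h0 : r 0 = 0) :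
    ∑ b ∈ Finset.Icc 1 g, 4 * (b : ℤ) * (r b : ℤ) + (2 * g + 1) * g ≤ sumLt (eh g r) := by
  have h1 : ∑ i, ∑ j, (if j < i then nn g r i - nn g r j + 1 else 0) ≤ (sumLt (eh g r) : ℤ) := by
    unfold sumLt
    push_cast
    refine Finset.sum_le_sum fun i _ => Finset.sum_le_sum fun j _ => ?_
    split_ifs with hij
    · show nn g r i - nn g r j + 1 ≤ ((eh g r i j : ℕ) : ℤ)
      unfold eh
      omega
    · exact le_rfl
  refine le_trans (le_of_eq ?_) h1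
  have h2 : ∀ i j : Fin (2 * g + 1), (if j < i then nn g r i - nn g r j + 1 else 0) =
      (if j < i then nn g r i - nn g r j else 0) + (if j < i then (1 : ℤ) else 0) := by
    intro i j
    split_ifs <;> ring
  simp only [h2, Finset.sum_add_distrib]
  rw [lt_sum h0]
  congr 1
  have h3 : ∀ i : Fin (2 * g + 1), ∑ j : Fin (2 * g + 1), (if j < i then (1 : ℤ) else 0) =
      i.val := by
    intro i
    rw [← Finset.sum_filter, Finset.sum_const, nsmul_eq_mul, mul_one]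
    have : (Finset.univ.filter fun j : Fin (2 * g + 1) => j < i) = Finset.Iio i := by
      ext x; simp
    rw [this, Fin.card_Iio]
  rw [Finset.sum_congr rfl fun i _ => h3 i]
  have h4 := sum_idx (g := g) h0 (fun x _ => x)
  beta_reduce at h4
  rw [h4, Finset.sum_congr rfl (g := fun _ => 2 * (g : ℤ)) (fun b _ => by ring), Finset.sum_const,
    Finset.card_range, nsmul_eq_mul]
  ring

theorem exps {m : ℕ} {r : ℕ → ℕ} (hg : 1 ≤ g) (h : Typ g m r) :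
    g * (sumLe (e1 g r) + sumLe (e2 g m r)) + ∑ b ∈ Finset.Icc 1 g, r b ≤
      g * (sumLt (eh g r) + 2 * m + (2 * g + 1) * (g + 2) + m * (4 * g ^ 2 + 6 * g)) := by
  have h1 := e1_sum h
  have h2 := e2_sum h
  have h3 := eh_sum (g := g) h.zero
  have h4 : (g : ℤ) * ∑ b ∈ Finset.Icc 1 g, exc m r b ≤
      ∑ b ∈ Finset.Icc 1 g, (g * (2 * (b : ℤ) - 1) - 1) * r b := by
    rw [Finset.mul_sum]
    refine Finset.sum_le_sum fun b hb => ?_
    have hb' := Finset.mem_Icc.1 hb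
    exact cusp g m (Int.natCast_nonneg m) (fun j => (r j : ℤ)) (by simp [h.zero])
      (fun j hj => by exact_mod_cast h.mono j hj) (by exact_mod_cast h.one)
      (fun j hj hj' => by exact_mod_cast h.step j hj hj') b hb'.1 hb'.2
  have hg0 : (0 : ℤ) ≤ g := Int.natCast_nonneg g
  zify
  have h5 : (g : ℤ) * ∑ b ∈ Finset.Icc 1 g, (2 * (b : ℤ) + 1) * r b +
      ∑ b ∈ Finset.Icc 1 g, (g * (2 * (b : ℤ) - 1) - 1) * r b + ∑ b ∈ Finset.Icc 1 g, (r b : ℤ) =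
      g * ∑ b ∈ Finset.Icc 1 g, 4 * (b : ℤ) * (r b : ℤ) := by
    rw [Finset.mul_sum, Finset.mul_sum, ← Finset.sum_add_distrib, ← Finset.sum_add_distrib]
    refine Finset.sum_congr rfl fun b _ => ?_
    ring
  have h6 := mul_le_mul_of_nonneg_left h1 hg0
  have h7 := mul_le_mul_of_nonneg_left h2 hg0
  have h8 := mul_le_mul_of_nonneg_left h3 hg0
  linarith

/-- the types are bounded -/
theorem typ_le {m : ℕ} {r : ℕ → ℕ} (h : Typ g m r) (b : ℕ) : r b ≤ 2 * g * m := by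
  by_cases hb : g < b
  · rw [h.top b hb]
    exact Nat.zero_le _
  rcases Nat.eq_zero_or_pos b with hb0 | hb0
  · rw [hb0, h.zero]
    exact Nat.zero_le _
  have key : ∀ d : ℕ, d + 1 ≤ g → r (d + 1) ≤ (2 * d + 1) * m := by
    intro d
    induction d with
    | zero => intro _; simpa using h.one
    | succ d ih =>
      intro hd
      have h1 := ih (by omega)
      have h2 := h.step (d + 1) (by omega) (by omega)
      calc r (d + 1 + 1) ≤ r (d + 1) + 2 * m := h2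
        _ ≤ (2 * d + 1) * m + 2 * m := by omega
        _ = (2 * (d + 1) + 1) * m := by ring
  have h1 := key (b - 1) (by omega)
  rw [show b - 1 + 1 = b by omega] at h1
  refine h1.trans (Nat.mul_le_mul_right m ?_)
  omega

end Pool.Agent.HYP
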