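import Mathlib

/-!
Module C.Congr. Over a finite field of odd characteristic two invertible symmetric matrices with the
same determinant up to a square are congruent.

Every invertible symmetric `S` of size `n ≥ 1` is congruent to `diag (1, …, 1, det S)` (then the
last entry up to a square `a ^ 2`: scale by `diag (1, …, 1, a)`). Induction on `n`: a vector `w` with
`wᵀ S w ≠ 0` exists (`2 ≠ 0`); for `n ≥ 2` the form represents `1`: diagonalise
(`LinearMap.BilinForm.exists_orthogonal_basis` or a hands-on splitting) and `a x ^ 2 + b y ^ 2 = 1` has a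
solution in a finite field (`FiniteField.exists_root_sum_quadratic` or a counting argument). Split off
the vector with value `1`: `S` is congruent to `1 ⊕ S'`, `det S' = det S * square`.
An alternative without blocks: work with bilinear forms on `Fin n → F` and bases.
-/

set_option autoImplicit false

namespace Pool.Agent.HYP

open Module in
private theorem cg_sol {F : Type} [Field F] [Finite F] (h2 : (2 : F) ≠ 0) (a b : F) (ha : a ≠ 0)
    (hb : b ≠ 0) : ∃ x y : F, a * x ^ 2 + b * y ^ 2 = 1 := by
  have := Fintype.ofFinite F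
  have hc : ringChar F ≠ 2 := by
    intro h
    have h3 : ((ringChar F : ℕ) : F) = 0 := CharP.cast_eq_zero F (ringChar F)
    rw [h] at h3
    exact h2 (by exact_mod_cast h3)
  obtain ⟨x, y, h⟩ := FiniteField.exists_root_sum_quadratic (R := F)
    (f := Polynomial.C a * Polynomial.X ^ 2 + Polynomial.C 0 * Polynomial.X + Polynomial.C 0)
    (g := Polynomial.C b * Polynomial.X ^ 2 + Polynomial.C 0 * Polynomial.X + Polynomial.C (-1))
    (Polynomial.degree_quadratic ha) (Polynomial.degree_quadratic hb)
    (FiniteField.odd_card_of_char_ne_two hc)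
  refine ⟨x, y, ?_⟩
  simp only [Polynomial.eval_add, Polynomial.eval_mul, Polynomial.eval_C, Polynomial.eval_pow,
    Polynomial.eval_X] at h
  linear_combination h

open Module in
private theorem cg_one {F : Type} [Field F] [Finite F] (h2 : (2 : F) ≠ 0) {V : Type}
    [AddCommGroup V] [Module F V] [FiniteDimensional F V] (B : LinearMap.BilinForm F V)
    (hs : B.IsSymm) (hn : B.Nondegenerate) (hd : 2 ≤ finrank F V) : ∃ w, B w w = 1 := by
  have : Invertible (2 : F) := invertibleOfNonzero h2
  obtain ⟨v, hv⟩ := LinearMap.BilinForm.exists_orthogonal_basis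
      (LinearMap.BilinForm.isSymm_iff.1 hs)
  have hne := hv.not_isOrtho_basis_self_of_separatingLeft hn.1
  obtain ⟨x, y, hxy⟩ := cg_sol h2 (B (v ⟨0, by omega⟩) (v ⟨0, by omega⟩))
    (B (v ⟨1, by omega⟩) (v ⟨1, by omega⟩)) (hne _) (hne _)
  refine ⟨x • v ⟨0, by omega⟩ + y • v ⟨1, by omega⟩, ?_⟩
  have h01 : B (v ⟨0, by omega⟩) (v ⟨1, by omega⟩) = 0 := hv (by simp)
  have h10 : B (v ⟨1, by omega⟩) (v ⟨0, by omega⟩) = 0 := hv (by simp)
  simp only [map_add, map_smul, LinearMap.add_apply, LinearMap.smul_apply, smul_eq_mul, h01, h10]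
  linear_combination hxy

open Module in
private theorem cg_basis {F : Type} [Field F] [Finite F] (h2 : (2 : F) ≠ 0) (n : ℕ) :
    ∀ {V : Type} [AddCommGroup V] [Module F V] [FiniteDimensional F V]
      (B : LinearMap.BilinForm F V), B.IsSymm → B.Nondegenerate → finrank F V = n + 1 →
      ∃ v : Basis (Fin (n + 1)) F V, ∃ d : F, d ≠ 0 ∧ (∀ i j, i ≠ j → B (v i) (v j) = 0) ∧
        ∀ i, B (v i) (v i) = if i = Fin.last n then d else 1 := by
  induction n with
  | zero =>
    intro V _ _ _ B hs hn hd
    have : Invertible (2 : F) := invertibleOfNonzero h2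
    obtain ⟨v, hv⟩ := LinearMap.BilinForm.exists_orthogonal_basis
      (LinearMap.BilinForm.isSymm_iff.1 hs)
    have hne := hv.not_isOrtho_basis_self_of_separatingLeft hn.1
    refine ⟨v.reindex (finCongr hd), B (v.reindex (finCongr hd) 0) (v.reindex (finCongr hd) 0),
      ?_, ?_, ?_⟩
    · rw [Basis.reindex_apply]
      exact hne _
    · intro i j hij
      exact absurd (Fin.ext (by omega)) hij
    · intro i
      have h1 : i = 0 := Fin.ext (by omega)
      subst h1
      rw [if_pos (Fin.ext (by simp))]
  | succ n ih =>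
    intro V _ _ _ B hs hn hd
    obtain ⟨x, hx1⟩ := cg_one h2 B hs hn (by omega)
    have hx : B x x ≠ 0 := by
      rw [hx1]
      exact one_ne_zero
    have hx0 : x ≠ 0 := by
      rintro rfl
      apply hx
      simp
    have hcompl := LinearMap.BilinForm.isCompl_span_singleton_orthogonal hx
    have hrank : finrank F (B.orthogonal (Submodule.span F {x})) = n + 1 := by
      have h1 := Submodule.finrank_add_eq_of_isCompl hcompl
      rw [finrank_span_singleton hx0, hd] at h1
      omega
    have hs' : (B.restrict (B.orthogonal (Submodule.span F {x}))).IsSymm :=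
      ⟨fun y z => hs.eq y.1 z.1⟩
    obtain ⟨v', d, hd0, hv1, hv2⟩ := ih (B.restrict (B.orthogonal (Submodule.span F {x})))
      hs' (B.restrict_nondegenerate_orthogonal_spanSingleton hn hs.isRefl hx) hrank
    have hmem : ∀ z : B.orthogonal (Submodule.span F {x}), B x z.1 = 0 := fun z =>
      z.2 x (Submodule.mem_span_singleton_self x)
    let b := Basis.mkFinCons x v'
      (by
        rintro c y hy hc
        rw [add_eq_zero_iff_neg_eq] at hc
        rw [← hc, Submodule.neg_mem_iff] at hy
        have h3 := hcompl.disjoint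
        rw [Submodule.disjoint_def] at h3
        have h4 := h3 (c • x) (Submodule.smul_mem _ _ <| Submodule.mem_span_singleton_self _) hy
        exact (smul_eq_zero.1 h4).resolve_right hx0)
      (by
        intro y
        refine ⟨-B x y / B x x, fun z hz => ?_⟩
        obtain ⟨c, rfl⟩ := Submodule.mem_span_singleton.1 hz
        change B (c • x) (y + (-B x y / B x x) • x) = 0
        rw [map_smul, LinearMap.smul_apply, map_add, map_smul, smul_eq_mul, smul_eq_mul,
          div_mul_cancel₀ _ hx, add_neg_cancel, mul_zero])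
    refine ⟨b, d, hd0, ?_, ?_⟩
    · intro i j
      rw [Basis.coe_mkFinCons]
      refine Fin.cases ?_ (fun i => ?_) i <;> refine Fin.cases ?_ (fun j => ?_) j <;>
        intro hij <;> simp only [Fin.cons_zero, Fin.cons_succ, Function.comp_apply]
      · exact (hij rfl).elim
      · exact hmem _
      · rw [← hs.eq]
        exact hmem _
      · exact hv1 i j fun h => hij (congrArg _ h)
    · intro i
      rw [Basis.coe_mkFinCons]
      refine Fin.cases ?_ (fun i => ?_) i
      · simp only [Fin.cons_zero]
        rw [hx1, if_neg]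
        intro h
        have := congrArg Fin.val h
        simp at this
      · simp only [Fin.cons_succ, Function.comp_apply]
        have h3 := hv2 i
        by_cases hi : i = Fin.last n
        · rw [if_pos hi] at h3
          rw [if_pos (by rw [hi, Fin.succ_last])]
          exact h3
        · rw [if_neg hi] at h3
          rw [if_neg (by
            rw [← Fin.succ_last]
            exact fun h => hi (Fin.succ_injective _ h))]
          exact h3

private theorem cg_diag {F : Type} [Field F] [Finite F] (h2 : (2 : F) ≠ 0) {n : ℕ}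
    (S : Matrix (Fin (n + 1)) (Fin (n + 1)) F) (hS : S.transpose = S) (hd : S.det ≠ 0) :
    ∃ P : Matrix (Fin (n + 1)) (Fin (n + 1)) F, IsUnit P.det ∧ ∃ d : F, d ≠ 0 ∧
      P * S * P.transpose = Matrix.diagonal (fun i => if i = Fin.last n then d else 1) := by
  have hs : (Matrix.toBilin' S).IsSymm := Matrix.isSymm_toBilin'_iff_isSymm.2 hS
  have hn : (Matrix.toBilin' S).Nondegenerate :=
    (Matrix.nondegenerate_of_det_ne_zero hd).toBilin'
  obtain ⟨v, d, hd0, h1, h3⟩ := cg_basis h2 n (Matrix.toBilin' S) hs hn (by simp)
  refine ⟨Matrix.of fun i => v i, ?_, d, hd0, ?_⟩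
  · have h4 := Module.Basis.isUnit_det (Pi.basisFun F (Fin (n + 1))) v
    rw [Module.Basis.det_apply] at h4
    have h5 : (Pi.basisFun F (Fin (n + 1))).toMatrix v = (Matrix.of fun i => v i).transpose := by
      funext i j
      simp [Module.Basis.toMatrix_apply]
    rwa [h5, Matrix.det_transpose] at h4
  · funext i j
    have h4 : ((Matrix.of fun i => v i) * S * (Matrix.of fun i => v i).transpose) i j =
        Matrix.toBilin' S (v i) (v j) := by
      rw [Matrix.toBilin'_apply, Matrix.mul_apply, Finset.sum_comm]
      refine Finset.sum_congr rfl fun t _ => ?_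
      rw [Matrix.mul_apply, Finset.sum_mul]
      rfl
    rw [h4]
    by_cases hij : i = j
    · subst hij
      rw [h3 i, Matrix.diagonal_apply_eq]
    · rw [h1 i j hij, Matrix.diagonal_apply_ne _ hij]

theorem congr_of_det {F : Type} [Field F] [Finite F] (h2 : (2 : F) ≠ 0) {n : ℕ}
    (S T : Matrix (Fin n) (Fin n) F) (hS : S.transpose = S) (hT : T.transpose = T)
    (hd : S.det ≠ 0) (h : ∃ a : F, a ≠ 0 ∧ T.det = a ^ 2 * S.det) :
    ∃ P : Matrix (Fin n) (Fin n) F, IsUnit P.det ∧ P * S * P.transpose = T := by
  obtain ⟨a, ha, hdet⟩ := h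
  cases n with
  | zero =>
    refine ⟨1, by simp, ?_⟩
    funext i
    exact i.elim0
  | succ n =>
    have hdT : T.det ≠ 0 := by
      rw [hdet]
      exact mul_ne_zero (pow_ne_zero _ ha) hd
    obtain ⟨P, hP, d, hd0, hPS⟩ := cg_diag h2 S hS hd
    obtain ⟨Q, hQ, d', hd0', hQT⟩ := cg_diag h2 T hT hdT
    have hprod : ∀ e : F, (Matrix.diagonal
        (fun i : Fin (n + 1) => if i = Fin.last n then e else 1)).det = e := by
      intro e
      rw [Matrix.det_diagonal, Finset.prod_ite_eq' Finset.univ (Fin.last n) (fun _ => e),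
        if_pos (Finset.mem_univ _)]
    have h3 : P.det * S.det * P.det = d := by
      have := congrArg Matrix.det hPS
      rwa [hprod, Matrix.det_mul, Matrix.det_mul, Matrix.det_transpose] at this
    have h4 : Q.det * T.det * Q.det = d' := by
      have := congrArg Matrix.det hQT
      rwa [hprod, Matrix.det_mul, Matrix.det_mul, Matrix.det_transpose] at this
    have hP0 : P.det ≠ 0 := hP.ne_zero
    have hQ0 : Q.det ≠ 0 := hQ.ne_zero
    set c : F := Q.det * a / P.det with hc
    have hc0 : c ≠ 0 := div_ne_zero (mul_ne_zero hQ0 ha) hP0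
    have h5 : d' = c * d * c := by
      rw [← h3, ← h4, hdet, hc]
      field_simp
    set C : Matrix (Fin (n + 1)) (Fin (n + 1)) F :=
      Matrix.diagonal (fun i => if i = Fin.last n then c else 1) with hC
    have h6 : C * Matrix.diagonal (fun i => if i = Fin.last n then d else 1) * C.transpose =
        Matrix.diagonal (fun i => if i = Fin.last n then d' else 1) := by
      rw [hC, Matrix.diagonal_transpose, Matrix.diagonal_mul_diagonal,
        Matrix.diagonal_mul_diagonal]
      congr 1
      funext i
      by_cases hi : i = Fin.last n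
      · simp only [hi, if_true, h5]
      · simp only [hi, if_false, mul_one]
    refine ⟨Q⁻¹ * C * P, ?_, ?_⟩
    · rw [Matrix.det_mul, Matrix.det_mul, hprod, isUnit_iff_ne_zero]
      refine mul_ne_zero (mul_ne_zero ?_ hc0) hP0
      rw [Matrix.det_nonsing_inv, Ring.inverse_eq_inv']
      exact inv_ne_zero hQ0
    · have h7 : Q⁻¹ * Q = 1 := Matrix.nonsing_inv_mul Q hQ
      have h8 : Q.transpose * Q⁻¹.transpose = 1 := by
        rw [← Matrix.transpose_mul, h7, Matrix.transpose_one]
      calc Q⁻¹ * C * P * S * (Q⁻¹ * C * P).transpose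
          = Q⁻¹ * (C * (P * S * P.transpose) * C.transpose) * Q⁻¹.transpose := by
            rw [Matrix.transpose_mul, Matrix.transpose_mul]
            simp only [Matrix.mul_assoc]
        _ = Q⁻¹ * (Q * T * Q.transpose) * Q⁻¹.transpose := by rw [hPS, h6, hQT]
        _ = (Q⁻¹ * Q) * T * (Q.transpose * Q⁻¹.transpose) := by
            simp only [Matrix.mul_assoc]
        _ = T := by rw [h7, h8, Matrix.one_mul, Matrix.mul_one]

end Pool.Agent.HYP
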