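import Mathlib

/-!
Module C.Irr. There are at least `Q ^ d / (2 d)` monic irreducible polynomials of degree `d ≥ 2` over a
field with `Q ≥ 3` elements. Template: `card_inertPrimes` in
`Pool/Agent/Results/MP_48b749_nt/Count2.lean` and `Pool/Agent/Lib/BSDP/C/Irr.lean` (upper bound).

Let `K / F` be an extension of degree `d` (`FiniteField.Extension` or `GaloisField` or
`AdjoinRoot` of an irreducible polynomial). An `x : K` with `(minpoly F x).natDegree = j < d` has
`j ∣ d`, so `j ≤ d / 2`, and `x ^ (Q ^ j) = x`: at most `Q ^ j` such `x` for each `j`, together at most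
`∑_{1 ≤ j ≤ d/2} Q ^ j ≤ Q ^ d / 2` (`Q ^ (d/2) * Q / (Q - 1) ≤ (3/2) Q ^ (d/2) ≤ Q ^ d / 2`). The
other `x : K`, at least `Q ^ d / 2`, map to `minpoly F x`, monic irreducible of degree `d`, with at most
`d` elements (roots) over each polynomial.
-/

set_option autoImplicit false

open Polynomial

namespace Pool.Agent.HYP

private theorem irr_finite {k : Type} [Field k] [Finite k] (d : ℕ) :
    {π : k[X] | π.Monic ∧ Irreducible π ∧ π.natDegree = d}.Finite := by
  have h1 : Finite (Polynomial.degreeLT k (d + 1)) :=
    Finite.of_equiv _ (Polynomial.degreeLTEquiv k (d + 1)).toEquiv.symm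
  refine Set.Finite.subset (Set.toFinite (Polynomial.degreeLT k (d + 1) : Set k[X])) ?_
  rintro f ⟨_, _, hf⟩
  show f ∈ Polynomial.degreeLT k (d + 1)
  rw [Polynomial.mem_degreeLT]
  refine lt_of_le_of_lt Polynomial.degree_le_natDegree ?_
  rw [hf]
  exact_mod_cast Nat.lt_succ_self d

private lemma two_sum_pow_le (q : ℕ) (hq : 3 ≤ q) (m : ℕ) :
    2 * ∑ d ∈ Finset.Icc 1 m, q ^ d + 3 ≤ 3 * q ^ m := by
  induction m with
  | zero => simp
  | succ m ih =>
    rw [Finset.sum_Icc_succ_top (by omega)]
    have : 3 * q ^ m ≤ q ^ (m + 1) := by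
      rw [pow_succ, mul_comm]
      exact Nat.mul_le_mul_left _ hq
    omega

theorem irr_card_ge {F : Type} [Field F] [Finite F] (hQ : 3 ≤ Nat.card F) (d : ℕ) (hd : 2 ≤ d) :
    Nat.card F ^ d ≤ 2 * d * Nat.card {h : F[X] // h.Monic ∧ Irreducible h ∧ h.natDegree = d} := by
  classical
  have : NeZero d := ⟨by omega⟩
  obtain ⟨p, hp⟩ := CharP.exists F
  have : Fact (Nat.Prime p) := ⟨CharP.char_is_prime F p⟩
  set K := FiniteField.Extension F p d with hK
  have : Fintype K := Fintype.ofFinite K
  have hcard : Fintype.card K = Nat.card F ^ d := by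
    rw [← Nat.card_eq_fintype_card]
    exact FiniteField.natCard_extension F p d
  let small : Finset K := (Finset.Icc 1 (d / 2)).biUnion
    (fun j => Finset.univ.filter (fun t : K => t ^ (Nat.card F ^ j) = t))
  have hsmall : small.card ≤ ∑ j ∈ Finset.Icc 1 (d / 2), Nat.card F ^ j := by
    refine Finset.card_biUnion_le.trans ?_
    apply Finset.sum_le_sum
    intro j hj
    rw [Finset.mem_Icc] at hj
    have hlt : 1 < Nat.card F ^ j := Nat.one_lt_pow (by omega) (by omega)
    have hp0 : (X ^ (Nat.card F ^ j) - X : K[X]) ≠ 0 := FiniteField.X_pow_card_sub_X_ne_zero K hlt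
    have h1 : Finset.univ.filter (fun t : K => t ^ (Nat.card F ^ j) = t) ⊆
        (X ^ (Nat.card F ^ j) - X : K[X]).roots.toFinset := by
      intro x hx
      rw [Finset.mem_filter] at hx
      rw [Multiset.mem_toFinset, mem_roots hp0, IsRoot.def]
      simp only [eval_sub, eval_pow, eval_X]
      rw [hx.2, sub_self]
    refine (Finset.card_le_card h1).trans ((Multiset.toFinset_card_le _).trans
      ((card_roots' _).trans ?_))
    rw [FiniteField.X_pow_card_sub_X_natDegree_eq K hlt]
  have hsmall2 : 2 * small.card ≤ Nat.card F ^ d := by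
    have h1 := two_sum_pow_le (Nat.card F) hQ (d / 2)
    have h2 : 3 * Nat.card F ^ (d / 2) ≤ Nat.card F ^ (d / 2 + 1) := by
      rw [pow_succ, mul_comm]
      exact Nat.mul_le_mul_left _ hQ
    have h3 : Nat.card F ^ (d / 2 + 1) ≤ Nat.card F ^ d :=
      Nat.pow_le_pow_right (by omega) (by omega)
    omega
  let good : Finset K := Finset.univ.filter (fun t => (minpoly F t).natDegree = d)
  have hfr : Module.finrank F K = d := FiniteField.finrank_extension F p d
  have hint : ∀ t : K, IsIntegral F t := fun t => IsIntegral.of_finite F t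
  have hcover : (Finset.univ : Finset K) ⊆ small ∪ good := by
    intro t ht
    rw [Finset.mem_union]
    by_cases hdt : (minpoly F t).natDegree = d
    · right
      exact Finset.mem_filter.mpr ⟨ht, hdt⟩
    · left
      have hdvd : (minpoly F t).natDegree ∣ d :=
        (minpoly.degree_dvd (hint t)).trans (dvd_of_eq hfr)
      have hpos := minpoly.natDegree_pos (hint t)
      obtain ⟨e, he⟩ := hdvd
      have he2 : 2 ≤ e := by
        rcases e with _ | _ | e
        · omega
        · rw [zero_add, mul_one] at he
          exact absurd he.symm hdt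
        · omega
      have hle : (minpoly F t).natDegree ≤ d / 2 := by
        rw [Nat.le_div_iff_mul_le (by norm_num)]
        conv_rhs => rw [he]
        exact Nat.mul_le_mul_left _ he2
      rw [Finset.mem_biUnion]
      refine ⟨(minpoly F t).natDegree, Finset.mem_Icc.mpr ⟨hpos, hle⟩, ?_⟩
      rw [Finset.mem_filter]
      refine ⟨Finset.mem_univ _, ?_⟩
      have h5 := ((minpoly.irreducible (hint t)).natDegree_dvd_iff_dvd_X_pow_card_pow_sub_X
        (n := (minpoly F t).natDegree)).mp dvd_rfl
      obtain ⟨g, hg⟩ := h5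
      have h6 := congrArg (aeval t) hg
      rw [map_mul, minpoly.aeval, zero_mul, map_sub, map_pow, aeval_X] at h6
      linear_combination h6
  have hfin := irr_finite (k := F) d
  have hN : Nat.card {h : F[X] // h.Monic ∧ Irreducible h ∧ h.natDegree = d} =
      {π : F[X] | π.Monic ∧ Irreducible π ∧ π.natDegree = d}.ncard := rfl
  have hgood : good.card ≤
      d * Nat.card {h : F[X] // h.Monic ∧ Irreducible h ∧ h.natDegree = d} := by
    have h5 : good.card ≤ d * (good.image (minpoly F)).card := by
      apply Finset.card_le_mul_card_image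
      intro π hπ
      obtain ⟨t0, ht0, rfl⟩ := Finset.mem_image.mp hπ
      have hd0 := (Finset.mem_filter.mp ht0).2
      have hp0 : (minpoly F t0).map (algebraMap F K) ≠ 0 :=
        Polynomial.map_ne_zero (minpoly.ne_zero (hint t0))
      have h6 : good.filter (fun t => minpoly F t = minpoly F t0) ⊆
          ((minpoly F t0).map (algebraMap F K)).roots.toFinset := by
        intro t ht
        rw [Finset.mem_filter] at ht
        rw [Multiset.mem_toFinset, mem_roots hp0, IsRoot.def, eval_map, ← aeval_def, ← ht.2]
        exact minpoly.aeval F t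
      refine (Finset.card_le_card h6).trans ((Multiset.toFinset_card_le _).trans
        ((card_roots' _).trans ?_))
      rw [natDegree_map, hd0]
    refine h5.trans (Nat.mul_le_mul_left _ ?_)
    rw [hN, ← Set.ncard_coe_finset]
    apply Set.ncard_le_ncard _ hfin
    intro π hπ
    rw [Finset.mem_coe, Finset.mem_image] at hπ
    obtain ⟨t, ht, rfl⟩ := hπ
    exact ⟨minpoly.monic (hint t), minpoly.irreducible (hint t), (Finset.mem_filter.mp ht).2⟩
  have htot : Nat.card F ^ d ≤ small.card + good.card := by
    rw [← hcard, ← Finset.card_univ]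
    exact (Finset.card_le_card hcover).trans (Finset.card_union_le _ _)
  have : 2 * d * Nat.card {h : F[X] // h.Monic ∧ Irreducible h ∧ h.natDegree = d} =
      2 * (d * Nat.card {h : F[X] // h.Monic ∧ Irreducible h ∧ h.natDegree = d}) := by ring
  rw [this]
  omega

end Pool.Agent.HYP
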