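import Pool.Agent.Lib.HYP.C.Sym

/-!
Module C.Orth. Numbers of invertible matrices and of the `P` with `P Γ Pᵀ = G`.

* `card_gl_ge`: `Matrix.card_GL_field`: `#GL_n = ∏_{i<n} (Q ^ n - Q ^ i)`, so
  `#GL_n / Q ^ (n ^ 2) = ∏_{1 ≤ i ≤ n} (1 - Q ^ (-i)) ≥ 1 - ∑ Q ^ (-i) ≥ 1/2` for `Q ≥ 3`
  (`Finset.prod_one_sub_...`/Bernoulli by induction; or show by induction
  `Q ^ (n ^ 2) * (Q ^ n + 1) ≤ 2 * Q ^ n * #GL_n`-type inequality).
* `card_cong_ge`: the map `GL_n → {symmetric matrices}`, `P ↦ P Γ Pᵀ`. The fibre over `G'` is empty or,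
  for `P₁` in it, `P ↦ P₀ P₁⁻¹ P` maps it injectively to `{P | P Γ Pᵀ = G}`. So
  `#GL_n ≤ #Sym * #{P | P Γ Pᵀ = G}` and `card_sym`
  (`Finset.card_le_mul_card_image`-like, or `Nat.card` of a sigma type of fibres).
-/

set_option autoImplicit false

namespace Pool.Agent.HYP

private theorem gl_prod_succ (q n : ℕ) :
    ∏ i : Fin (n + 1), (q ^ (n + 1) - q ^ (i : ℕ)) =
      (q ^ (n + 1) - 1) * (q ^ n * ∏ i : Fin n, (q ^ n - q ^ (i : ℕ))) := by
  rw [Fin.prod_univ_succ]
  have h : ∀ i : Fin n, q ^ (n + 1) - q ^ ((Fin.succ i : Fin (n + 1)) : ℕ) =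
      q * (q ^ n - q ^ (i : ℕ)) := by
    intro i
    rw [Fin.val_succ, pow_succ, pow_succ, Nat.mul_sub, mul_comm q, mul_comm q]
  rw [Finset.prod_congr rfl (fun i _ => h i), Finset.prod_mul_distrib]
  simp

private theorem gl_ineq (q : ℕ) (hq : 3 ≤ q) (n : ℕ) :
    q ^ (n ^ 2) * (q ^ n + 1) ≤ 2 * (q ^ n * ∏ i : Fin n, (q ^ n - q ^ (i : ℕ))) := by
  induction n with
  | zero => simp
  | succ n ih =>
    rw [gl_prod_succ]
    set P := ∏ i : Fin n, (q ^ n - q ^ (i : ℕ)) with hP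
    set A := q ^ (n ^ 2) with hA
    set B := q ^ n with hB
    have hB1 : 1 ≤ B := Nat.one_le_pow _ _ (by omega)
    have e1 : q ^ ((n + 1) ^ 2) = A * B * B * q := by
      rw [hA, hB, ← pow_add, ← pow_add, ← pow_succ]
      congr 1
      ring
    have e2 : q ^ (n + 1) = q * B := by rw [hB, pow_succ, mul_comm]
    rw [e1, e2]
    obtain ⟨C, hC⟩ : ∃ C, q * B = C + 1 := ⟨q * B - 1, by
      have : 1 ≤ q * B := Nat.mul_pos (by omega) hB1
      omega⟩
    have hCB : 2 * B ≤ C := by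
      have : 3 * B ≤ q * B := Nat.mul_le_mul_right _ hq
      omega
    rw [hC, Nat.add_sub_cancel]
    have h1 : A * B * B * q * (C + 1 + 1) = (A * B * (C + 1)) * (C + 2) := by
      calc A * B * B * q * (C + 1 + 1) = (A * B * (q * B)) * (C + 2) := by ring
        _ = _ := by rw [hC]
    have h2 : 2 * ((C + 1) * (C * (B * P))) = ((C + 1) * C) * (2 * (B * P)) := by ring
    rw [h1, h2]
    refine le_trans ?_ (Nat.mul_le_mul_left _ ih)
    have h3 : A * B * (C + 1) * (C + 2) = (A * (C + 1)) * (B * (C + 2)) := by ring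
    have h4 : (C + 1) * C * (A * (B + 1)) = (A * (C + 1)) * (C * (B + 1)) := by ring
    rw [h3, h4]
    refine Nat.mul_le_mul_left _ ?_
    nlinarith

theorem card_gl_ge {F : Type} [Field F] [Finite F] (hQ : 3 ≤ Nat.card F) (n : ℕ) :
    Nat.card F ^ (n ^ 2) ≤ 2 * Nat.card (Matrix.GeneralLinearGroup (Fin n) F) := by
  classical
  have : Fintype F := Fintype.ofFinite F
  rw [Matrix.card_GL_field, ← Nat.card_eq_fintype_card]
  have h := gl_ineq (Nat.card F) hQ n
  have hB : 0 < Nat.card F ^ n := pow_pos (by omega) _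
  refine Nat.le_of_mul_le_mul_left (?_ : Nat.card F ^ n * _ ≤ Nat.card F ^ n * _) hB
  calc Nat.card F ^ n * Nat.card F ^ (n ^ 2)
      ≤ Nat.card F ^ (n ^ 2) * (Nat.card F ^ n + 1) := by rw [mul_comm]; exact Nat.mul_le_mul_left _ (Nat.le_succ _)
    _ ≤ _ := h
    _ = _ := by ring

theorem card_cong_ge {F : Type} [Field F] [Finite F] {n : ℕ} (Γ G P₀ : Matrix (Fin n) (Fin n) F)
    (hs : Γ.transpose = Γ) (h0 : IsUnit P₀.det) (h : P₀ * Γ * P₀.transpose = G) :
    Nat.card (Matrix.GeneralLinearGroup (Fin n) F) ≤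
      Nat.card {P : Matrix (Fin n) (Fin n) F // P * Γ * P.transpose = G} *
        Nat.card F ^ (n * (n + 1) / 2) := by
  classical
  let φ : Matrix.GeneralLinearGroup (Fin n) F →
      {S : Matrix (Fin n) (Fin n) F // S.transpose = S} := fun P =>
    ⟨P.1 * Γ * P.1.transpose, by
      rw [Matrix.transpose_mul, Matrix.transpose_mul, Matrix.transpose_transpose, hs, mul_assoc]⟩
  let c : {S : Matrix (Fin n) (Fin n) F // S.transpose = S} →
      Matrix.GeneralLinearGroup (Fin n) F := fun S =>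
    if hS : ∃ P, φ P = S then hS.choose else 1
  have hc : ∀ P, φ (c (φ P)) = φ P := by
    intro P
    have hS : ∃ P', φ P' = φ P := ⟨P, rfl⟩
    simp only [c, dif_pos hS]
    exact hS.choose_spec
  have hc' : ∀ P : Matrix.GeneralLinearGroup (Fin n) F,
      (c (φ P)).1 * Γ * (c (φ P)).1.transpose = P.1 * Γ * P.1.transpose := fun P =>
    congrArg Subtype.val (hc P)
  have hinv : ∀ D : Matrix.GeneralLinearGroup (Fin n) F, (D⁻¹).1 * D.1 = 1 := fun D => by
    rw [← Units.val_mul, inv_mul_cancel, Units.val_one]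
  let f : Matrix.GeneralLinearGroup (Fin n) F →
      {P : Matrix (Fin n) (Fin n) F // P * Γ * P.transpose = G} ×
        {S : Matrix (Fin n) (Fin n) F // S.transpose = S} := fun P =>
    (⟨P₀ * ((c (φ P))⁻¹).1 * P.1, by
      have e := hc' P
      set D := c (φ P) with hD
      have hD1 : (D⁻¹).1 * D.1 = 1 := hinv D
      have hD2 : D.1.transpose * (D⁻¹).1.transpose = 1 := by
        rw [← Matrix.transpose_mul, hD1, Matrix.transpose_one]
      calc P₀ * (D⁻¹).1 * P.1 * Γ * (P₀ * (D⁻¹).1 * P.1).transpose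
          = P₀ * (D⁻¹).1 * (P.1 * Γ * P.1.transpose) * (D⁻¹).1.transpose * P₀.transpose := by
            rw [Matrix.transpose_mul, Matrix.transpose_mul]
            simp only [mul_assoc]
        _ = P₀ * ((D⁻¹).1 * D.1) * Γ * (D.1.transpose * (D⁻¹).1.transpose) * P₀.transpose := by
            rw [← e]
            simp only [mul_assoc]
        _ = G := by rw [hD1, hD2, mul_one, mul_one, h]⟩, φ P)
  have hf : Function.Injective f := by
    intro P P' hPP
    have e1 : φ P = φ P' := congrArg Prod.snd hPP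
    have e2 : P₀ * ((c (φ P))⁻¹).1 * P.1 = P₀ * ((c (φ P'))⁻¹).1 * P'.1 :=
      congrArg (fun z => (Prod.fst z).1) hPP
    rw [← e1, mul_assoc, mul_assoc] at e2
    have hU : IsUnit P₀ := (Matrix.isUnit_iff_isUnit_det _).2 h0
    have e3 := hU.mul_left_cancel e2
    have e4 := (Units.isUnit ((c (φ P))⁻¹)).mul_left_cancel e3
    exact Units.ext e4
  calc Nat.card (Matrix.GeneralLinearGroup (Fin n) F)
      ≤ Nat.card ({P : Matrix (Fin n) (Fin n) F // P * Γ * P.transpose = G} ×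
        {S : Matrix (Fin n) (Fin n) F // S.transpose = S}) :=
        Nat.card_le_card_of_injective f hf
    _ = _ := by rw [Nat.card_prod, card_sym]

end Pool.Agent.HYP
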