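import Pool.Agent.Lib.HYP.C.Model
import Pool.Agent.Lib.HYP.C.Inv
import Pool.Agent.Lib.HYP.C.Orth
import Pool.Agent.Lib.HYP.C.Irr
import Pool.Agent.Lib.HYP.C.Congr

/-!
Module C.Dens. For every invertible symmetric `G1` over a finite field with `Q ≥ 3` elements, odd, at
least a part `1 / (32 g)` of all symmetric `G2` are such that the pencil is detected.

For `ρ : κ` and `h` monic irreducible of degree `2 g` take the model `(Γ1, Γ2)` with `det Γ1 = det G1`
(`exists_model`) and `P₀` with `P₀ Γ1 P₀ᵀ = G1` (`congr_of_det` with `a = 1`). The map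
`{P | P Γ1 Pᵀ = G1} → {G2 symmetric | Det G1 G2, pen G1 G2 = det G1 (x - ρ) h}`, `P ↦ P Γ2 Pᵀ`
(`pen_congr`, `det_congr_iff`; `(det P) ^ 2 = 1`), has fibres with at most `4` elements: if
`P`, `P'` have the same image then `P⁻¹ P'` is one of the `R` of `exists_model`. So
`#{P | …} ≤ 4 * #{G2 | … for (ρ, h)}`, and the sets for different `(ρ, h)` are disjoint
(`(x - ρ) h = (x - ρ') h'` with `h`, `h'` irreducible of degree `≥ 2`: `ρ'` is a root of the left side
and not of `h`, so `ρ = ρ'`). Numbers: `card_cong_ge`, `card_gl_ge` (`n = 2 g + 1`),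
`irr_card_ge` (`d = 2 g`):
`Q * (Q ^ (2 g)) * Q ^ (n ^ 2) ≤ 4 g * 2 * 4 * Q ^ (n (n + 1) / 2) * #{G2 | Det G1 G2}`, and
`n + n ^ 2 = 2 * (n (n + 1) / 2)`, `n (n + 1) / 2 = (2 g + 1) (g + 1)`.
-/

set_option autoImplicit false

open Polynomial

namespace Pool.Agent.HYP

private theorem dens_card_le {α β : Type} [Finite α] [Finite β] (f : α → β) (c : ℕ)
    (h : ∀ b, Nat.card {a // f a = b} ≤ c) : Nat.card α ≤ c * Nat.card β := by
  classical
  have : Fintype β := Fintype.ofFinite β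
  rw [← Nat.card_congr (Equiv.sigmaFiberEquiv f), Nat.card_sigma, Nat.card_eq_fintype_card (α := β)]
  have h1 := Finset.sum_le_card_nsmul Finset.univ (fun b => Nat.card {a // f a = b}) c (fun b _ => h b)
  rw [smul_eq_mul, Finset.card_univ, mul_comm] at h1
  exact h1

section
variable {κ : Type} [Field κ] {n : ℕ}

private theorem dens_finite [Finite κ] : Finite (Matrix (Fin n) (Fin n) κ) :=
  inferInstanceAs (Finite (Fin n → Fin n → κ))

private theorem dens_unit {P Γ G : Matrix (Fin n) (Fin n) κ} (h : P * Γ * P.transpose = G) (hG : G.det ≠ 0) :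
    IsUnit P.det := by
  rw [isUnit_iff_ne_zero]
  intro h0
  apply hG
  rw [← h, Matrix.det_mul, Matrix.det_mul, h0, zero_mul, zero_mul]

private theorem dens_cancel {P Γ G : Matrix (Fin n) (Fin n) κ} (h : P * Γ * P.transpose = G) (hu : IsUnit P.det) :
    P⁻¹ * G * P⁻¹.transpose = Γ := by
  rw [← h]
  have h1 : P⁻¹ * P = 1 := Matrix.nonsing_inv_mul P hu
  have h2 : P.transpose * P⁻¹.transpose = 1 := by
    rw [← Matrix.transpose_mul, h1, Matrix.transpose_one]
  calc P⁻¹ * (P * Γ * P.transpose) * P⁻¹.transpose = (P⁻¹ * P) * Γ * (P.transpose * P⁻¹.transpose) := by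
        simp only [Matrix.mul_assoc]
    _ = Γ := by rw [h1, h2, Matrix.one_mul, Matrix.mul_one]

private theorem dens_trans (A P Γ : Matrix (Fin n) (Fin n) κ) :
    (A * P) * Γ * (A * P).transpose = A * (P * Γ * P.transpose) * A.transpose := by
  rw [Matrix.transpose_mul]
  simp only [Matrix.mul_assoc]

private theorem dens_fibre [Finite κ] {Γ1 Γ2 G1 : Matrix (Fin n) (Fin n) κ} (hG : G1.det ≠ 0)
    (h4 : Nat.card {R : Matrix (Fin n) (Fin n) κ //
        R * Γ1 * R.transpose = Γ1 ∧ R * Γ2 * R.transpose = Γ2} ≤ 4) (G2 : Matrix (Fin n) (Fin n) κ) :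
    Nat.card {P : {P : Matrix (Fin n) (Fin n) κ // P * Γ1 * P.transpose = G1} //
      P.1 * Γ2 * P.1.transpose = G2} ≤ 4 := by
  have hfin : Finite (Matrix (Fin n) (Fin n) κ) := dens_finite
  rcases isEmpty_or_nonempty {P : {P : Matrix (Fin n) (Fin n) κ // P * Γ1 * P.transpose = G1} //
      P.1 * Γ2 * P.1.transpose = G2} with he | ⟨⟨⟨P₁, h1⟩, h2⟩⟩
  · rw [Nat.card_of_isEmpty]
    exact Nat.zero_le _
  · have hu : IsUnit P₁.det := dens_unit h1 hG
    refine le_trans ?_ h4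
    refine Nat.card_le_card_of_injective
      (fun P => (⟨P₁⁻¹ * P.1.1, ?_, ?_⟩ : {R : Matrix (Fin n) (Fin n) κ //
        R * Γ1 * R.transpose = Γ1 ∧ R * Γ2 * R.transpose = Γ2})) ?_
    · rw [dens_trans, P.1.2]
      exact dens_cancel h1 hu
    · rw [dens_trans, P.2]
      exact dens_cancel h2 hu
    · intro P P' hPP
      have h3 : P₁⁻¹ * P.1.1 = P₁⁻¹ * P'.1.1 := congrArg Subtype.val hPP
      have h5 : P₁ * P₁⁻¹ = 1 := Matrix.mul_nonsing_inv P₁ hu
      have h6 : P.1.1 = P'.1.1 := by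
        rw [← Matrix.one_mul P.1.1, ← h5, Matrix.mul_assoc, h3, ← Matrix.mul_assoc, h5, Matrix.one_mul]
      exact Subtype.ext (Subtype.ext h6)

/-- the detected pencils with given `ρ`, `h` -/
private def DD (G1 : Matrix (Fin n) (Fin n) κ) (ρ : κ) (h : κ[X]) : Type :=
  {G2 : Matrix (Fin n) (Fin n) κ // (G2.transpose = G2 ∧ Det G1 G2) ∧
    pen G1 G2 = C G1.det * ((X - C ρ) * h)}

private theorem dens_DD_finite [Finite κ] (G1 : Matrix (Fin n) (Fin n) κ) (ρ : κ) (h : κ[X]) :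
    Finite (DD G1 ρ h) := by
  have hfin : Finite (Matrix (Fin n) (Fin n) κ) := dens_finite
  unfold DD
  infer_instance

end

private theorem dens_one {κ : Type} [Field κ] [Finite κ] (h2 : (2 : κ) ≠ 0) {g : ℕ} (hg : 1 ≤ g)
    (G1 : Matrix (Fin (2 * g + 1)) (Fin (2 * g + 1)) κ) (hs : G1.transpose = G1)
    (hd : G1.det ≠ 0) (ρ : κ) (h : κ[X]) (hm : h.Monic) (hi : Irreducible h) (hdeg : h.natDegree = 2 * g) :
    Nat.card (Matrix.GeneralLinearGroup (Fin (2 * g + 1)) κ) ≤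
      4 * Nat.card (DD G1 ρ h) * Nat.card κ ^ ((2 * g + 1) * (g + 1)) := by
  have hfin : Finite (Matrix (Fin (2 * g + 1)) (Fin (2 * g + 1)) κ) := dens_finite
  have hfD := dens_DD_finite G1 ρ h
  obtain ⟨Γ1, Γ2, s1, s2, hdet, hpen, hDet, h4⟩ := exists_model h2 hg ρ h hm hi hdeg G1.det hd
  obtain ⟨P₀, hu, hP₀⟩ := congr_of_det h2 Γ1 G1 s1 hs (by rw [hdet]; exact hd) ⟨1, one_ne_zero, by rw [hdet]; ring⟩
  have h5 := card_cong_ge Γ1 G1 P₀ s1 hu hP₀
  have h6 : (2 * g + 1) * (2 * g + 1 + 1) / 2 = (2 * g + 1) * (g + 1) := by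
    have : (2 * g + 1) * (2 * g + 1 + 1) = 2 * ((2 * g + 1) * (g + 1)) := by ring
    rw [this, Nat.mul_div_cancel_left _ (by norm_num)]
  rw [h6] at h5
  refine h5.trans (Nat.mul_le_mul_right _ ?_)
  refine dens_card_le (fun P : {P : Matrix (Fin (2 * g + 1)) (Fin (2 * g + 1)) κ // P * Γ1 * P.transpose = G1} =>
    (⟨P.1 * Γ2 * P.1.transpose, ⟨?_, ?_⟩, ?_⟩ : DD G1 ρ h)) 4 ?_
  · rw [Matrix.transpose_mul, Matrix.transpose_mul, Matrix.transpose_transpose, s2, Matrix.mul_assoc]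
  · have h7 := (det_congr_iff (dens_unit P.2 hd) Γ1 Γ2).mpr hDet
    rw [P.2] at h7
    exact h7
  · have h7 := pen_congr P.1 Γ1 Γ2
    rw [P.2] at h7
    rw [h7, hpen, ← mul_assoc, ← C_mul]
    congr 2
    have h8 : G1.det = P.1.det * Γ1.det * P.1.det := by
      conv_lhs => rw [← P.2]
      rw [Matrix.det_mul, Matrix.det_mul, Matrix.det_transpose]
    rw [hdet] at h8
    linear_combination (-1 : κ) * h8
  · intro G2
    refine le_trans (le_of_eq ?_) (dens_fibre hd h4 G2.1)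
    refine Nat.card_congr (Equiv.subtypeEquivRight fun P => ?_)
    exact Subtype.ext_iff

private theorem dens_inj {κ : Type} [Field κ] {g : ℕ} (hg : 1 ≤ g) {ρ ρ' : κ} {h h' : κ[X]}
    (hi : Irreducible h) (hdeg : h.natDegree = 2 * g) (he : (X - C ρ) * h = (X - C ρ') * h') :
    ρ = ρ' ∧ h = h' := by
  have h1 : ρ = ρ' := by
    have h2 := congrArg (eval ρ') he
    rw [eval_mul, eval_mul, eval_sub, eval_sub, eval_X, eval_C, eval_C, sub_self, zero_mul] at h2
    rcases mul_eq_zero.mp h2 with h3 | h3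
    · exact (sub_eq_zero.mp h3).symm
    · have h4 := degree_eq_one_of_irreducible_of_root hi h3
      have h5 : h.natDegree = 1 := natDegree_eq_of_degree_eq_some (n := 1) (by rw [h4]; rfl)
      omega
  subst h1
  exact ⟨rfl, mul_left_cancel₀ (X_sub_C_ne_zero ρ) he⟩

theorem dens {κ : Type} [Field κ] [Finite κ] (h2 : (2 : κ) ≠ 0) {g : ℕ} (hg : 1 ≤ g)
    (G1 : Matrix (Fin (2 * g + 1)) (Fin (2 * g + 1)) κ) (hs : G1.transpose = G1)
    (hd : G1.det ≠ 0) :
    Nat.card κ ^ ((2 * g + 1) * (g + 1)) ≤ 32 * g *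
      Nat.card {G2 : Matrix (Fin (2 * g + 1)) (Fin (2 * g + 1)) κ //
        G2.transpose = G2 ∧ Det G1 G2} := by
  classical
  have hfin : Finite (Matrix (Fin (2 * g + 1)) (Fin (2 * g + 1)) κ) := dens_finite
  have hQ : 3 ≤ Nat.card κ := by
    have h1 : 1 < Nat.card κ := Finite.one_lt_card
    by_contra hc
    have h3 : Nat.card κ = 2 := by omega
    have : Fintype κ := Fintype.ofFinite κ
    have h4 := FiniteField.cast_card_eq_zero κ
    rw [← Nat.card_eq_fintype_card, h3] at h4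
    exact h2 (by exact_mod_cast h4)
  set q := Nat.card κ with hq
  set H := {h : κ[X] // h.Monic ∧ Irreducible h ∧ h.natDegree = 2 * g} with hH
  set D := {G2 : Matrix (Fin (2 * g + 1)) (Fin (2 * g + 1)) κ // G2.transpose = G2 ∧ Det G1 G2} with hD
  have hirr : q ^ (2 * g) ≤ 2 * (2 * g) * Nat.card H := irr_card_ge hQ (2 * g) (by omega)
  have hHpos : 0 < Nat.card H := by
    by_contra hc
    have h1 : Nat.card H = 0 := by omega
    rw [h1, mul_zero] at hirr
    have : 0 < q ^ (2 * g) := pow_pos (by omega) _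
    omega
  have hHfin : Finite H := Nat.finite_of_card_ne_zero hHpos.ne'
  have hfI : Fintype (κ × H) := Fintype.ofFinite _
  have hfD : ∀ i : κ × H, Finite (DD G1 i.1 i.2.1) := fun i => dens_DD_finite _ _ _
  -- disjointness
  have hsum : ∑ i : κ × H, Nat.card (DD G1 i.1 i.2.1) ≤ Nat.card D := by
    rw [← Nat.card_sigma]
    refine Nat.card_le_card_of_injective
      (fun x : (Σ i : κ × H, DD G1 i.1 i.2.1) => (⟨x.2.1, x.2.2.1⟩ : D)) ?_
    rintro ⟨⟨ρ, h⟩, G2⟩ ⟨⟨ρ', h'⟩, G2'⟩ hxx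
    have h1 : G2.1 = G2'.1 := congrArg Subtype.val hxx
    have h3 : C G1.det * ((X - C ρ) * h.1) = C G1.det * ((X - C ρ') * h'.1) := by
      rw [← G2.2.2, ← G2'.2.2, h1]
    have h4 := mul_left_cancel₀ (C_ne_zero.mpr hd) h3
    obtain ⟨h5, h6⟩ := dens_inj hg h.2.2.1 h.2.2.2 h4
    obtain rfl : ρ = ρ' := h5
    obtain rfl : h = h' := Subtype.ext h6
    obtain rfl : G2 = G2' := Subtype.ext h1
    rfl
  have hGL : ∀ i : κ × H, Nat.card (Matrix.GeneralLinearGroup (Fin (2 * g + 1)) κ) ≤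
      4 * Nat.card (DD G1 i.1 i.2.1) * q ^ ((2 * g + 1) * (g + 1)) := fun i =>
    dens_one h2 hg G1 hs hd i.1 i.2.1 i.2.2.1 i.2.2.2.1 i.2.2.2.2
  have h7 : Nat.card (κ × H) * Nat.card (Matrix.GeneralLinearGroup (Fin (2 * g + 1)) κ) ≤
      4 * Nat.card D * q ^ ((2 * g + 1) * (g + 1)) := by
    have h8 : ∑ _i : κ × H, Nat.card (Matrix.GeneralLinearGroup (Fin (2 * g + 1)) κ) ≤
        ∑ i : κ × H, 4 * Nat.card (DD G1 i.1 i.2.1) * q ^ ((2 * g + 1) * (g + 1)) :=
      Finset.sum_le_sum fun i _ => hGL i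
    rw [Finset.sum_const, Finset.card_univ, smul_eq_mul, ← Nat.card_eq_fintype_card, ← Finset.sum_mul,
      ← Finset.mul_sum] at h8
    exact h8.trans (Nat.mul_le_mul_right _ (Nat.mul_le_mul_left _ hsum))
  rw [Nat.card_prod, ← hq] at h7
  have hgl := card_gl_ge hQ (2 * g + 1)
  rw [← hq] at hgl
  have hqpos : 0 < q := by omega
  have e1 : q ^ ((2 * g + 1) * (g + 1)) * q ^ ((2 * g + 1) * (g + 1)) = q * q ^ (2 * g) * q ^ ((2 * g + 1) ^ 2) := by
    rw [← pow_add, ← pow_succ', ← pow_add]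
    congr 1
    ring
  have h9 : q ^ ((2 * g + 1) * (g + 1)) * q ^ ((2 * g + 1) * (g + 1)) ≤
      (32 * g * Nat.card D) * q ^ ((2 * g + 1) * (g + 1)) := by
    rw [e1]
    calc q * q ^ (2 * g) * q ^ ((2 * g + 1) ^ 2)
        ≤ q * (2 * (2 * g) * Nat.card H) *
          (2 * Nat.card (Matrix.GeneralLinearGroup (Fin (2 * g + 1)) κ)) :=
          Nat.mul_le_mul (Nat.mul_le_mul_left _ hirr) hgl
      _ = 8 * g * (q * Nat.card H * Nat.card (Matrix.GeneralLinearGroup (Fin (2 * g + 1)) κ)) := by ring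
      _ ≤ 8 * g * (4 * Nat.card D * q ^ ((2 * g + 1) * (g + 1))) := Nat.mul_le_mul_left _ h7
      _ = (32 * g * Nat.card D) * q ^ ((2 * g + 1) * (g + 1)) := by ring
  exact Nat.le_of_mul_le_mul_right h9 (pow_pos hqpos _)

end Pool.Agent.HYP
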