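import Pool.Agent.Lib.HYP.C.Vec

/-!
Module C.Sym. Symmetric and lower unitriangular matrices: numbers.

A symmetric matrix is a function on the pairs `i ≤ j`: equivalence
`{G : Matrix (Fin n) (Fin n) S // G.transpose = G} ≃ ({p : Fin n × Fin n // p.1 ≤ p.2} → S)`,
and a lower unitriangular matrix is a function on the pairs `j < i`. The sums over the subtypes are
`sumLe`, `sumLt` (`Finset.sum_subtype`-like, `Finset.sum_filter`, `Fintype.sum_prod_type`), and
`Fintype.card {p : Fin n × Fin n // p.1 ≤ p.2} = n * (n + 1) / 2`. Then `card_vec`, `crt_vec`.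
-/

set_option autoImplicit false

open Polynomial

namespace Pool.Agent.HYP

variable {n : ℕ}

/-- the pairs `i ≤ j` -/
private abbrev SLe (n : ℕ) : Type := {p : Fin n × Fin n // p.1 ≤ p.2}

/-- the pairs `j < i` -/
private abbrev SLt (n : ℕ) : Type := {p : Fin n × Fin n // p.2 < p.1}

private theorem sum_sle (e : Fin n → Fin n → ℕ) : ∑ p : SLe n, e p.1.1 p.1.2 = sumLe e := by
  unfold sumLe
  rw [← Fintype.sum_prod_type' (f := fun i j => if i ≤ j then e i j else 0)]
  rw [← Finset.sum_filter (fun p : Fin n × Fin n => p.1 ≤ p.2) (fun p => e p.1 p.2)]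
  exact (Finset.sum_subtype _ (by simp) (fun p : Fin n × Fin n => e p.1 p.2)).symm

private theorem sum_slt (e : Fin n → Fin n → ℕ) : ∑ p : SLt n, e p.1.1 p.1.2 = sumLt e := by
  unfold sumLt
  rw [← Fintype.sum_prod_type' (f := fun i j => if j < i then e i j else 0)]
  rw [← Finset.sum_filter (fun p : Fin n × Fin n => p.2 < p.1) (fun p => e p.1 p.2)]
  exact (Finset.sum_subtype _ (by simp) (fun p : Fin n × Fin n => e p.1 p.2)).symm

private theorem sumLe_aux (n c : ℕ) :
    2 * sumLe (fun _ _ : Fin n => c) = c * (n * (n + 1)) := by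
  induction n with
  | zero => simp [sumLe]
  | succ n ih =>
    have h1 : sumLe (fun _ _ : Fin (n + 1) => c) = (n + 1) * c + sumLe (fun _ _ : Fin n => c) := by
      unfold sumLe
      rw [Fin.sum_univ_succ]
      congr 1
      · simp
      · refine Finset.sum_congr rfl fun i _ => ?_
        rw [Fin.sum_univ_succ]
        simp
    rw [h1, Nat.mul_add, ih]
    ring

theorem sumLe_const (c : ℕ) : sumLe (fun _ _ : Fin n => c) = c * (n * (n + 1) / 2) := by
  have h1 := sumLe_aux n c
  obtain ⟨t, ht⟩ := (Nat.even_mul_succ_self n).two_dvd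
  rw [ht] at h1 ⊢
  rw [Nat.mul_div_cancel_left _ (by norm_num)]
  have h2 : c * (2 * t) = 2 * (c * t) := by ring
  rw [h2] at h1
  exact Nat.eq_of_mul_eq_mul_left (by norm_num) h1

private theorem card_sle : Fintype.card (SLe n) = n * (n + 1) / 2 := by
  have h1 := sum_sle (n := n) (fun _ _ => 1)
  rw [sumLe_const, one_mul] at h1
  rw [← h1]
  simp

/-- the symmetric matrix of a function on the pairs -/
private def symMk {S : Type} (v : SLe n → S) : Matrix (Fin n) (Fin n) S :=
  fun i j => if h : i ≤ j then v ⟨(i, j), h⟩ else v ⟨(j, i), le_of_not_ge h⟩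

private theorem symMk_le {S : Type} (v : SLe n → S) {i j : Fin n} (h : i ≤ j) :
    symMk v i j = v ⟨(i, j), h⟩ := dif_pos h

private theorem symMk_symm {S : Type} (v : SLe n → S) (i j : Fin n) :
    symMk v i j = symMk v j i := by
  rcases lt_trichotomy i j with h | h | h
  · rw [symMk_le v h.le]
    unfold symMk
    rw [dif_neg (not_le.2 h)]
  · rw [h]
  · rw [symMk_le v h.le]
    unfold symMk
    rw [dif_neg (not_le.2 h)]

private theorem symMk_transpose {S : Type} (v : SLe n → S) :
    (symMk v).transpose = symMk v := by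
  funext i j
  exact symMk_symm v j i

private theorem symMk_of {S : Type} (G : Matrix (Fin n) (Fin n) S) (hG : G.transpose = G) :
    symMk (fun p : SLe n => G p.1.1 p.1.2) = G := by
  funext i j
  unfold symMk
  split_ifs with h
  · rfl
  · exact congrFun (congrFun hG i) j

private theorem symMk_map {S T : Type} (v : SLe n → S) (f : S → T) :
    (symMk v).map f = symMk (fun p => f (v p)) := by
  funext i j
  simp only [Matrix.map_apply, symMk]
  split_ifs <;> rfl

/-- symmetric matrices are functions on the pairs -/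
private def symEquiv {S : Type} (Q : Matrix (Fin n) (Fin n) S → Prop) :
    {G : Matrix (Fin n) (Fin n) S // G.transpose = G ∧ Q G} ≃ {v : SLe n → S // Q (symMk v)} where
  toFun G := ⟨fun p => G.1 p.1.1 p.1.2, by rw [symMk_of G.1 G.2.1]; exact G.2.2⟩
  invFun v := ⟨symMk v.1, symMk_transpose v.1, v.2⟩
  left_inv G := Subtype.ext (symMk_of G.1 G.2.1)
  right_inv v := by
    refine Subtype.ext (funext fun p => ?_)
    exact symMk_le v.1 p.2

theorem card_sym (F : Type) [CommRing F] [Finite F] :
    Nat.card {S : Matrix (Fin n) (Fin n) F // S.transpose = S} = Nat.card F ^ (n * (n + 1) / 2) := by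
  have h1 : Nat.card {S : Matrix (Fin n) (Fin n) F // S.transpose = S} =
      Nat.card {S : Matrix (Fin n) (Fin n) F // S.transpose = S ∧ True} :=
    Nat.card_congr (Equiv.subtypeEquivRight fun S => by simp)
  have h2 : Nat.card {v : SLe n → F // True} = Nat.card (SLe n → F) :=
    Nat.card_congr (Equiv.subtypeUnivEquiv fun _ => trivial)
  rw [h1, Nat.card_congr (symEquiv fun _ => True), h2, Nat.card_fun, Nat.card_eq_fintype_card
    (α := SLe n), card_sle]

variable {k : Type} [Field k]

/-- lower unitriangular, with bounded degrees -/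
structure Uni {n : ℕ} (e : Fin n → Fin n → ℕ) (h : Matrix (Fin n) (Fin n) k[X]) : Prop where
  diag : ∀ i, h i i = 1
  up : ∀ i j, i < j → h i j = 0
  low : ∀ i j, j < i → (h i j).degree < e i j

theorem finite_symm [Finite k] (e : Fin n → Fin n → ℕ) :
    Finite {G : Matrix (Fin n) (Fin n) k[X] // G.transpose = G ∧ ∀ i j, (G i j).degree < e i j} := by
  have := finite_vec (k := k) (fun p : SLe n => e p.1.1 p.1.2)
  refine Finite.of_injective
    (β := {v : SLe n → k[X] // ∀ p, (v p).degree < (e p.1.1 p.1.2 : ℕ)})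
    (fun G => ⟨fun p => G.1 p.1.1 p.1.2, fun p => G.2.2 _ _⟩) ?_
  intro G H h
  refine Subtype.ext ?_
  rw [← symMk_of G.1 G.2.1, ← symMk_of H.1 H.2.1]
  exact congrArg symMk (congrArg Subtype.val h)

private theorem symMk_deg (e : Fin n → Fin n → ℕ) (he : ∀ i j, e i j = e j i)
    (v : SLe n → k[X]) :
    (∀ i j, (symMk v i j).degree < e i j) ↔ ∀ p : SLe n, (v p).degree < (e p.1.1 p.1.2 : ℕ) := by
  constructor
  · intro h p
    have := h p.1.1 p.1.2
    rwa [symMk_le v p.2] at this
  · intro h i j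
    rcases le_total i j with hij | hij
    · rw [symMk_le v hij]
      exact h ⟨(i, j), hij⟩
    · rw [symMk_symm, symMk_le v hij, he i j]
      exact h ⟨(j, i), hij⟩

theorem card_symm [Finite k] (e : Fin n → Fin n → ℕ) (he : ∀ i j, e i j = e j i) :
    Nat.card {G : Matrix (Fin n) (Fin n) k[X] // G.transpose = G ∧ ∀ i j, (G i j).degree < e i j} =
      Nat.card k ^ sumLe e := by
  rw [Nat.card_congr (symEquiv fun G : Matrix (Fin n) (Fin n) k[X] =>
      ∀ i j, (G i j).degree < e i j),
    Nat.card_congr (Equiv.subtypeEquivRight fun v => symMk_deg e he v), ← sum_sle e]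
  exact card_vec (k := k) (fun p : SLe n => e p.1.1 p.1.2)

/-- the unitriangular matrix of a function on the pairs -/
private noncomputable def uniMk (v : SLt n → k[X]) : Matrix (Fin n) (Fin n) k[X] :=
  fun i j => if h : j < i then v ⟨(i, j), h⟩ else if i = j then 1 else 0

private theorem uniMk_lt (v : SLt n → k[X]) {i j : Fin n} (h : j < i) :
    uniMk v i j = v ⟨(i, j), h⟩ := dif_pos h

private theorem uniMk_of (e : Fin n → Fin n → ℕ) (h : Matrix (Fin n) (Fin n) k[X])
    (hh : Uni e h) : uniMk (fun p : SLt n => h p.1.1 p.1.2) = h := by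
  funext i j
  rcases lt_trichotomy i j with hij | hij | hij
  · rw [hh.up i j hij]
    unfold uniMk
    rw [dif_neg (not_lt.2 hij.le), if_neg hij.ne]
  · subst hij
    rw [hh.diag i]
    unfold uniMk
    rw [dif_neg (lt_irrefl _), if_pos rfl]
  · rw [uniMk_lt _ hij]

private theorem uniMk_uni (e : Fin n → Fin n → ℕ) (v : SLt n → k[X])
    (hv : ∀ p : SLt n, (v p).degree < (e p.1.1 p.1.2 : ℕ)) : Uni e (uniMk v) where
  diag i := by
    unfold uniMk
    rw [dif_neg (lt_irrefl _), if_pos rfl]
  up i j hij := by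
    unfold uniMk
    rw [dif_neg (not_lt.2 hij.le), if_neg hij.ne]
  low i j hij := by
    rw [uniMk_lt v hij]
    exact hv ⟨(i, j), hij⟩

private noncomputable def uniEquiv (e : Fin n → Fin n → ℕ) :
    {h : Matrix (Fin n) (Fin n) k[X] // Uni e h} ≃
      {v : SLt n → k[X] // ∀ p, (v p).degree < (e p.1.1 p.1.2 : ℕ)} where
  toFun h := ⟨fun p => h.1 p.1.1 p.1.2, fun p => h.2.low _ _ p.2⟩
  invFun v := ⟨uniMk v.1, uniMk_uni e v.1 v.2⟩
  left_inv h := Subtype.ext (uniMk_of e h.1 h.2)
  right_inv v := by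
    refine Subtype.ext (funext fun p => ?_)
    exact uniMk_lt v.1 p.2

theorem finite_uni [Finite k] (e : Fin n → Fin n → ℕ) :
    Finite {h : Matrix (Fin n) (Fin n) k[X] // Uni e h} := by
  have := finite_vec (k := k) (fun p : SLt n => e p.1.1 p.1.2)
  exact Finite.of_equiv _ (uniEquiv e).symm

theorem card_uni [Finite k] (e : Fin n → Fin n → ℕ) :
    Nat.card {h : Matrix (Fin n) (Fin n) k[X] // Uni e h} = Nat.card k ^ sumLt e := by
  rw [Nat.card_congr (uniEquiv e), ← sum_slt e]
  exact card_vec (k := k) (fun p : SLt n => e p.1.1 p.1.2)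

theorem crt_symm [Finite k] (V : Finset k[X]) (hV : ∀ π ∈ V, π.Monic ∧ Irreducible π)
    (P : ∀ π : k[X], Matrix (Fin n) (Fin n) (AdjoinRoot π) → Prop) (a b : ℕ)
    (hP : ∀ π ∈ V, b * Nat.card {S : Matrix (Fin n) (Fin n) (AdjoinRoot π) //
      S.transpose = S ∧ P π S} ≤ a * Nat.card k ^ (π.natDegree * (n * (n + 1) / 2)))
    (e : Fin n → Fin n → ℕ) (hs : ∀ i j, e i j = e j i)
    (he : ∀ i j, (∏ π ∈ V, π).natDegree ≤ e i j) :
    b ^ V.card * Nat.card {G : Matrix (Fin n) (Fin n) k[X] // G.transpose = G ∧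
      (∀ i j, (G i j).degree < e i j) ∧ ∀ π ∈ V, P π (G.map (AdjoinRoot.mk π))} ≤
      a ^ V.card * Nat.card k ^ sumLe e := by
  have h1 := crt_vec (k := k) (ι := SLe n) V hV (fun π v => P π (symMk v)) a b
    (fun π hπ => by
      rw [card_sle, ← Nat.card_congr (symEquiv fun S => P π S)]
      exact hP π hπ)
    (fun p => e p.1.1 p.1.2) (fun p => he _ _)
  rw [sum_sle] at h1
  rw [Nat.card_congr (symEquiv fun G : Matrix (Fin n) (Fin n) k[X] =>
      (∀ i j, (G i j).degree < e i j) ∧ ∀ π ∈ V, P π (G.map (AdjoinRoot.mk π))),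
    Nat.card_congr (Equiv.subtypeEquivRight (q := fun v : SLe n → k[X] =>
      (∀ p, (v p).degree < (e p.1.1 p.1.2 : ℕ)) ∧
        ∀ π ∈ V, P π (symMk fun p => AdjoinRoot.mk π (v p))) fun v => by
      rw [symMk_deg e hs v]
      refine and_congr_right fun _ => ?_
      refine forall_congr' fun π => ?_
      refine imp_congr_right fun _ => ?_
      rw [symMk_map])]
  exact h1

end Pool.Agent.HYP
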