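import Mathlib

/-!
Module C.Sum (pure real numbers). The sum over the types.

* `sum_types`: `T ⊆ Fintype.piFinset (fun _ => Finset.range B)` for `B` large,
  `x ^ ∑ r b = ∏ x ^ r b`, `Finset.prod_univ_sum`, and `∑_{j < B} x ^ j ≤ 1 / (1 - x)`.
* `sum_split`: for `r ∈ T`, with `s = ∑ b, r b`: `N ^ g q ^ s ≤ K ^ g` and `y ^ (2 g) q = 1` give
  `N ^ g ≤ (K y ^ (2 s)) ^ g`, so `N ≤ K y ^ (2 s)` (`pow_le_pow_left₀` / `lt_of_pow_lt_pow_left₀`).
  If all `r b ≤ M` then in the same way `N ≤ δ K y ^ (2 s) ≤ δ K y ^ s`; otherwise `s ≥ M`, so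
  `N ≤ K y ^ (2 s) ≤ K y ^ M y ^ s`. In both cases `N ≤ K (δ + y ^ M) y ^ s`; then `sum_types`.
-/

set_option autoImplicit false

namespace Pool.Agent.HYP

theorem sum_types (g : ℕ) {x : ℝ} (h0 : 0 ≤ x) (h1 : x < 1) (T : Finset (Fin g → ℕ)) :
    ∑ r ∈ T, x ^ (∑ b, r b) ≤ (1 / (1 - x)) ^ g := by
  obtain ⟨B, hB⟩ : ∃ B : ℕ, ∀ r ∈ T, ∀ b, r b < B := by
    refine ⟨∑ r ∈ T, ∑ b, r b + 1, fun r hr b => Nat.lt_succ_of_le ?_⟩
    have e1 : r b ≤ ∑ b, r b := Finset.single_le_sum (fun _ _ => Nat.zero_le _) (Finset.mem_univ b)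
    have e2 : ∑ b, r b ≤ ∑ r ∈ T, ∑ b, r b :=
      Finset.single_le_sum (f := fun r : Fin g → ℕ => ∑ b, r b) (fun _ _ => Nat.zero_le _) hr
    exact e1.trans e2
  have hsub : T ⊆ Fintype.piFinset (fun _ : Fin g => Finset.range B) := by
    intro r hr
    rw [Fintype.mem_piFinset]
    intro b
    exact Finset.mem_range.2 (hB r hr b)
  calc ∑ r ∈ T, x ^ (∑ b, r b)
      ≤ ∑ r ∈ Fintype.piFinset (fun _ : Fin g => Finset.range B), x ^ (∑ b, r b) :=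
        Finset.sum_le_sum_of_subset_of_nonneg hsub fun _ _ _ => pow_nonneg h0 _
    _ = ∑ r ∈ Fintype.piFinset (fun _ : Fin g => Finset.range B), ∏ b, x ^ r b := by
        refine Finset.sum_congr rfl fun r _ => ?_
        rw [Finset.prod_pow_eq_pow_sum]
    _ = ∏ _b : Fin g, ∑ j ∈ Finset.range B, x ^ j := by
        rw [Finset.prod_univ_sum]
    _ = (∑ j ∈ Finset.range B, x ^ j) ^ g := by
        rw [Finset.prod_const, Finset.card_univ, Fintype.card_fin]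
    _ ≤ (1 / (1 - x)) ^ g := by
        refine pow_le_pow_left₀ (Finset.sum_nonneg fun _ _ => pow_nonneg h0 _) ?_ g
        rw [le_div_iff₀ (by linarith), geom_sum_mul_neg]
        have := pow_nonneg h0 B
        linarith

private theorem one_le {g : ℕ} (hg : 1 ≤ g) {q y : ℝ} (hy0 : 0 < y)
    (hy : y ^ (2 * g) * q = 1) {n K : ℝ} (s : ℕ) (hn : 0 ≤ n) (hK : 0 ≤ K)
    (h1 : n ^ g * q ^ s ≤ K ^ g) : n ≤ K * y ^ (2 * s) := by
  refine (pow_le_pow_iff_left₀ hn (by positivity) (by omega : g ≠ 0)).1 ?_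
  calc n ^ g = n ^ g * (y ^ (2 * g) * q) ^ s := by rw [hy, one_pow, mul_one]
    _ = (n ^ g * q ^ s) * (y ^ (2 * g)) ^ s := by rw [mul_pow]; ring
    _ ≤ K ^ g * (y ^ (2 * g)) ^ s := mul_le_mul_of_nonneg_right h1 (by positivity)
    _ = (K * y ^ (2 * s)) ^ g := by
        rw [mul_pow, ← pow_mul, ← pow_mul]
        congr 2
        ring

theorem sum_split {g : ℕ} (hg : 1 ≤ g) {q y : ℝ} (hq : 0 < q) (hy0 : 0 < y) (hy1 : y < 1)
    (hy : y ^ (2 * g) * q = 1) (T : Finset (Fin g → ℕ)) (N : (Fin g → ℕ) → ℝ) {K δ : ℝ} (M : ℕ)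
    (hN : ∀ r ∈ T, 0 ≤ N r) (hK : 0 ≤ K) (hδ : 0 ≤ δ)
    (h1 : ∀ r ∈ T, N r ^ g * q ^ (∑ b, r b) ≤ K ^ g)
    (h2 : ∀ r ∈ T, (∀ b, r b ≤ M) → N r ^ g * q ^ (∑ b, r b) ≤ (δ * K) ^ g) :
    ∑ r ∈ T, N r ≤ K * (δ + y ^ M) * (1 / (1 - y)) ^ g := by
  have hterm : ∀ r ∈ T, N r ≤ K * (δ + y ^ M) * y ^ (∑ b, r b) := by
    intro r hr
    set s := ∑ b, r b with hs
    have hys : 0 ≤ y ^ s := by positivity
    have hyM : 0 ≤ y ^ M := by positivity
    have hys1 : y ^ s ≤ 1 := pow_le_one₀ hy0.le hy1.le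
    have e2 : y ^ (2 * s) = y ^ s * y ^ s := by rw [two_mul, pow_add]
    by_cases hM : ∀ b, r b ≤ M
    · have e1 := one_le hg hy0 hy s (hN r hr) (mul_nonneg hδ hK) (h2 r hr hM)
      rw [e2] at e1
      calc N r ≤ δ * K * (y ^ s * y ^ s) := e1
        _ ≤ δ * K * (y ^ s * 1) := by gcongr
        _ ≤ K * (δ + y ^ M) * y ^ s := by
            have : 0 ≤ K * y ^ M * y ^ s := by positivity
            nlinarith
    · push Not at hM
      obtain ⟨b, hb⟩ := hM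
      have hsM : M ≤ s := by
        have : r b ≤ s := Finset.single_le_sum (fun _ _ => Nat.zero_le _) (Finset.mem_univ b)
        omega
      have e1 := one_le hg hy0 hy s (hN r hr) hK (h1 r hr)
      rw [e2] at e1
      have e3 : y ^ s ≤ y ^ M := pow_le_pow_of_le_one hy0.le hy1.le hsM
      calc N r ≤ K * (y ^ s * y ^ s) := e1
        _ ≤ K * (y ^ M * y ^ s) := by gcongr
        _ ≤ K * (δ + y ^ M) * y ^ s := by
            have : 0 ≤ K * δ * y ^ s := by positivity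
            nlinarith
  calc ∑ r ∈ T, N r ≤ ∑ r ∈ T, K * (δ + y ^ M) * y ^ (∑ b, r b) := Finset.sum_le_sum hterm
    _ = K * (δ + y ^ M) * ∑ r ∈ T, y ^ (∑ b, r b) := by rw [Finset.mul_sum]
    _ ≤ K * (δ + y ^ M) * (1 / (1 - y)) ^ g := by
        refine mul_le_mul_of_nonneg_left (sum_types g hy0.le hy1 T) ?_
        positivity

end Pool.Agent.HYP
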