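import Pool.Agent.Lib.HYP.C.RepCard
import Pool.Agent.Lib.HYP.C.Sum

/-!
Module C.Total. All types together: at most a quarter of `q ^ (m (4 g ^ 2 + 6 g))` polynomials of the
family are represented by a pair which is undetected at all the primes of `V`.

`extT r` extends `r : Fin g → ℕ` to a type; every type is of this form (`extT_surj`:
`Typ.zero`, `Typ.top`). `card_le_sum`: the set injects into the sigma type over the finite set `T` of the
types (`typ_le`: `r b ≤ 2 g m`), `finite_rep`.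
`total`: `q = Nat.card k ≥ 3`, `y = q ^ (-1 / (2 g))` (`Real.rpow`), `S = (1 / (1 - y)) ^ g`,
`C₀ = q ^ ((2 g + 1) (g + 2))`, `δ = ((32 g - 1) / (32 g)) ^ V.card`. Choose `N` with
`C₀ δ₁ ^ N S ≤ 1/8` (`δ₁ = (32 g - 1) / (32 g) < 1`), given `V` put `s = deg ∏ V` and choose
`m₀ ≥ s` with `C₀ y ^ (m₀ - s) S ≤ 1/8`. For `m ≥ m₀` use `sum_split` with
`K = C₀ q ^ (m (4 g ^ 2 + 6 g))`, `M = m - s` (`r b ≤ m - s` for all `b` gives
`2 r g + s ≤ 2 m`), `card_rep_le`, `card_rep_undet_le` (divide by `(32 g) ^ V.card`).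
-/

set_option autoImplicit false

open Polynomial

namespace Pool.Agent.HYP

/-- the type with the values `r 0, …, r (g - 1)` at `1, …, g` -/
def extT {g : ℕ} (r : Fin g → ℕ) (j : ℕ) : ℕ :=
  if h : 1 ≤ j ∧ j ≤ g then r ⟨j - 1, by omega⟩ else 0

theorem extT_surj {g m : ℕ} {r : ℕ → ℕ} (h : Typ g m r) :
    r = extT (fun b : Fin g => r (b.val + 1)) := by
  funext j
  unfold extT
  split_ifs with hj
  · congr 1
    simp only
    omega
  · by_cases h0 : j = 0
    · rw [h0]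
      exact h.zero
    · exact h.top j (by omega)

theorem sum_extT {g : ℕ} (r : Fin g → ℕ) : ∑ b ∈ Finset.Icc 1 g, extT r b = ∑ b, r b := by
  have h1 : ∑ b, r b = ∑ b : Fin g, extT r (b.val + 1) := by
    refine Finset.sum_congr rfl fun b _ => ?_
    unfold extT
    rw [dif_pos ⟨by omega, by omega⟩]
    rfl
  rw [h1, ← Finset.sum_range (fun j => extT r (j + 1)), Finset.range_eq_Ico,
    Finset.sum_Ico_add' (fun j => extT r j) 0 g 1]
  refine Finset.sum_congr ?_ fun _ _ => rfl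
  ext j
  simp only [Finset.mem_Icc, Finset.mem_Ico]
  omega

private theorem typ_bd {g m : ℕ} {r : ℕ → ℕ} (h : Typ g m r) : ∀ j ≤ g, r j ≤ 2 * m * j := by
  intro j
  induction j with
  | zero => intro _; rw [h.zero]; exact Nat.zero_le _
  | succ j ih =>
    intro hj
    rcases Nat.eq_zero_or_pos j with h0 | h0
    · subst h0
      have := h.one
      simp only [zero_add, mul_one]
      omega
    · have h1 := h.step j h0 (by omega)
      have h2 := ih (by omega)
      rw [mul_add, mul_one]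
      omega

theorem finite_types (g m : ℕ) : {r : Fin g → ℕ | Typ g m (extT r)}.Finite := by
  refine Set.Finite.subset (Finset.finite_toSet
    (Fintype.piFinset (fun _ : Fin g => Finset.range (2 * m * g + 1)))) ?_
  intro r hr
  rw [Finset.mem_coe, Fintype.mem_piFinset]
  intro b
  rw [Finset.mem_range]
  have h1 := typ_bd hr (b.val + 1) (by omega)
  have h2 : extT r (b.val + 1) = r b := by
    unfold extT
    rw [dif_pos ⟨by omega, by omega⟩]
    rfl
  rw [h2] at h1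
  have h3 : 2 * m * (b.val + 1) ≤ 2 * m * g := Nat.mul_le_mul_left _ (by omega)
  omega

variable {k : Type} [Field k]

theorem card_le_sum [Finite k] {g m : ℕ} (hg : 1 ≤ g) (hn : ((2 * g + 1 : ℕ) : k) ≠ 0) {φ : k[X]}
    (V : Finset k[X]) (hi : ∀ f : k[X][X], Fam g m φ f → Irreducible (fK f)) :
    Nat.card {f : k[X][X] // Fam g m φ f ∧ ∃ r, Typ g m r ∧ RepV g m V r f} ≤
      ∑ r ∈ (finite_types g m).toFinset,
        Nat.card {f : k[X][X] // Fam g m φ f ∧ RepV g m V (extT r) f} := by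
  have hfin : ∀ r : (finite_types g m).toFinset,
      Finite {f : k[X][X] // Fam g m φ f ∧ RepV g m V (extT r.1) f} := fun r =>
    finite_rep hg hn V hi ((finite_types g m).mem_toFinset.1 r.2)
  have hmem : ∀ r : ℕ → ℕ, Typ g m r →
      (fun b : Fin g => r (b.val + 1)) ∈ (finite_types g m).toFinset := by
    intro r hr
    rw [Set.Finite.mem_toFinset]
    change Typ g m (extT fun b : Fin g => r (b.val + 1))
    rw [← extT_surj hr]
    exact hr
  let F : {f : k[X][X] // Fam g m φ f ∧ ∃ r, Typ g m r ∧ RepV g m V r f} →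
      (Σ r : (finite_types g m).toFinset,
        {f : k[X][X] // Fam g m φ f ∧ RepV g m V (extT r.1) f}) := fun x =>
    ⟨⟨fun b : Fin g => x.2.2.choose (b.val + 1), hmem _ x.2.2.choose_spec.1⟩,
      ⟨x.1, x.2.1, by
        rw [← extT_surj x.2.2.choose_spec.1]
        exact x.2.2.choose_spec.2⟩⟩
  have hF : Function.Injective F := by
    intro x x' h
    have h1 : (F x).2.1 = (F x').2.1 := by rw [h]
    exact Subtype.ext h1
  have h1 := Nat.card_le_card_of_injective F hF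
  rw [Nat.card_sigma] at h1
  refine h1.trans (le_of_eq ?_)
  exact Finset.sum_coe_sort (finite_types g m).toFinset
    (fun r => Nat.card {f : k[X][X] // Fam g m φ f ∧ RepV g m V (extT r) f})

theorem total [Finite k] {g : ℕ} (h2 : (2 : k) ≠ 0) (hg : 1 ≤ g)
    (hn : ((2 * g + 1 : ℕ) : k) ≠ 0) : ∃ N : ℕ, ∀ V : Finset k[X],
      (∀ π ∈ V, π.Monic ∧ Irreducible π) → N ≤ V.card → ∃ m₀ : ℕ, ∀ m ≥ m₀, ∀ φ : k[X],
        (∀ f : k[X][X], Fam g m φ f → Irreducible (fK f)) →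
        4 * Nat.card {f : k[X][X] // Fam g m φ f ∧ ∃ r, Typ g m r ∧ RepV g m V r f} ≤
          Nat.card k ^ (m * (4 * g ^ 2 + 6 * g)) := by
  have hq1 : 1 < Nat.card k := Finite.one_lt_card
  obtain ⟨q, hq⟩ : ∃ q : ℝ, q = (Nat.card k : ℝ) := ⟨_, rfl⟩
  have hq1' : 1 < q := by rw [hq]; exact_mod_cast hq1
  have hq0 : 0 < q := by linarith
  have hg0 : (0 : ℝ) < g := by exact_mod_cast hg
  obtain ⟨y, hydef⟩ : ∃ y : ℝ, y = q ^ (-(1 / (2 * (g : ℝ)))) := ⟨_, rfl⟩
  have hy0 : 0 < y := by rw [hydef]; exact Real.rpow_pos_of_pos hq0 _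
  have hy1 : y < 1 := by
    rw [hydef]
    exact Real.rpow_lt_one_of_one_lt_of_neg hq1' (by
      have : 0 < 1 / (2 * (g : ℝ)) := by positivity
      linarith)
  have hy : y ^ (2 * g) * q = 1 := by
    rw [hydef, ← Real.rpow_natCast, ← Real.rpow_mul hq0.le]
    have : -(1 / (2 * (g : ℝ))) * ((2 * g : ℕ) : ℝ) = -1 := by
      push_cast
      field_simp
    rw [this, Real.rpow_neg_one]
    exact inv_mul_cancel₀ hq0.ne'
  obtain ⟨S, hS⟩ : ∃ S : ℝ, S = (1 / (1 - y)) ^ g := ⟨_, rfl⟩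
  have hS0 : 0 < S := by
    rw [hS]
    have : 0 < 1 - y := by linarith
    positivity
  obtain ⟨C₀, hC₀⟩ : ∃ C₀ : ℝ, C₀ = q ^ ((2 * g + 1) * (g + 2)) := ⟨_, rfl⟩
  have hC0 : 0 < C₀ := by rw [hC₀]; positivity
  obtain ⟨a, ha⟩ : ∃ a : ℝ, a = ((32 * g - 1 : ℕ) : ℝ) := ⟨_, rfl⟩
  obtain ⟨b, hb⟩ : ∃ b : ℝ, b = ((32 * g : ℕ) : ℝ) := ⟨_, rfl⟩
  have ha0 : 0 ≤ a := by rw [ha]; exact Nat.cast_nonneg _
  have hb0 : 0 < b := by rw [hb]; exact_mod_cast (by omega : 0 < 32 * g)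
  have hab : a < b := by rw [ha, hb]; exact_mod_cast (by omega : 32 * g - 1 < 32 * g)
  have hab0 : 0 ≤ a / b := div_nonneg ha0 hb0.le
  have hab1 : a / b < 1 := (div_lt_one hb0).2 hab
  have hx : 0 < 1 / (8 * C₀ * S) := by positivity
  obtain ⟨N, hN⟩ := exists_pow_lt_of_lt_one hx hab1
  obtain ⟨M₀, hM₀⟩ := exists_pow_lt_of_lt_one hx hy1
  refine ⟨N, fun V hV hNV => ⟨(∏ π ∈ V, π).natDegree + M₀, fun m hm φ hi => ?_⟩⟩
  obtain ⟨s, hs⟩ : ∃ s : ℕ, s = (∏ π ∈ V, π).natDegree := ⟨_, rfl⟩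
  rw [← hs] at hm
  obtain ⟨K, hK⟩ : ∃ K : ℝ, K = q ^ ((2 * g + 1) * (g + 2) + m * (4 * g ^ 2 + 6 * g)) := ⟨_, rfl⟩
  have hK0 : 0 < K := by rw [hK]; positivity
  have hKC : K = C₀ * q ^ (m * (4 * g ^ 2 + 6 * g)) := by rw [hK, hC₀, pow_add]
  obtain ⟨δ, hδ⟩ : ∃ δ : ℝ, δ = (a / b) ^ V.card := ⟨_, rfl⟩
  have hδ0 : 0 ≤ δ := by rw [hδ]; positivity
  have hmain := sum_split hg hq0 hy0 hy1 hy (finite_types g m).toFinset
    (fun r => (Nat.card {f : k[X][X] // Fam g m φ f ∧ RepV g m V (extT r) f} : ℝ)) (K := K)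
    (δ := δ) (m - s) (fun r _ => Nat.cast_nonneg _) hK0.le hδ0 ?_ ?_
  · have h1 : (Nat.card {f : k[X][X] // Fam g m φ f ∧ ∃ r, Typ g m r ∧ RepV g m V r f} : ℝ) ≤
        K * (δ + y ^ (m - s)) * (1 / (1 - y)) ^ g := by
      refine le_trans ?_ hmain
      exact_mod_cast card_le_sum hg hn V hi
    have h2' : C₀ * S * δ ≤ 1 / 8 := by
      have h3 : δ ≤ (a / b) ^ N := by
        rw [hδ]
        exact pow_le_pow_of_le_one hab0 hab1.le hNV
      have h4 : δ ≤ 1 / (8 * C₀ * S) := h3.trans hN.le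
      calc C₀ * S * δ ≤ C₀ * S * (1 / (8 * C₀ * S)) :=
            mul_le_mul_of_nonneg_left h4 (by positivity)
        _ = 1 / 8 := by field_simp
    have h3' : C₀ * S * y ^ (m - s) ≤ 1 / 8 := by
      have h3 : y ^ (m - s) ≤ y ^ M₀ := pow_le_pow_of_le_one hy0.le hy1.le (by omega)
      have h4 : y ^ (m - s) ≤ 1 / (8 * C₀ * S) := h3.trans hM₀.le
      calc C₀ * S * y ^ (m - s) ≤ C₀ * S * (1 / (8 * C₀ * S)) :=
            mul_le_mul_of_nonneg_left h4 (by positivity)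
        _ = 1 / 8 := by field_simp
    have h5 : 4 * (Nat.card {f : k[X][X] // Fam g m φ f ∧ ∃ r, Typ g m r ∧ RepV g m V r f} : ℝ) ≤
        q ^ (m * (4 * g ^ 2 + 6 * g)) := by
      have hQ : 0 < q ^ (m * (4 * g ^ 2 + 6 * g)) := by positivity
      calc 4 * (Nat.card {f : k[X][X] // Fam g m φ f ∧ ∃ r, Typ g m r ∧ RepV g m V r f} : ℝ)
          ≤ 4 * (K * (δ + y ^ (m - s)) * (1 / (1 - y)) ^ g) := by linarith
        _ = 4 * (C₀ * S * δ + C₀ * S * y ^ (m - s)) * q ^ (m * (4 * g ^ 2 + 6 * g)) := by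
            rw [← hS, hKC]; ring
        _ ≤ 4 * (1 / 8 + 1 / 8) * q ^ (m * (4 * g ^ 2 + 6 * g)) := by
            refine mul_le_mul_of_nonneg_right ?_ hQ.le
            linarith
        _ = q ^ (m * (4 * g ^ 2 + 6 * g)) := by ring
    rw [hq] at h5
    exact_mod_cast h5
  · intro r hr
    have hr' : Typ g m (extT r) := (finite_types g m).mem_toFinset.1 hr
    have h1 := card_rep_le hg hn V hi hr'
    rw [sum_extT] at h1
    rw [hK, hq]
    exact_mod_cast h1
  · intro r hr hrM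
    have hr' : Typ g m (extT r) := (finite_types g m).mem_toFinset.1 hr
    have h0 : 2 * extT r g + (∏ π ∈ V, π).natDegree ≤ 2 * m := by
      have : extT r g ≤ m - s := by
        unfold extT
        rw [dif_pos ⟨hg, le_rfl⟩]
        exact hrM _
      rw [← hs]
      omega
    have h1 := card_rep_undet_le h2 hg hn V hV hi hr' h0
    rw [sum_extT] at h1
    have h3 : (b ^ V.card * (Nat.card {f : k[X][X] // Fam g m φ f ∧ RepV g m V (extT r) f} : ℝ))
        ^ g * q ^ (∑ c, r c) ≤ (a ^ V.card * K) ^ g := by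
      rw [ha, hb, hK, hq]
      exact_mod_cast h1
    have h4 : δ * K = (a ^ V.card * K) / b ^ V.card := by
      rw [hδ, div_pow]
      field_simp
    have hbV : 0 < b ^ V.card := by positivity
    rw [h4, div_pow, le_div_iff₀ (by positivity)]
    calc _ = (b ^ V.card * (Nat.card {f : k[X][X] // Fam g m φ f ∧
            RepV g m V (extT r) f} : ℝ)) ^ g * q ^ (∑ c, r c) := by
          rw [mul_pow (b ^ V.card)]; ring
      _ ≤ (a ^ V.card * K) ^ g := h3

end Pool.Agent.HYP
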