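import Pool.Agent.Lib.HYP.C.Inv
import Pool.Agent.Lib.HYP.C.Sym
import Pool.Agent.Lib.HYP.C.Comm

/-!
Module C.Act. The action of `(h, s)`, `h` lower unitriangular, `s` a polynomial of degree
`< 2 m`: `(G1, G2) ↦ (h G1 hᵀ, h G2 hᵀ - s h G1 hᵀ)`.

* `uni_det`: `Matrix.det_of_isLowerTriangular`.
* `act_degP`: `deg (h i a) ≤ ν i - ν a` for `a ≤ i` (else `0`), `deg (G1 a b) ≤ ν a + ν b`, so each
  summand of `(h G1 hᵀ) i j` has degree at most `ν i + ν j` or is zero; the same for `G2` with
  `2 m` more, and `deg s < 2 m`. (Integers: use a predicate `DegLe (f : k[X]) (d : ℤ) :=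
  f ≠ 0 → (f.natDegree : ℤ) ≤ d` with lemmas for sums, products.) `det (h G1 hᵀ) = det G1`.
* `act_pen`: `pen_congr`, `pen_shift`.
* `act_undet`: modulo `π`: `Matrix.map_mul`, `det_congr_iff`, `det_shift_iff`.
* `act_inj₁`: the determinants of the two pencils: `det G1 f(x + s) = det G1' f'(x + s')` and
  `det G1 = det (h G1 hᵀ) = det G1'` is nonzero, so `f(x + s) = f'(x + s')`; the coefficient of
  `x ^ (2 g)` of the left side is `(2 g + 1) s` (`f` monic of degree `2 g + 1` with
  `f.coeff (2 g) = 0`; e.g. via `Polynomial.taylor`), so `s = s'`, and `f = f'` (compose with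
  `X - C s`).
* `act_inj₂`: `R = h'⁻¹ h` (`h'` is invertible over `k[X]`, `det = 1`) is a product of lower unitriangular
  matrices, so `R - 1` is nilpotent (strictly lower triangular: `Matrix.charpoly`-like or
  `(R - 1) ^ n = 0` by induction; or: the characteristic polynomial of `R` is `(x - 1) ^ n`,
  Cayley-Hamilton). Over `RatFunc k`: `R G1 Rᵀ = G1`, `R G2 Rᵀ = G2`, so `R` commutes with
  `M = G2 G1⁻¹`, whose characteristic polynomial is `fK f` (`pen G1 G2 = C G1.det * f`), irreducible:
  `unipotent_eq_one`. So `R = 1`.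
-/

set_option autoImplicit false

open Polynomial

namespace Pool.Agent.HYP

variable {k : Type} [Field k] {g m : ℕ} {r : ℕ → ℕ}

private def DL (f : k[X]) (d : ℤ) : Prop := f ≠ 0 → (f.natDegree : ℤ) ≤ d

private theorem DL.zero' (d : ℤ) : DL (0 : k[X]) d := fun h => absurd rfl h

private theorem DL.mono' {f : k[X]} {d d' : ℤ} (h : DL f d) (hd : d ≤ d') : DL f d' :=
  fun h0 => (h h0).trans hd

private theorem DL.add' {f f' : k[X]} {d : ℤ} (h : DL f d) (h' : DL f' d) : DL (f + f') d := by
  intro h0
  by_cases h1 : f = 0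
  · rw [h1, zero_add] at h0 ⊢
    exact h' h0
  · by_cases h2 : f' = 0
    · rw [h2, add_zero] at h0 ⊢
      exact h h0
    · have h3 := natDegree_add_le f f'
      have h4 := h h1
      have h5 := h' h2
      rcases le_max_iff.1 h3 with h6 | h6
      · exact (Nat.cast_le.2 h6).trans h4
      · exact (Nat.cast_le.2 h6).trans h5

private theorem DL.neg' {f : k[X]} {d : ℤ} (h : DL f d) : DL (-f) d := by
  intro h0
  rw [natDegree_neg]
  exact h (neg_ne_zero.1 h0)

private theorem DL.sub' {f f' : k[X]} {d : ℤ} (h : DL f d) (h' : DL f' d) : DL (f - f') d := by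
  rw [sub_eq_add_neg]
  exact h.add' h'.neg'

private theorem DL.mul' {f f' : k[X]} {d d' : ℤ} (h : DL f d) (h' : DL f' d') :
    DL (f * f') (d + d') := by
  intro h0
  have h1 : f ≠ 0 := left_ne_zero_of_mul h0
  have h2 : f' ≠ 0 := right_ne_zero_of_mul h0
  rw [natDegree_mul h1 h2]
  push_cast
  exact add_le_add (h h1) (h' h2)

private theorem DL.sum' {ι : Type} (t : Finset ι) {f : ι → k[X]} {d : ℤ}
    (h : ∀ i ∈ t, DL (f i) d) : DL (∑ i ∈ t, f i) d := by
  classical
  induction t using Finset.induction_on with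
  | empty => simpa using DL.zero' d
  | insert a t ha ih =>
    rw [Finset.sum_insert ha]
    exact (h a (Finset.mem_insert_self _ _)).add' (ih fun i hi => h i (Finset.mem_insert_of_mem hi))

theorem uni_det {n : ℕ} {e : Fin n → Fin n → ℕ} {h : Matrix (Fin n) (Fin n) k[X]} (hh : Uni e h) :
    h.det = 1 := by
  rw [Matrix.det_of_isLowerTriangular h (by
    intro i j hij
    exact hh.up i j hij)]
  simp [hh.diag]

private theorem uni_DL {h : Matrix (Fin (2 * g + 1)) (Fin (2 * g + 1)) k[X]}
    (hh : Uni (eh g r) h) (i j : Fin (2 * g + 1)) : DL (h i j) (nn g r i - nn g r j) := by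
  rcases lt_trichotomy i j with hij | hij | hij
  · rw [hh.up i j hij]
    exact DL.zero' _
  · rw [hij, hh.diag]
    intro _
    simp
  · intro h0
    have h1 := hh.low i j hij
    rw [degree_eq_natDegree h0] at h1
    have h2 : (h i j).natDegree < eh g r i j := by exact_mod_cast h1
    unfold eh at h2
    omega

private theorem congr_DL {G h : Matrix (Fin (2 * g + 1)) (Fin (2 * g + 1)) k[X]}
    (hh : Uni (eh g r) h) (c : ℤ) (hG : ∀ i j, DL (G i j) (c + nn g r i + nn g r j))
    (i j : Fin (2 * g + 1)) : DL ((h * G * h.transpose) i j) (c + nn g r i + nn g r j) := by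
  rw [Matrix.mul_apply]
  apply DL.sum'
  intro b _
  rw [Matrix.mul_apply, Matrix.transpose_apply]
  have h1 : DL (∑ a, h i a * G a b) (c + nn g r i + nn g r b) := by
    apply DL.sum'
    intro a _
    exact ((uni_DL hh i a).mul' (hG a b)).mono' (by linarith)
  exact (h1.mul' (uni_DL hh j b)).mono' (by linarith)

theorem act_degP {G1 G2 h : Matrix (Fin (2 * g + 1)) (Fin (2 * g + 1)) k[X]}
    (hr : Typ g m r) (hG : DegP g m r G1 G2) (hh : Uni (eh g r) h) {s : k[X]}
    (hs : s.degree < (2 * m : ℕ)) :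
    DegP g m r (h * G1 * h.transpose) (h * G2 * h.transpose - s • (h * G1 * h.transpose)) := by
  have e1 : ∀ i j, DL ((h * G1 * h.transpose) i j) (0 + nn g r i + nn g r j) :=
    congr_DL hh 0 (fun i j h0 => by
      have := hG.d1 i j h0
      linarith)
  have e2 : ∀ i j, DL ((h * G2 * h.transpose) i j) (2 * m + nn g r i + nn g r j) :=
    congr_DL hh (2 * m) (fun i j h0 => hG.d2 i j h0)
  have e3 : DL s (2 * m) := by
    intro h0
    rw [degree_eq_natDegree h0] at hs
    have h2 : s.natDegree < 2 * m := by exact_mod_cast hs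
    omega
  have t1 : (h * G1 * h.transpose).transpose = h * G1 * h.transpose := by
    rw [Matrix.transpose_mul, Matrix.transpose_mul, Matrix.transpose_transpose, hG.s1,
      Matrix.mul_assoc]
  refine ⟨t1, ?_, ?_, ?_, ?_⟩
  · rw [Matrix.transpose_sub, Matrix.transpose_smul, t1]
    congr 1
    rw [Matrix.transpose_mul, Matrix.transpose_mul, Matrix.transpose_transpose, hG.s2,
      Matrix.mul_assoc]
  · intro i j h0
    have := e1 i j h0
    linarith
  · intro i j
    have h3 : DL ((h * G2 * h.transpose - s • (h * G1 * h.transpose)) i j)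
        (2 * m + nn g r i + nn g r j) := by
      rw [Matrix.sub_apply, Matrix.smul_apply, smul_eq_mul]
      exact (e2 i j).sub' ((e3.mul' (e1 i j)).mono' (by linarith))
    exact h3
  · have h4 : (h * G1 * h.transpose).det = G1.det := by
      rw [Matrix.det_mul, Matrix.det_mul, Matrix.det_transpose, uni_det hh]
      ring
    rw [h4]
    exact hG.det

theorem act_pen {G1 G2 h : Matrix (Fin (2 * g + 1)) (Fin (2 * g + 1)) k[X]}
    (hh : Uni (eh g r) h) (s : k[X]) :
    pen (h * G1 * h.transpose) (h * G2 * h.transpose - s • (h * G1 * h.transpose)) =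
      (pen G1 G2).comp (X + C s) := by
  rw [pen_shift, pen_congr, uni_det hh]
  simp

theorem act_undet {G1 G2 h : Matrix (Fin (2 * g + 1)) (Fin (2 * g + 1)) k[X]}
    (hh : Uni (eh g r) h) (s : k[X]) {V : Finset k[X]} (hu : Undet V G1 G2) :
    Undet V (h * G1 * h.transpose) (h * G2 * h.transpose - s • (h * G1 * h.transpose)) := by
  intro π hπ hi
  have : Fact (Irreducible π) := ⟨hi⟩
  have h1 : ∀ G : Matrix (Fin (2 * g + 1)) (Fin (2 * g + 1)) k[X],
      (h * G * h.transpose).map (AdjoinRoot.mk π) =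
      h.map (AdjoinRoot.mk π) * G.map (AdjoinRoot.mk π) * (h.map (AdjoinRoot.mk π)).transpose := by
    intro G
    rw [Matrix.map_mul, Matrix.map_mul, Matrix.transpose_map]
  have h2 : (h * G2 * h.transpose - s • (h * G1 * h.transpose)).map (AdjoinRoot.mk π) =
      (h * G2 * h.transpose).map (AdjoinRoot.mk π) -
        (AdjoinRoot.mk π s) • (h * G1 * h.transpose).map (AdjoinRoot.mk π) := by
    ext i j
    simp only [Matrix.map_apply, Matrix.sub_apply, Matrix.smul_apply, smul_eq_mul, map_sub, map_mul]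
  have h3 : IsUnit (h.map (AdjoinRoot.mk π)).det := by
    have : (h.map (AdjoinRoot.mk π)).det = AdjoinRoot.mk π h.det := by
      rw [RingHom.map_det]; rfl
    rw [this, uni_det hh, map_one]
    exact isUnit_one
  rw [h2, det_shift_iff, h1, h1, det_congr_iff h3]
  exact hu π hπ hi

private theorem coeff_shift {f : k[X][X]} (hf : f.Monic) (hfd : f.natDegree = 2 * g + 1)
    (hft : f.coeff (2 * g) = 0) (s : k[X]) :
    (f.comp (X + C s)).coeff (2 * g) = s * ((2 * g + 1 : ℕ) : k[X]) := by
  have h1 : (f - X ^ (2 * g + 1)).degree < ((2 * g : ℕ) : WithBot ℕ) := by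
    rw [degree_lt_iff_coeff_zero]
    intro j hj
    rw [coeff_sub, coeff_X_pow]
    rcases Nat.lt_or_ge (2 * g + 1) j with h2 | h2
    · rw [coeff_eq_zero_of_natDegree_lt (by omega), if_neg (by omega), sub_zero]
    · rcases Nat.lt_or_ge (2 * g) j with h3 | h3
      · have h4 : j = 2 * g + 1 := by omega
        have h5 : f.coeff (2 * g + 1) = 1 := by
          rw [← hfd]
          exact hf.coeff_natDegree
        rw [h4, h5, if_pos rfl, sub_self]
      · have h4 : j = 2 * g := by omega
        rw [h4, hft, if_neg (by omega), sub_zero]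
  have h2 : f.comp (X + C s) = (X + C s) ^ (2 * g + 1) + (f - X ^ (2 * g + 1)).comp (X + C s) := by
    rw [sub_comp, X_pow_comp]
    ring
  have h3 : ((f - X ^ (2 * g + 1)).comp (X + C s)).coeff (2 * g) = 0 := by
    by_cases h0 : f - X ^ (2 * g + 1) = 0
    · rw [h0]; simp
    · apply coeff_eq_zero_of_natDegree_lt
      rw [natDegree_comp, natDegree_X_add_C, mul_one]
      rw [degree_eq_natDegree h0] at h1
      exact_mod_cast h1
  rw [h2, coeff_add, h3, add_zero, coeff_X_add_C_pow]
  have h4 : (2 * g + 1).choose (2 * g) = 2 * g + 1 := by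
    rw [Nat.choose_succ_self_right]
  rw [h4]
  have h5 : 2 * g + 1 - 2 * g = 1 := by omega
  rw [h5, pow_one]

/-- the data determine `s` and `f` -/
theorem act_inj₁ (hn : ((2 * g + 1 : ℕ) : k) ≠ 0) {f f' : k[X][X]}
    (hf : f.Monic) (hfd : f.natDegree = 2 * g + 1) (hft : f.coeff (2 * g) = 0)
    (hf' : f'.Monic) (hfd' : f'.natDegree = 2 * g + 1) (hft' : f'.coeff (2 * g) = 0)
    {G1 G2 G1' G2' h h' : Matrix (Fin (2 * g + 1)) (Fin (2 * g + 1)) k[X]} {s s' : k[X]}
    (hG : Rep g m r f G1 G2) (hG' : Rep g m r f' G1' G2')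
    (hh : Uni (eh g r) h) (hh' : Uni (eh g r) h')
    (h1 : h * G1 * h.transpose = h' * G1' * h'.transpose)
    (h2 : h * G2 * h.transpose - s • (h * G1 * h.transpose) =
      h' * G2' * h'.transpose - s' • (h' * G1' * h'.transpose)) :
    s = s' ∧ f = f' := by
  have p1 := act_pen (G1 := G1) (G2 := G2) hh s
  have p2 := act_pen (G1 := G1') (G2 := G2') hh' s'
  rw [h2, h1, p2, hG.char, hG'.char] at p1
  have d1 : G1.det = G1'.det := by
    have e1 : (h * G1 * h.transpose).det = G1.det := by
      rw [Matrix.det_mul, Matrix.det_mul, Matrix.det_transpose, uni_det hh]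
      ring
    have e2 : (h' * G1' * h'.transpose).det = G1'.det := by
      rw [Matrix.det_mul, Matrix.det_mul, Matrix.det_transpose, uni_det hh']
      ring
    rw [← e1, ← e2, h1]
  have d2 : G1.det ≠ 0 := by
    obtain ⟨u, hu, hu2⟩ := hG.deg.det
    intro h0
    rw [h0, mul_zero] at hu2
    have h3 : (C (u ^ 2) : k[X]) ≠ 0 := by
      rw [Ne, C_eq_zero]
      exact pow_ne_zero 2 hu
    exact h3 hu2.symm
  rw [← d1, mul_comp, mul_comp, C_comp, C_comp] at p1
  have d3 : (C G1.det : k[X][X]) ≠ 0 := by rwa [Ne, C_eq_zero]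
  have p3 : f'.comp (X + C s') = f.comp (X + C s) := mul_left_cancel₀ d3 p1
  have c1 := coeff_shift hf hfd hft s
  have c2 := coeff_shift hf' hfd' hft' s'
  rw [p3, c1] at c2
  have hn' : (((2 * g + 1 : ℕ)) : k[X]) ≠ 0 := by
    intro h0
    apply hn
    have h3 : (C (((2 * g + 1 : ℕ)) : k) : k[X]) = 0 :=
      (map_natCast (C : k →+* k[X]) (2 * g + 1)).trans h0
    exact C_eq_zero.1 h3
  have hs : s = s' := mul_right_cancel₀ hn' c2
  refine ⟨hs, ?_⟩
  rw [hs] at p3
  have c3 := congrArg (fun F : k[X][X] => F.comp (X - C s')) p3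
  simp only [comp_assoc] at c3
  have c4 : (X + C s' : k[X][X]).comp (X - C s') = X := by simp
  rw [c4, comp_X, comp_X] at c3
  exact c3.symm

/-- the data determine `h` -/
theorem act_inj₂ {f : k[X][X]} (hi : Irreducible (fK f)) (hf : f.Monic)
    {G1 G2 h h' : Matrix (Fin (2 * g + 1)) (Fin (2 * g + 1)) k[X]}
    (hG : Rep g m r f G1 G2) (hh : Uni (eh g r) h) (hh' : Uni (eh g r) h')
    (h1 : h * G1 * h.transpose = h' * G1 * h'.transpose)
    (h2 : h * G2 * h.transpose = h' * G2 * h'.transpose) : h = h' := by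
  set φ : k[X] →+* RatFunc k := algebraMap k[X] (RatFunc k) with hφ
  have hφi : Function.Injective φ := IsFractionRing.injective k[X] (RatFunc k)
  set H := h.map φ with hH
  set H' := h'.map φ with hH'
  set A := G1.map φ with hA
  set B := G2.map φ with hB
  have dH : H.det = 1 := by
    have : H.det = φ h.det := by rw [RingHom.map_det]; rfl
    rw [this, uni_det hh, map_one]
  have dH' : H'.det = 1 := by
    have : H'.det = φ h'.det := by rw [RingHom.map_det]; rfl
    rw [this, uni_det hh', map_one]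
  have d2 : G1.det ≠ 0 := by
    obtain ⟨u, hu, hu2⟩ := hG.deg.det
    intro h0
    rw [h0, mul_zero] at hu2
    have h3 : (C (u ^ 2) : k[X]) ≠ 0 := by
      rw [Ne, C_eq_zero]
      exact pow_ne_zero 2 hu
    exact h3 hu2.symm
  have dA : A.det = φ G1.det := by rw [RingHom.map_det]; rfl
  have dA0 : A.det ≠ 0 := by
    rw [dA]
    exact fun h0 => d2 (hφi (by rw [h0, map_zero]))
  have uH' : IsUnit H'.det := by rw [dH']; exact isUnit_one
  have uA : IsUnit A.det := isUnit_iff_ne_zero.2 dA0
  have hmap : ∀ G : Matrix (Fin (2 * g + 1)) (Fin (2 * g + 1)) k[X], ∀ P : Matrix _ _ k[X],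
      (P * G * P.transpose).map φ = P.map φ * G.map φ * (P.map φ).transpose := by
    intro G P
    rw [Matrix.map_mul, Matrix.map_mul, Matrix.transpose_map]
  have q1 : H * A * H.transpose = H' * A * H'.transpose := by
    rw [hH, hA, hH', ← hmap, ← hmap, h1]
  have q2 : H * B * H.transpose = H' * B * H'.transpose := by
    rw [hH, hB, hH', ← hmap, ← hmap, h2]
  set R := H'⁻¹ * H with hR
  have hinv : H'⁻¹ * H' = 1 := Matrix.nonsing_inv_mul _ uH'
  have htr : H'.transpose * (H'⁻¹).transpose = 1 := by
    rw [← Matrix.transpose_mul, hinv, Matrix.transpose_one]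
  have key : ∀ S : Matrix (Fin (2 * g + 1)) (Fin (2 * g + 1)) (RatFunc k),
      H * S * H.transpose = H' * S * H'.transpose → R * S * R.transpose = S := by
    intro S hS
    calc R * S * R.transpose = H'⁻¹ * (H * S * H.transpose) * (H'⁻¹).transpose := by
          rw [hR, Matrix.transpose_mul]
          simp only [Matrix.mul_assoc]
      _ = H'⁻¹ * (H' * S * H'.transpose) * (H'⁻¹).transpose := by rw [hS]
      _ = (H'⁻¹ * H') * S * (H'.transpose * (H'⁻¹).transpose) := by
          simp only [Matrix.mul_assoc]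
      _ = S := by rw [hinv, htr, Matrix.one_mul, Matrix.mul_one]
  have r1 := key A q1
  have r2 := key B q2
  set M := B * A⁻¹ with hM
  have hAinv : A⁻¹ * A = 1 := Matrix.nonsing_inv_mul _ uA
  have hMA : M * A = B := by rw [hM, Matrix.mul_assoc, hAinv, Matrix.mul_one]
  have dR : R.det = 1 := by
    have h3 : (H'⁻¹ * H').det = 1 := by rw [hinv, Matrix.det_one]
    rw [Matrix.det_mul, dH', mul_one] at h3
    rw [hR, Matrix.det_mul, h3, dH, mul_one]
  have hcomm : R * M = M * R := by
    have u1 : IsUnit (A * R.transpose).det := by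
      rw [Matrix.det_mul, Matrix.det_transpose, dR, mul_one]
      exact uA
    have h3 : (R * M) * (A * R.transpose) = (M * R) * (A * R.transpose) := by
      calc (R * M) * (A * R.transpose) = R * (M * A) * R.transpose := by
            simp only [Matrix.mul_assoc]
        _ = B := by rw [hMA, r2]
        _ = M * (R * A * R.transpose) := by rw [r1, hMA]
        _ = (M * R) * (A * R.transpose) := by simp only [Matrix.mul_assoc]
    have h4 := congrArg (fun Z => Z * (A * R.transpose)⁻¹) h3
    simp only [Matrix.mul_assoc _ (A * R.transpose) (A * R.transpose)⁻¹] at h4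
    rw [Matrix.mul_nonsing_inv _ u1, Matrix.mul_one, Matrix.mul_one] at h4
    exact h4
  have hchar : M.charpoly = fK f := by
    have h3 : pen A B = C A.det * fK f := by
      rw [hA, hB, pen_map, hG.char, Polynomial.map_mul, Polynomial.map_C, ← dA]
    have h4 : pen A B = M.charpoly * C A.det := by
      have h5 : Matrix.scalar (Fin (2 * g + 1)) (X : (RatFunc k)[X]) * A.map C - B.map C =
          (Matrix.scalar (Fin (2 * g + 1)) (X : (RatFunc k)[X]) - M.map C) * A.map C := by
        rw [Matrix.sub_mul, ← Matrix.map_mul, hMA]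
      unfold pen
      rw [h5, Matrix.det_mul]
      congr 1
      rw [RingHom.map_det]
      rfl
    have h6 : (C A.det : (RatFunc k)[X]) ≠ 0 := by rwa [Ne, C_eq_zero]
    rw [h4, mul_comm] at h3
    exact mul_left_cancel₀ h6 h3
  have hirr : Irreducible M.charpoly := by rw [hchar]; exact hi
  have hcomm' : (R - 1) * M = M * (R - 1) := by
    rw [Matrix.sub_mul, Matrix.mul_sub, hcomm, Matrix.one_mul, Matrix.mul_one]
  rcases field_like M (R - 1) hirr hcomm' with h3 | h3
  · have h4 : R = 1 := sub_eq_zero.1 h3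
    have h5 : H = H' := by
      have h6 : H' * R = H := by
        rw [hR, ← Matrix.mul_assoc, Matrix.mul_nonsing_inv _ uH', Matrix.one_mul]
      rw [← h6, h4, Matrix.mul_one]
    ext1 i j
    have h7 := congrFun (congrFun h5 i) j
    exact hφi h7
  · exfalso
    have h4 : IsUnit (H' * (R - 1)).det := by
      rw [Matrix.det_mul, dH', one_mul]
      exact (Matrix.isUnit_iff_isUnit_det _).1 h3
    have h5 : H' * (R - 1) = H - H' := by
      rw [Matrix.mul_sub, Matrix.mul_one, hR, ← Matrix.mul_assoc, Matrix.mul_nonsing_inv _ uH',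
        Matrix.one_mul]
    rw [h5] at h4
    have h6 : (H - H').det = 0 := by
      rw [Matrix.det_of_isLowerTriangular (H - H') (by
        intro i j hij
        have e1 := hh.up i j hij
        have e2 := hh'.up i j hij
        simp [hH, hH', e1, e2])]
      apply Finset.prod_eq_zero (Finset.mem_univ (0 : Fin (2 * g + 1)))
      simp [hH, hH', hh.diag, hh'.diag]
    rw [h6] at h4
    exact not_isUnit_zero h4

end Pool.Agent.HYP
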