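import Pool.Agent.Lib.HYP.S.Sieve
import Pool.Agent.Lib.HYP.B.Red
import Pool.Agent.Lib.HYP.L.Det
import Pool.Agent.Lib.HYP.H.Irr
import Pool.Agent.Lib.HYP.C.Total
import Pool.Agent.Lib.BSDP.I.Main

/-!
Module C.Count: for a suitable finite set `V` of primes at least a quarter of the polynomials with
the given leading form are regular with all nontrivial classes detected at primes of `V`.

Proof. `N` from `total`; `V` with `N ≤ V.card` (`Pool.Agent.BSDP.exists_primes`); `m ≥` the two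
`m₀`. If `Fam g m φ f` and not `AllDet g V f` then there are `hf`, `c` in `U (f)`, not a square, with
`¬ DetG` at all `π ∈ V`; `reduced` gives `r`, `b`, `G1`, `G2` (`Typ`, `Good`, `DegP`), `Undet V G1 G2` as
`Good` and `Det` modulo `π` would be `DetG`, and `pen G1 G2 = C G1.det * f` by the pencil formula of
`L.Det` over `RatFunc k` (`Polynomial.map_injective`). So `f` is one of the polynomials of `total`.
`4 #(Fam ∧ AllDet) ≥ 4 #Fam - 4 #(…) ≥ 2 q ^ E - q ^ E`, where `E = m ((2g+1)^2 + (2g+1) - 2) =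
m (4 g ^ 2 + 6 g)`. Finiteness of `Fam`: its `Nat.card` is not `0` by `sieve`.
-/

set_option autoImplicit false

open Polynomial

namespace Pool.Agent.HYP

/-- the pencil determinant of polynomial Gram matrices of a good basis -/
theorem pen_of_good {k : Type} [Field k] {g : ℕ} {f : k[X][X]} (hf : (fK f).Monic)
    (hd : (fK f).natDegree = 2 * g + 1) {c : AdjoinRoot (fK f)}
    {b : Fin (2 * g + 1) → AdjoinRoot (fK f)}
    {G1 G2 : Matrix (Fin (2 * g + 1)) (Fin (2 * g + 1)) k[X]} (h : Good hf c b G1 G2) :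
    pen G1 G2 = C G1.det * f := by
  have hp := pencil hf hd c b
  have hinj : Function.Injective (Polynomial.mapRingHom (algebraMap k[X] (RatFunc k))) :=
    Polynomial.map_injective _ (RatFunc.algebraMap_injective k)
  apply hinj
  have h1 : Polynomial.mapRingHom (algebraMap k[X] (RatFunc k)) (pen G1 G2) =
      ((Matrix.scalar (Fin (2 * g + 1)) (X : (RatFunc k)[X])) * (gram1 hf c b).map C -
      (gram2 hf c b).map C).det := by
    rw [pen, RingHom.map_det, h.g1, h.g2]
    congr 1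
    ext i j
    simp [RingHom.mapMatrix_apply, Matrix.map_apply, Matrix.sub_apply, Matrix.scalar_apply,
      Matrix.diagonal_mul]
  rw [h1, hp, h.g1]
  have h2 : (G1.map (algebraMap k[X] (RatFunc k))).det = algebraMap k[X] (RatFunc k) G1.det := by
    rw [RingHom.map_det]
    rfl
  rw [h2, map_mul, coe_mapRingHom, map_C]

theorem rep_of_not_allDet {k : Type} [Field k] (h2 : (2 : k) ≠ 0) {g m : ℕ} (hg : 1 ≤ g)
    {φ : k[X]} (hφ : LeadForm g φ) {f : k[X][X]} (hf : Fam g m φ f) {V : Finset k[X]}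
    (h : ¬ AllDet g V f) : ∃ r, Typ g m r ∧ RepV g m V r f := by
  unfold AllDet at h
  push Not at h
  obtain ⟨hm, c, hc, hs, hV⟩ := h
  obtain ⟨r, b, G1, G2, hr, hG, hP⟩ := reduced h2 hg hφ hf hm c hc hs
  refine ⟨r, hr, G1, G2, ⟨hP, pen_of_good hm hf.natDegree_map hG⟩, ?_⟩
  intro π hπ hi hD
  exact hV π hπ hi ⟨b, G1, G2, hG, hD⟩

theorem count {k : Type} [Field k] [Finite k] (g : ℕ) (hg : 2 ≤ g) (hp : 2 * g + 1 < ringChar k)
    (φ : k[X]) (hφ : LeadForm g φ) : ∃ V : Finset k[X], (∀ π ∈ V, π.Monic ∧ Irreducible π) ∧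
      ∃ m₀ : ℕ, ∀ m ≥ m₀, Nat.card k ^ (m * ((2 * g + 1) ^ 2 + (2 * g + 1) - 2)) ≤
        4 * Nat.card {f : k[X][X] // Fam g m φ f ∧ AllDet g V f} := by
  have hne : ∀ n : ℕ, 0 < n → n ≤ 2 * g + 1 → ((n : ℕ) : k) ≠ 0 := by
    intro n h0 h1 h2
    have h3 := (ringChar.spec k n).1 h2
    have h4 := Nat.le_of_dvd h0 h3
    omega
  have h2 : (2 : k) ≠ 0 := by
    have := hne 2 (by omega) (by omega)
    exact_mod_cast this
  have hn := hne (2 * g + 1) (by omega) le_rfl
  obtain ⟨N, hN⟩ := total (k := k) (g := g) h2 (by omega) hn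
  obtain ⟨V, hVN, hV⟩ := Pool.Agent.BSDP.exists_primes (k := k) N
  obtain ⟨m₁, hm₁⟩ := hN V hV hVN.ge
  obtain ⟨m₂, hm₂⟩ := sieve g hg hp φ hφ
  refine ⟨V, hV, max m₁ m₂, fun m hm => ?_⟩
  have ht := hm₁ m (le_trans (le_max_left _ _) hm) φ (fun f hf => hf.irreducible_map hφ)
  have hs := hm₂ m (le_trans (le_max_right _ _) hm)
  have hE : m * ((2 * g + 1) ^ 2 + (2 * g + 1) - 2) = m * (4 * g ^ 2 + 6 * g) := by
    congr 1
    have : (2 * g + 1) ^ 2 + (2 * g + 1) = 4 * g ^ 2 + 6 * g + 2 := by ring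
    omega
  rw [hE] at hs ⊢
  have hq : 0 < Nat.card k ^ (m * (4 * g ^ 2 + 6 * g)) := by
    have : 0 < Nat.card k := Nat.card_pos
    positivity
  have hfin : Finite {f : k[X][X] // Fam g m φ f} := by
    apply Nat.finite_of_card_ne_zero
    omega
  have hle : Nat.card {f : k[X][X] // Fam g m φ f} ≤
      Nat.card {f : k[X][X] // Fam g m φ f ∧ AllDet g V f} +
        Nat.card {f : k[X][X] // Fam g m φ f ∧ ∃ r, Typ g m r ∧ RepV g m V r f} := by
    classical
    have hf1 : Finite {f : k[X][X] // Fam g m φ f ∧ AllDet g V f} :=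
      Finite.of_injective (fun f => (⟨f.1, f.2.1⟩ : {f : k[X][X] // Fam g m φ f}))
        (fun a b hab => Subtype.ext (congrArg (fun x => (x.1 : k[X][X])) hab))
    have hf2 : Finite {f : k[X][X] // Fam g m φ f ∧ ∃ r, Typ g m r ∧ RepV g m V r f} :=
      Finite.of_injective (fun f => (⟨f.1, f.2.1⟩ : {f : k[X][X] // Fam g m φ f}))
        (fun a b hab => Subtype.ext (congrArg (fun x => (x.1 : k[X][X])) hab))
    rw [← Nat.card_sum]
    refine Nat.card_le_card_of_injective (fun f => if h : AllDet g V f.1 then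
      Sum.inl ⟨f.1, f.2, h⟩ else Sum.inr ⟨f.1, f.2, rep_of_not_allDet h2 (by omega) hφ f.2 h⟩) ?_
    intro a b hab
    by_cases ha : AllDet g V a.1 <;> by_cases hb : AllDet g V b.1
    · simp only [dif_pos ha, dif_pos hb] at hab
      exact Subtype.ext (congrArg (fun x => (x.1 : k[X][X])) (Sum.inl.inj hab))
    · simp only [dif_pos ha, dif_neg hb] at hab
      exact absurd hab (by simp)
    · simp only [dif_neg ha, dif_pos hb] at hab
      exact absurd hab (by simp)
    · simp only [dif_neg ha, dif_neg hb] at hab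
      exact Subtype.ext (congrArg (fun x => (x.1 : k[X][X])) (Sum.inr.inj hab))
  omega

end Pool.Agent.HYP
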