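import Mathlib

/-!
Module C.Cusp (pure integers). The cusp inequality, one index at a time. Here `r 0 = 0`,
`r 1 ≤ m`, `r j ≤ r (j + 1) ≤ r j + 2 m`, so `r b ≤ (2 b - 1) m` for `b ≥ 1`.

Proof of `cusp`. Let `x⁺ = max 0 x`.
* `r b ≤ m`: then `0 ≤ r a ≤ r b ≤ m` for `a ≤ b` and all the maxima are `0`; the right side is
  `≥ 0` as `g (2 b - 1) ≥ 1`.
* `r b > m`. For `1 ≤ a < b` put `δ a = max 0 (min (2 m) (r b - (2 a - 1) m))`. Then
  `(r b + r a - 2 m)⁺ + (r b - r a - 2 m)⁺ ≤ 2 (r b - m) - δ a` (cases; use `0 ≤ r a ≤ r b` and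
  `r a ≤ (2 a - 1) m`).
  With `S a = min (r b - m) (2 m (a - 1))` one has `S (a + 1) - S a = δ a` (cases), so
  `∑_{1 ≤ a < b} δ a = S b - S 1 = r b - m`, because `r b - m ≤ 2 m (b - 1)`. So the sum over `a` is
  at most `(2 b - 3) (r b - m)`, and the left bracket is `≤ (2 b - 1) (r b - m) + (r b - 2 m)⁺`.
  `b = 1` is excluded (`r 1 ≤ m`); so `b ≥ 2` and `(r b - 2 m)⁺ ≤ (2 b - 3) m`, and
  `(2 b - 1) m - (r b - 2 m)⁺ ≥ 2 m`, while `r b ≤ (2 b - 1) m ≤ (2 g - 1) m ≤ 2 m g`.
-/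

set_option autoImplicit false

namespace Pool.Agent.HYP

/-- one term -/
private theorem cusp_term {m x y c : ℤ} (hm : 0 ≤ m) (hx : m < x) (hy : 0 ≤ y) (hyx : y ≤ x)
    (hc : m ≤ c) (hyc : y ≤ c) :
    max 0 (x + y - 2 * m) + max 0 (x - y - 2 * m) ≤
      2 * (x - m) - max 0 (min (2 * m) (x - c)) := by
  rcases le_total (x + y - 2 * m) 0 with h1 | h1 <;> rcases le_total (x - y - 2 * m) 0 with h2 | h2 <;>
    rcases le_total (2 * m) (x - c) with h3 | h3 <;>
    simp only [max_eq_left, max_eq_right, min_eq_left, min_eq_right, h1, h2, h3] <;>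
    rcases le_total (x - c) 0 with h4 | h4 <;>
    first
    | (rw [max_eq_left h4]; omega)
    | (rw [max_eq_right h4]; omega)
    | (rw [max_eq_right (by omega : (0 : ℤ) ≤ 2 * m)]; omega)

/-- the telescoping minima -/
private theorem cusp_tel {m x : ℤ} (hm : 0 ≤ m) (hx : m < x) (b : ℕ) (hb : 1 ≤ b) :
    ∑ a ∈ Finset.Ico 1 b, max 0 (min (2 * m) (x - (2 * (a : ℤ) - 1) * m)) =
      min (x - m) (2 * m * ((b : ℤ) - 1)) := by
  induction b, hb using Nat.le_induction with
  | base =>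
    rw [Finset.Ico_self, Finset.sum_empty]
    have h : 2 * m * (((1 : ℕ) : ℤ) - 1) = 0 := by
      push_cast
      ring
    rw [h, min_eq_right (by omega)]
  | succ b hb ih =>
    rw [Finset.sum_Ico_succ_top hb, ih]
    have e1 : (2 * (b : ℤ) - 1) * m = 2 * m * ((b : ℤ) - 1) + m := by ring
    have e2 : 2 * m * (((b + 1 : ℕ) : ℤ) - 1) = 2 * m * ((b : ℤ) - 1) + 2 * m := by
      push_cast
      ring
    rw [e1, e2]
    generalize 2 * m * ((b : ℤ) - 1) = c
    omega

theorem cusp (g : ℕ) (m : ℤ) (hm : 0 ≤ m) (r : ℕ → ℤ) (h0 : r 0 = 0)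
    (hmono : ∀ j, j < g → r j ≤ r (j + 1)) (h1 : r 1 ≤ m)
    (hstep : ∀ j, 1 ≤ j → j < g → r (j + 1) ≤ r j + 2 * m)
    (b : ℕ) (hb : 1 ≤ b) (hb' : b ≤ g) :
    (g : ℤ) * (max 0 (2 * r b - 2 * m) + max 0 (r b - 2 * m) +
      ∑ a ∈ Finset.Ico 1 b, (max 0 (r b + r a - 2 * m) + max 0 (r b - r a - 2 * m))) ≤
      (g * (2 * b - 1) - 1) * r b := by
  have hmn : ∀ a c, a ≤ c → c ≤ g → r a ≤ r c := by
    intro a c hac
    induction c, hac using Nat.le_induction with
    | base => exact fun _ => le_rfl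
    | succ c _ ih => exact fun hc => (ih (by omega)).trans (hmono c (by omega))
  have hnn : ∀ a, a ≤ g → 0 ≤ r a := fun a ha => by
    have := hmn 0 a (Nat.zero_le a) ha
    rwa [h0] at this
  have hbd : ∀ a, 1 ≤ a → a ≤ g → r a ≤ (2 * (a : ℤ) - 1) * m := by
    intro a ha
    induction a, ha using Nat.le_induction with
    | base =>
      intro _
      have e : (2 * ((1 : ℕ) : ℤ) - 1) * m = m := by
        push_cast
        ring
      rw [e]
      exact h1
    | succ a ha ih =>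
      intro hag
      have h2 := hstep a ha (by omega)
      have h3 := ih (by omega)
      have e : (2 * (((a + 1 : ℕ)) : ℤ) - 1) * m = (2 * (a : ℤ) - 1) * m + 2 * m := by
        push_cast
        ring
      rw [e]
      linarith
  have hx0 := hnn b hb'
  have hgb : (1 : ℤ) ≤ g := by exact_mod_cast hb.trans hb'
  have hb1 : (1 : ℤ) ≤ b := by exact_mod_cast hb
  have hbg : (b : ℤ) ≤ g := by exact_mod_cast hb'
  by_cases hx : r b ≤ m
  · have hs : ∑ a ∈ Finset.Ico 1 b, (max 0 (r b + r a - 2 * m) + max 0 (r b - r a - 2 * m)) = 0 := by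
      refine Finset.sum_eq_zero fun a ha => ?_
      rw [Finset.mem_Ico] at ha
      have h2 := hmn a b ha.2.le hb'
      have h3 := hnn a (by omega)
      rw [max_eq_left (by linarith), max_eq_left (by linarith), add_zero]
    rw [hs, max_eq_left (by linarith), max_eq_left (by linarith)]
    have h4 : 0 ≤ (g : ℤ) * (2 * b - 1) - 1 := by nlinarith
    have h5 := mul_nonneg h4 hx0
    linarith
  · push Not at hx
    have hxb := hbd b hb hb'
    have hb2 : 2 ≤ b := by
      by_contra hc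
      have e : b = 1 := by omega
      rw [e] at hx
      linarith
    have hb2' : (2 : ℤ) ≤ b := by exact_mod_cast hb2
    have hs : ∑ a ∈ Finset.Ico 1 b, (max 0 (r b + r a - 2 * m) + max 0 (r b - r a - 2 * m)) ≤
        ∑ a ∈ Finset.Ico 1 b, (2 * (r b - m) - max 0 (min (2 * m) (r b - (2 * (a : ℤ) - 1) * m))) := by
      refine Finset.sum_le_sum fun a ha => ?_
      rw [Finset.mem_Ico] at ha
      have ha1 : (1 : ℤ) ≤ a := by exact_mod_cast ha.1
      exact cusp_term hm hx (hnn a (by omega)) (hmn a b ha.2.le hb') (by nlinarith) (hbd a ha.1 (by omega))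
    rw [Finset.sum_sub_distrib, cusp_tel hm hx b hb, Finset.sum_const, Nat.card_Ico, nsmul_eq_mul,
      Nat.cast_sub hb, min_eq_left (by linarith [hxb, (by ring : (2 * (b : ℤ) - 1) * m = 2 * m * (b - 1) + m)])]
      at hs
    push_cast at hs
    set P := max 0 (r b - 2 * m) with hP
    have hPb : P ≤ (2 * b - 3) * m := by
      rw [hP]
      refine max_le (by nlinarith) ?_
      have e : (2 * (b : ℤ) - 1) * m = (2 * b - 3) * m + 2 * m := by ring
      linarith
    rw [max_eq_right (by linarith : (0 : ℤ) ≤ 2 * r b - 2 * m)]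
    have h6 : (2 * r b - 2 * m + P +
        ∑ a ∈ Finset.Ico 1 b, (max 0 (r b + r a - 2 * m) + max 0 (r b - r a - 2 * m))) ≤
        (2 * b - 1) * (r b - m) + P := by
      have e : (2 * (b : ℤ) - 1) * (r b - m) = 2 * (r b - m) + (((b : ℤ) - 1) * (2 * (r b - m)) - (r b - m)) := by
        ring
      rw [e]
      linarith
    have h7 := mul_le_mul_of_nonneg_left h6 (by linarith : (0 : ℤ) ≤ g)
    refine h7.trans ?_
    have h8 : (g : ℤ) * (2 * m) ≤ g * ((2 * b - 1) * m - P) := by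
      refine mul_le_mul_of_nonneg_left ?_ (by linarith)
      have e : (2 * (b : ℤ) - 1) * m = (2 * b - 3) * m + 2 * m := by ring
      linarith
    have h9 : r b ≤ g * (2 * m) := by nlinarith
    have e : (g : ℤ) * ((2 * b - 1) * (r b - m) + P) =
        (g * (2 * b - 1)) * r b - g * ((2 * b - 1) * m - P) := by ring
    rw [e]
    linarith

end Pool.Agent.HYP
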