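import Pool.Agent.Lib.HYP.C.Pairs

/-!
Module C.Model. The model of a detected pencil over a finite field with given `ρ`, `h`,
determinant: the block sum of `(a)`, `(a ρ)` and the pair `S`, `S'` of `exists_pair`.

`h (ρ) ≠ 0` (`h` irreducible of degree `2 g ≥ 2`); choose `a ≠ 0` with `a h(ρ)` not a square
(`κ` finite, `2 ≠ 0`: there are nonsquares, `FiniteField.exists_nonsquare`), and `S`, `S'` for
`δ / a`. `Γ1 = (a) ⊕ S`, `Γ2 = (a ρ) ⊕ S'` (`Matrix.fromBlocks` and reindexing by an equivalence
`Fin 1 ⊕ Fin (2 g) ≃ Fin (2 g + 1)`, e.g. `finSumFinEquiv` and casts; mind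
`h.natDegree = 2 * g`: `subst` or `Fin.cast`). Detection with `w` the first basis vector:
`wᵀ Γ1 w = a`. `pen Γ1 Γ2 = (a x - a ρ) (δ / a) h` (`Matrix.det_fromBlocks_zero₂₁`).

Automorphisms `R` (`R Γi Rᵀ = Γi`): `R` commutes with `M = Γ2 Γ1⁻¹ = (ρ) ⊕ S' S⁻¹`
(as in `pair_stab`). Write `R` in blocks `(r, u; v, R')`: `u S' S⁻¹ = ρ u`, so `u = 0` (`ρ` is not a
root of the characteristic polynomial `h` of `S' S⁻¹`), `S' S⁻¹ v = ρ v`, so `v = 0`. So
`r ^ 2 = 1` and `R' = ± 1` (`pair_stab`): at most four `R` (an injection into `Fin 2 × Fin 2` or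
a `Finset` of four matrices).
-/

set_option autoImplicit false

open Polynomial

namespace Pool.Agent.HYP

variable {κ : Type} [Field κ]

private theorem mulVec_zero_of_eigen {d : ℕ} {N : Matrix (Fin d) (Fin d) κ} {ρ : κ}
    (hN : N.charpoly.eval ρ ≠ 0) : IsUnit (Matrix.scalar (Fin d) ρ - N) := by
  rw [Matrix.isUnit_iff_isUnit_det, isUnit_iff_ne_zero]
  rw [Matrix.eval_charpoly] at hN
  exact hN

theorem exists_model [Finite κ] (h2 : (2 : κ) ≠ 0) {g : ℕ} (hg : 1 ≤ g) (ρ : κ) (h : κ[X])
    (hm : h.Monic) (hi : Irreducible h) (hd : h.natDegree = 2 * g) (δ : κ) (hδ : δ ≠ 0) :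
    ∃ Γ1 Γ2 : Matrix (Fin (2 * g + 1)) (Fin (2 * g + 1)) κ,
      Γ1.transpose = Γ1 ∧ Γ2.transpose = Γ2 ∧ Γ1.det = δ ∧
      pen Γ1 Γ2 = C δ * ((X - C ρ) * h) ∧ Det Γ1 Γ2 ∧
      Nat.card {R : Matrix (Fin (2 * g + 1)) (Fin (2 * g + 1)) κ //
        R * Γ1 * R.transpose = Γ1 ∧ R * Γ2 * R.transpose = Γ2} ≤ 4 := by
  classical
  have hroot : h.eval ρ ≠ 0 := by
    intro h0
    have h1 := degree_eq_one_of_irreducible_of_root hi h0
    have h3 : h.natDegree = 1 := natDegree_eq_of_degree_eq_some h1
    omega
  obtain ⟨b, hb⟩ : ∃ b : κ, ¬ IsSquare b := by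
    apply FiniteField.exists_nonsquare
    intro hc
    apply h2
    have h3 := ringChar.Nat.cast_ringChar (R := κ)
    rw [hc] at h3
    exact_mod_cast h3
  have hb0 : b ≠ 0 := by
    rintro rfl
    exact hb ⟨0, by simp⟩
  set a : κ := b / h.eval ρ with ha
  have ha0 : a ≠ 0 := div_ne_zero hb0 hroot
  have hah : a * h.eval ρ = b := div_mul_cancel₀ _ hroot
  obtain ⟨S, S', hS, hS', hSd, hSp⟩ := exists_pair h hm hi (δ / a) (div_ne_zero hδ ha0)
  have hSd0 : S.det ≠ 0 := by
    rw [hSd]
    exact div_ne_zero hδ ha0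
  have hSu : IsUnit S.det := isUnit_iff_ne_zero.mpr hSd0
  set e : Fin 1 ⊕ Fin h.natDegree ≃ Fin (2 * g + 1) :=
    finSumFinEquiv.trans (finCongr (by omega)) with he
  set A1 : Matrix (Fin 1) (Fin 1) κ := Matrix.diagonal fun _ => a with hA1
  set A2 : Matrix (Fin 1) (Fin 1) κ := Matrix.diagonal fun _ => a * ρ with hA2
  set B1 : Matrix (Fin 1 ⊕ Fin h.natDegree) (Fin 1 ⊕ Fin h.natDegree) κ :=
    Matrix.fromBlocks A1 0 0 S with hB1
  set B2 : Matrix (Fin 1 ⊕ Fin h.natDegree) (Fin 1 ⊕ Fin h.natDegree) κ :=
    Matrix.fromBlocks A2 0 0 S' with hB2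
  have hG1 : ∀ i j, Matrix.reindex e e B1 (e i) (e j) = B1 i j := fun i j => by
    rw [Matrix.reindex_apply, Matrix.submatrix_apply, e.symm_apply_apply, e.symm_apply_apply]
  have hG2 : ∀ i j, Matrix.reindex e e B2 (e i) (e j) = B2 i j := fun i j => by
    rw [Matrix.reindex_apply, Matrix.submatrix_apply, e.symm_apply_apply, e.symm_apply_apply]
  have hdet : (Matrix.reindex e e B1).det = δ := by
    rw [Matrix.det_reindex_self, hB1, Matrix.det_fromBlocks_zero₂₁, hSd, hA1, Matrix.det_diagonal]
    simp
    field_simp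
  have hpen : pen (Matrix.reindex e e B1) (Matrix.reindex e e B2) = C δ * ((X - C ρ) * h) := by
    have h3 : Matrix.scalar (Fin (2 * g + 1)) (X : κ[X]) * (Matrix.reindex e e B1).map C -
        (Matrix.reindex e e B2).map C = Matrix.reindex e e (Matrix.fromBlocks
          (Matrix.diagonal fun _ => C a * (X - C ρ)) 0 0
          (Matrix.scalar (Fin h.natDegree) (X : κ[X]) * S.map C - S'.map C)) := by
      ext1 i j
      obtain ⟨i', rfl⟩ := e.surjective i
      obtain ⟨j', rfl⟩ := e.surjective j
      have h4 : ∀ Q : Matrix (Fin 1 ⊕ Fin h.natDegree) (Fin 1 ⊕ Fin h.natDegree) κ[X],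
          Matrix.reindex e e Q (e i') (e j') = Q i' j' := fun Q => by
        rw [Matrix.reindex_apply, Matrix.submatrix_apply, e.symm_apply_apply, e.symm_apply_apply]
      rw [h4, Matrix.sub_apply, Matrix.scalar_apply, Matrix.diagonal_mul, Matrix.map_apply,
        Matrix.map_apply, hG1, hG2, hB1, hB2]
      rcases i' with i' | i' <;> rcases j' with j' | j'
      · rw [Matrix.fromBlocks_apply₁₁, Matrix.fromBlocks_apply₁₁, Matrix.fromBlocks_apply₁₁, hA1, hA2]
        have hij : i' = j' := Subsingleton.elim _ _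
        rw [hij, Matrix.diagonal_apply_eq, Matrix.diagonal_apply_eq, Matrix.diagonal_apply_eq, C_mul]
        ring
      · rw [Matrix.fromBlocks_apply₁₂, Matrix.fromBlocks_apply₁₂, Matrix.fromBlocks_apply₁₂]
        simp
      · rw [Matrix.fromBlocks_apply₂₁, Matrix.fromBlocks_apply₂₁, Matrix.fromBlocks_apply₂₁]
        simp
      · rw [Matrix.fromBlocks_apply₂₂, Matrix.fromBlocks_apply₂₂, Matrix.fromBlocks_apply₂₂,
          Matrix.sub_apply, Matrix.scalar_apply, Matrix.diagonal_mul, Matrix.map_apply,
          Matrix.map_apply]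
    have h5 : (Matrix.scalar (Fin h.natDegree) (X : κ[X]) * S.map C - S'.map C).det =
        C (δ / a) * h := hSp
    unfold pen
    rw [h3, Matrix.det_reindex_self, Matrix.det_fromBlocks_zero₂₁, h5, Matrix.det_diagonal]
    have h6 : (C δ : κ[X]) = C a * C (δ / a) := by
      rw [← C_mul]
      congr 1
      field_simp
    rw [h6]
    simp only [Finset.univ_unique, Finset.prod_singleton]
    ring
  have hsym : ∀ (A : Matrix (Fin 1) (Fin 1) κ) (T : Matrix (Fin h.natDegree) (Fin h.natDegree) κ),
      A.transpose = A → T.transpose = T →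
      (Matrix.reindex e e (Matrix.fromBlocks A 0 0 T)).transpose =
        Matrix.reindex e e (Matrix.fromBlocks A 0 0 T) := by
    intro A T hA hT
    rw [Matrix.transpose_reindex, Matrix.fromBlocks_transpose, hA, hT, Matrix.transpose_zero,
      Matrix.transpose_zero]
  refine ⟨Matrix.reindex e e B1, Matrix.reindex e e B2, hsym _ _ (Matrix.diagonal_transpose _) hS,
    hsym _ _ (Matrix.diagonal_transpose _) hS', hdet, hpen, ?_, ?_⟩
  · refine ⟨ρ, Pi.single (e (Sum.inl 0)) 1, h, ?_, ?_, hm, hi, ?_, ?_⟩
    · intro h0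
      have h3 := congrFun h0 (e (Sum.inl 0))
      rw [Pi.single_eq_same, Pi.zero_apply] at h3
      exact one_ne_zero h3
    · rw [Matrix.mulVec_single_one, Matrix.mulVec_single_one]
      ext i
      obtain ⟨i', rfl⟩ := e.surjective i
      rw [Pi.smul_apply, Matrix.col_apply, Matrix.col_apply, hG1, hG2, hB1, hB2]
      rcases i' with i' | i'
      · rw [Matrix.fromBlocks_apply₁₁, Matrix.fromBlocks_apply₁₁, hA1, hA2]
        have hij : i' = 0 := Subsingleton.elim _ _
        rw [hij, Matrix.diagonal_apply_eq, Matrix.diagonal_apply_eq, smul_eq_mul, mul_comm]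
      · rw [Matrix.fromBlocks_apply₂₁, Matrix.fromBlocks_apply₂₁]
        simp
    · have h3 := hpen
      unfold pen at h3
      rw [h3, hdet]
    · rw [Matrix.mulVec_single_one, single_one_dotProduct, Matrix.col_apply, hG1, hB1,
        Matrix.fromBlocks_apply₁₁, hA1, Matrix.diagonal_apply_eq, hah]
      exact hb
  · -- automorphisms
    set N : Matrix (Fin h.natDegree) (Fin h.natDegree) κ := S' * S⁻¹ with hN
    have hcp : N.charpoly = h := charpoly_of_pen hSd0 (by rw [hSd]; exact hSp)
    have hNρ : IsUnit (Matrix.scalar (Fin h.natDegree) ρ - N) :=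
      mulVec_zero_of_eigen (by rw [hcp]; exact hroot)
    set f : Fin 2 × Fin 2 → Matrix (Fin (2 * g + 1)) (Fin (2 * g + 1)) κ := fun x =>
      Matrix.reindex e e (Matrix.fromBlocks (if x.1 = 0 then 1 else -1) 0 0
        (if x.2 = 0 then 1 else -1)) with hf
    have key : ∀ R : Matrix (Fin (2 * g + 1)) (Fin (2 * g + 1)) κ,
        R * Matrix.reindex e e B1 * R.transpose = Matrix.reindex e e B1 →
        R * Matrix.reindex e e B2 * R.transpose = Matrix.reindex e e B2 → ∃ x, f x = R := by
      intro R hR1 hR2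
      set Q := Matrix.reindex e.symm e.symm R with hQ
      have hRQ : R = Matrix.reindex e e Q := by
        rw [hQ]
        ext i j
        simp
      have htrans : ∀ B : Matrix (Fin 1 ⊕ Fin h.natDegree) (Fin 1 ⊕ Fin h.natDegree) κ,
          R * Matrix.reindex e e B * R.transpose = Matrix.reindex e e B →
          Q * B * Q.transpose = B := by
        intro B hB
        rw [hRQ, Matrix.transpose_reindex, Matrix.reindex_apply, Matrix.reindex_apply,
          Matrix.reindex_apply, Matrix.submatrix_mul_equiv, Matrix.submatrix_mul_equiv] at hB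
        have h3 := congrArg (fun Z => Matrix.submatrix Z e e) hB
        simpa using h3
      have hQ1 := htrans B1 hR1
      have hQ2 := htrans B2 hR2
      -- Q commutes with M
      set M : Matrix (Fin 1 ⊕ Fin h.natDegree) (Fin 1 ⊕ Fin h.natDegree) κ :=
        Matrix.fromBlocks (Matrix.diagonal fun _ => ρ) 0 0 N with hM
      have hMB : M * B1 = B2 := by
        rw [hM, hB1, hB2, Matrix.fromBlocks_multiply]
        congr 1
        · rw [hA1, hA2, Matrix.diagonal_mul_diagonal]
          simp [mul_comm]
        · simp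
        · simp
        · rw [hN, mul_assoc, Matrix.nonsing_inv_mul _ hSu]
          simp
      have hB1u : IsUnit B1.det := by
        have h3 := hdet
        rw [Matrix.det_reindex_self] at h3
        rw [h3]
        exact isUnit_iff_ne_zero.mpr hδ
      have hQu : IsUnit Q.det := by
        have h3 := congrArg Matrix.det hQ1
        rw [Matrix.det_mul, Matrix.det_mul, Matrix.det_transpose] at h3
        rw [isUnit_iff_ne_zero]
        intro h0
        rw [h0] at h3
        simp at h3
        exact hB1u.ne_zero h3.symm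
      have hcomm : Q * M = M * Q := by
        have h3 : Q * M * B1 * Q.transpose = M * Q * B1 * Q.transpose := by
          calc Q * M * B1 * Q.transpose = Q * (M * B1) * Q.transpose := by simp only [mul_assoc]
            _ = B2 := by rw [hMB, hQ2]
            _ = M * B1 := hMB.symm
            _ = M * (Q * B1 * Q.transpose) := by rw [hQ1]
            _ = M * Q * B1 * Q.transpose := by simp only [mul_assoc]
        have hQtu : IsUnit Q.transpose.det := by rw [Matrix.det_transpose]; exact hQu
        have h4 : Q * M * B1 = M * Q * B1 := by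
          have h5 := congrArg (· * Q.transpose⁻¹) h3
          simp only [mul_assoc, Matrix.mul_nonsing_inv _ hQtu, mul_one] at h5
          simpa only [mul_assoc] using h5
        have h5 := congrArg (· * B1⁻¹) h4
        simp only [mul_assoc, Matrix.mul_nonsing_inv _ hB1u, mul_one] at h5
        exact h5
      obtain ⟨a11, a12, a21, a22, hblk⟩ : ∃ a11 a12 a21 a22, Q = Matrix.fromBlocks a11 a12 a21 a22 :=
        ⟨_, _, _, _, (Matrix.fromBlocks_toBlocks Q).symm⟩
      rw [hblk, hM, Matrix.fromBlocks_multiply, Matrix.fromBlocks_multiply,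
        Matrix.fromBlocks_inj] at hcomm
      obtain ⟨-, hc12, hc21, hc22⟩ := hcomm
      simp only [Matrix.zero_mul, Matrix.mul_zero, zero_add, add_zero] at hc12 hc21 hc22
      obtain ⟨u, hu⟩ := hNρ
      have h12 : a12 = 0 := by
        have h3 : a12 * (Matrix.scalar (Fin h.natDegree) ρ - N) = 0 := by
          rw [Matrix.mul_sub, hc12, Matrix.scalar_apply, sub_eq_zero]
          ext i j
          rw [Matrix.mul_diagonal, Matrix.diagonal_mul, mul_comm]
        have h4 : a12 * (u : Matrix (Fin h.natDegree) (Fin h.natDegree) κ) *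
            ((u⁻¹ : _) : Matrix (Fin h.natDegree) (Fin h.natDegree) κ) = 0 := by
          rw [hu, h3, Matrix.zero_mul]
        rw [Matrix.mul_assoc, Units.mul_inv, Matrix.mul_one] at h4
        exact h4
      have h21 : a21 = 0 := by
        have h3 : (Matrix.scalar (Fin h.natDegree) ρ - N) * a21 = 0 := by
          rw [Matrix.sub_mul, ← hc21, Matrix.scalar_apply, sub_eq_zero]
          ext i j
          rw [Matrix.mul_diagonal, Matrix.diagonal_mul, mul_comm]
        have h4 : ((u⁻¹ : _) : Matrix (Fin h.natDegree) (Fin h.natDegree) κ) *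
            ((u : Matrix (Fin h.natDegree) (Fin h.natDegree) κ) * a21) = 0 := by
          rw [hu, h3, Matrix.mul_zero]
        rw [← Matrix.mul_assoc, Units.inv_mul, Matrix.one_mul] at h4
        exact h4
      rw [hblk, h12, h21, hB1, Matrix.fromBlocks_transpose, Matrix.fromBlocks_multiply,
        Matrix.fromBlocks_multiply, Matrix.fromBlocks_inj] at hQ1
      rw [hblk, h12, h21, hB2, Matrix.fromBlocks_transpose, Matrix.fromBlocks_multiply,
        Matrix.fromBlocks_multiply, Matrix.fromBlocks_inj] at hQ2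
      obtain ⟨hq11, -, -, hq22⟩ := hQ1
      obtain ⟨-, -, -, hq22'⟩ := hQ2
      simp only [Matrix.zero_mul, Matrix.mul_zero, zero_add, add_zero] at hq11 hq22 hq22'
      have hD := pair_stab S S' a22 hS hS' hSu (by rw [← hN, hcp]; exact hi) hq22 hq22'
      have h11 : a11 = 1 ∨ a11 = -1 := by
        have h3 := congrFun (congrFun hq11 0) 0
        rw [Matrix.mul_apply, Finset.univ_unique, Finset.sum_singleton, Matrix.transpose_apply,
          Matrix.mul_apply, Finset.univ_unique, Finset.sum_singleton] at h3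
        have h4 : A1 (default : Fin 1) (default : Fin 1) = a := by
          rw [hA1, Matrix.diagonal_apply_eq]
        have h4' : A1 0 0 = a := h4
        rw [h4] at h3
        have h5 : a11 0 0 * a11 0 0 = 1 := by
          have h6 : a11 0 default = a11 0 0 := rfl
          rw [h6, h4'] at h3
          have h7 : a * (a11 0 0 * a11 0 0) = a * 1 := by linear_combination h3
          exact mul_left_cancel₀ ha0 h7
        have h8 := mul_self_eq_one_iff.mp h5
        rcases h8 with h9 | h9
        · left
          ext i j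
          have hi0 : i = 0 := Subsingleton.elim _ _
          have hj0 : j = 0 := Subsingleton.elim _ _
          rw [hi0, hj0, h9, Matrix.one_apply_eq]
        · right
          ext i j
          have hi0 : i = 0 := Subsingleton.elim _ _
          have hj0 : j = 0 := Subsingleton.elim _ _
          rw [hi0, hj0, h9, Matrix.neg_apply, Matrix.one_apply_eq]
      refine ⟨(if a11 = 1 then 0 else 1, if a22 = 1 then 0 else 1), ?_⟩
      rw [hRQ, hblk, h12, h21]
      simp only [hf]
      congr 2
      · by_cases h3 : a11 = 1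
        · simp [h3]
        · rw [if_neg h3, if_neg (by decide)]
          exact (h11.resolve_left h3).symm
      · by_cases h3 : a22 = 1
        · simp [h3]
        · rw [if_neg h3, if_neg (by decide)]
          exact (hD.resolve_left h3).symm
    choose φ hφ using key
    have hinj : Function.Injective (fun R : {R : Matrix (Fin (2 * g + 1)) (Fin (2 * g + 1)) κ //
        R * Matrix.reindex e e B1 * R.transpose = Matrix.reindex e e B1 ∧
        R * Matrix.reindex e e B2 * R.transpose = Matrix.reindex e e B2} =>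
        φ R.1 R.2.1 R.2.2) := by
      intro R R' hRR
      apply Subtype.ext
      rw [← hφ R.1 R.2.1 R.2.2, ← hφ R'.1 R'.2.1 R'.2.2]
      exact congrArg f hRR
    have h3 := Nat.card_le_card_of_injective _ hinj
    have h4 : Nat.card (Fin 2 × Fin 2) = 4 := by simp
    rw [h4] at h3
    exact h3

end Pool.Agent.HYP
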