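import Pool.Agent.Lib.HYP.C.Comm
import Pool.Agent.Lib.HYP.C.Defs

/-!
Module C.Pairs. Over a finite field `κ`: for `h` monic irreducible of degree `d` and `δ ≠ 0` there is a
pair of symmetric `d × d` matrices `S`, `S'` with `det S = δ` and pencil determinant `δ h`; its only
automorphisms are `± 1`.

`K = AdjoinRoot h` is a field, finite over `κ`, `θ` the root, `τ = tau` (`Pool.Agent.HYP.tau`, the
coefficient of `θ ^ (d - 1)`) or any nonzero linear functional, e.g. the trace form, `c ∈ K`,
`S i j = τ (c θ ^ i θ ^ j)`, `S' i j = τ (θ c θ ^ i θ ^ j)`. Let `S₁` be the matrix for `c = 1`; the form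
`(x, y) ↦ τ (x y)` is nondegenerate (`K` is a field and `τ ≠ 0`), so `det S₁ ≠ 0`, and if
`A` is the matrix of the multiplication by `c` in the basis `θ ^ i`
(`Algebra.leftMulMatrix`, `AdjoinRoot.powerBasis`), then `S = Aᵀ S₁` or `A S₁`, so
`det S = N(c) det S₁` (`Algebra.norm_eq_matrix_det`). The norm of finite fields is surjective
(`FiniteField.norm_surjective`-like; or `N c = c ^ ((Q ^ d - 1) / (Q - 1))` and a generator): choose `c`
with `det S = δ`. Similarly `S' = (M_θ)ᵀ S`, so
`pen S S' = det (x - M_θ) det S = δ h` (`charpoly_leftMulMatrix : (leftMulMatrix h.basis h.gen).charpoly =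
minpoly K h.gen`).

The matrix `T * S⁻¹` of `pair_stab` has characteristic polynomial `h` (from `pen S S' = C δ * h`).
See also the modules `HYP/L/…` about Gram matrices.
-/

set_option autoImplicit false

open Polynomial

namespace Pool.Agent.HYP

variable {κ : Type} [Field κ]

private theorem pairs_pen {n : ℕ} (S M : Matrix (Fin n) (Fin n) κ) :
    pen S (S * M) = C S.det * M.charpoly ∧ pen S (M * S) = C S.det * M.charpoly := by
  have hX : ∀ N : Matrix (Fin n) (Fin n) κ[X],
      Matrix.scalar (Fin n) (X : κ[X]) * N = N * Matrix.scalar (Fin n) (X : κ[X]) := by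
    intro N
    exact (Matrix.scalar_commute (X : κ[X]) (fun r' => mul_comm _ _) N).eq
  have hd : (S.map C).det = (C S.det : κ[X]) := by
    have h1 := RingHom.map_det (C : κ →+* κ[X]) S
    rw [RingHom.mapMatrix_apply] at h1
    exact h1.symm
  constructor
  · have h1 : Matrix.scalar (Fin n) (X : κ[X]) * S.map C - (S * M).map C =
        S.map C * M.charmatrix := by
      rw [Matrix.charmatrix, mul_sub, hX, Matrix.map_mul, RingHom.mapMatrix_apply]
    rw [pen, h1, Matrix.det_mul, hd, Matrix.charpoly]
  · have h1 : Matrix.scalar (Fin n) (X : κ[X]) * S.map C - (M * S).map C =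
        M.charmatrix * S.map C := by
      rw [Matrix.charmatrix, sub_mul, Matrix.map_mul, RingHom.mapMatrix_apply]
    rw [pen, h1, Matrix.det_mul, hd, Matrix.charpoly, mul_comm]

/-- the characteristic polynomial of `T * S⁻¹` -/
theorem charpoly_of_pen {n : ℕ} {S T : Matrix (Fin n) (Fin n) κ} (hd : S.det ≠ 0) {h : κ[X]}
    (hp : pen S T = C S.det * h) : (T * S⁻¹).charpoly = h := by
  have h1 : T * S⁻¹ * S = T := by
    rw [Matrix.mul_assoc, Matrix.nonsing_inv_mul S (isUnit_iff_ne_zero.2 hd), Matrix.mul_one]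
  have h2 := (pairs_pen S (T * S⁻¹)).2
  rw [h1, hp] at h2
  have h3 : (C S.det : κ[X]) ≠ 0 := by
    rw [Ne, C_eq_zero]
    exact hd
  exact (mul_left_cancel₀ h3 h2).symm

private theorem pairs_aux [Finite κ] {K : Type} [Field K] [Algebra κ K] (pb : PowerBasis κ K)
    (δ : κ) : ∃ S S' : Matrix (Fin pb.dim) (Fin pb.dim) κ,
      S.transpose = S ∧ S'.transpose = S' ∧ S.det = δ ∧ pen S S' = C δ * minpoly κ pb.gen := by
  have : FiniteDimensional κ K := pb.finite
  have : Finite K := Module.finite_of_finite κ
  have : Algebra.IsSeparable κ K := inferInstance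
  set b := pb.basis with hb
  set T := Algebra.traceMatrix κ b with hT
  have hT0 : T.det ≠ 0 := det_traceMatrix_ne_zero' pb
  obtain ⟨c, hc⟩ := FiniteField.norm_surjective κ K (δ / T.det)
  -- the Gram matrix of a scaled trace form
  have key : ∀ a : K, T * Algebra.leftMulMatrix b a =
      Matrix.of fun i j => Algebra.trace κ K (a * (b i * b j)) := by
    intro a
    ext i j
    have h1 : a * b j = ∑ l, Algebra.leftMulMatrix b a l j • b l := by
      have h2 := (b.sum_repr (a * b j)).symm
      rw [h2]
      refine Finset.sum_congr rfl fun l _ => ?_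
      rw [Algebra.leftMulMatrix_eq_repr_mul]
    rw [Matrix.mul_apply, Matrix.of_apply]
    have h3 : a * (b i * b j) = ∑ l, Algebra.leftMulMatrix b a l j • (b i * b l) := by
      rw [mul_left_comm, h1, Finset.mul_sum]
      refine Finset.sum_congr rfl fun l _ => ?_
      rw [mul_smul_comm]
    rw [h3, map_sum]
    refine Finset.sum_congr rfl fun l _ => ?_
    rw [map_smul, smul_eq_mul, mul_comm]
    rfl
  have sym : ∀ a : K, (T * Algebra.leftMulMatrix b a).transpose = T * Algebra.leftMulMatrix b a := by
    intro a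
    rw [key a]
    ext i j
    simp only [Matrix.transpose_apply, Matrix.of_apply]
    rw [mul_comm (b j)]
  refine ⟨T * Algebra.leftMulMatrix b c, T * Algebra.leftMulMatrix b (c * pb.gen), sym _, sym _, ?_, ?_⟩
  · rw [Matrix.det_mul, ← Algebra.norm_eq_matrix_det, hc]
    field_simp
  · have h1 : T * Algebra.leftMulMatrix b (c * pb.gen) =
        (T * Algebra.leftMulMatrix b c) * Algebra.leftMulMatrix b pb.gen := by
      rw [map_mul, Matrix.mul_assoc]
    rw [h1, (pairs_pen _ _).1, Matrix.det_mul, ← Algebra.norm_eq_matrix_det, hc,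
      hb, charpoly_leftMulMatrix]
    congr 2
    field_simp

theorem exists_pair [Finite κ] (h : κ[X]) (hm : h.Monic) (hi : Irreducible h) (δ : κ) (hδ : δ ≠ 0) :
    ∃ S S' : Matrix (Fin h.natDegree) (Fin h.natDegree) κ, S.transpose = S ∧ S'.transpose = S' ∧
      S.det = δ ∧ pen S S' = C δ * h := by
  have := Fact.mk hi
  have h1 := pairs_aux (AdjoinRoot.powerBasis hi.ne_zero) δ
  rw [AdjoinRoot.minpoly_powerBasis_gen_of_monic hm] at h1
  exact h1

end Pool.Agent.HYP
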