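import Pool.Agent.Lib.HYP.C.Dens

/-!
Module C.Pr. The number of the pairs of type `r`, and of those which are not detected at the primes
of `V`.

* `degP_iff`: `G = 0` or `natDegree ≤ …` against `degree < (… + 1).toNat`.
* `pairs_card_le`: `G1` and `G2` are symmetric matrices with `degree < e1`, `degree < e2`:
  `card_symm` twice.
* `undet_card`: for each `G1` (`G1.det` is a nonzero constant, so is its image modulo `π`) the number
  of the `G2` is bounded by `crt_symm` with `P π S = ¬ Det (G1 mod π) S`, `a = 32 g - 1`, `b = 32 g`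
  (`dens` for `AdjoinRoot π`, `Pool.Agent.BSDP.card_adjoinRoot`; for `π ∉ V` take `P` to be `True` or
  use `Irreducible π` inside `P`, see `Undet`: `P π S = ∀ h : Irreducible π, ¬ Det …`); then sum over
  `G1`.
-/

set_option autoImplicit false

open Polynomial

namespace Pool.Agent.HYP

variable {k : Type} [Field k] {g m : ℕ} {r : ℕ → ℕ}

private theorem pr_part {α : Type} (p q : α → Prop) [Finite {x // p x}] :
    Nat.card {x // p x} = Nat.card {x // p x ∧ q x} + Nat.card {x // p x ∧ ¬ q x} := by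
  classical
  rw [← Nat.card_congr (Equiv.sumCompl (fun x : {x // p x} => q x.1)), Nat.card_sum,
    Nat.card_congr (Equiv.subtypeSubtypeEquivSubtypeInter p q),
    Nat.card_congr (Equiv.subtypeSubtypeEquivSubtypeInter p (fun x => ¬ q x))]

private theorem pr_dens {κ : Type} [Field κ] [Finite κ] (h2 : (2 : κ) ≠ 0) {g : ℕ} (hg : 1 ≤ g)
    (G1 : Matrix (Fin (2 * g + 1)) (Fin (2 * g + 1)) κ) (hs : G1.transpose = G1)
    (hd : G1.det ≠ 0) :
    32 * g * Nat.card {G2 : Matrix (Fin (2 * g + 1)) (Fin (2 * g + 1)) κ //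
      G2.transpose = G2 ∧ ¬ Det G1 G2} ≤
      (32 * g - 1) * Nat.card κ ^ ((2 * g + 1) * (2 * g + 1 + 1) / 2) := by
  have h1 := dens h2 hg G1 hs hd
  have h3 := pr_part (fun G2 : Matrix (Fin (2 * g + 1)) (Fin (2 * g + 1)) κ => G2.transpose = G2)
    (fun G2 => Det G1 G2)
  rw [card_sym κ] at h3
  have he : (2 * g + 1) * (2 * g + 1 + 1) / 2 = (2 * g + 1) * (g + 1) := by
    have : (2 * g + 1) * (2 * g + 1 + 1) = ((2 * g + 1) * (g + 1)) * 2 := by ring
    rw [this, Nat.mul_div_cancel _ (by norm_num)]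
  rw [he] at h3 ⊢
  obtain ⟨t, ht⟩ : ∃ t, 32 * g = t + 1 := ⟨32 * g - 1, by omega⟩
  rw [ht] at h1 ⊢
  rw [Nat.add_sub_cancel]
  set N := Nat.card κ ^ ((2 * g + 1) * (g + 1))
  set D := Nat.card {G2 : Matrix (Fin (2 * g + 1)) (Fin (2 * g + 1)) κ //
    G2.transpose = G2 ∧ Det G1 G2}
  set M := Nat.card {G2 : Matrix (Fin (2 * g + 1)) (Fin (2 * g + 1)) κ //
    G2.transpose = G2 ∧ ¬ Det G1 G2}
  have h4 : (t + 1) * N = (t + 1) * D + (t + 1) * M := by rw [h3]; ring
  have h5 : (t + 1) * N = t * N + N := by ring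
  linarith

private theorem pr_e1 (i j : Fin (2 * g + 1)) : e1 g r i j = e1 g r j i := by
  unfold e1
  rw [add_comm (nn g r i)]

private theorem pr_e2 (i j : Fin (2 * g + 1)) : e2 g m r i j = e2 g m r j i := by
  unfold e2
  rw [add_right_comm (2 * (m : ℤ))]

private theorem pr_deg {p : k[X]} {a : ℤ} (h : p ≠ 0 → (p.natDegree : ℤ) ≤ a) :
    p.degree < ((a + 1).toNat : ℕ) := by
  by_cases hp : p = 0
  · rw [hp, degree_zero]
    exact WithBot.bot_lt_coe _
  · rw [← natDegree_lt_iff_degree_lt hp]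
    have := h hp
    omega

theorem degP_degree {G1 G2 : Matrix (Fin (2 * g + 1)) (Fin (2 * g + 1)) k[X]}
    (h : DegP g m r G1 G2) :
    (∀ i j, (G1 i j).degree < e1 g r i j) ∧ ∀ i j, (G2 i j).degree < e2 g m r i j := by
  refine ⟨fun i j => pr_deg (h.d1 i j), fun i j => ?_⟩
  exact pr_deg (h.d2 i j)

theorem finite_pairs [Finite k] (V : Finset k[X]) :
    Finite {p : Matrix (Fin (2 * g + 1)) (Fin (2 * g + 1)) k[X] ×
      Matrix (Fin (2 * g + 1)) (Fin (2 * g + 1)) k[X] // DegP g m r p.1 p.2 ∧ Undet V p.1 p.2} := by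
  have f1 := finite_symm (k := k) (e1 g r)
  have f2 := finite_symm (k := k) (e2 g m r)
  refine Finite.of_injective (fun p => ((⟨p.1.1, p.2.1.s1, (degP_degree p.2.1).1⟩,
    ⟨p.1.2, p.2.1.s2, (degP_degree p.2.1).2⟩) :
    {G : Matrix (Fin (2 * g + 1)) (Fin (2 * g + 1)) k[X] // G.transpose = G ∧
      ∀ i j, (G i j).degree < e1 g r i j} ×
    {G : Matrix (Fin (2 * g + 1)) (Fin (2 * g + 1)) k[X] // G.transpose = G ∧
      ∀ i j, (G i j).degree < e2 g m r i j})) ?_
  intro p q hpq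
  have h1 := congrArg (fun z => z.1.1) hpq
  have h2 := congrArg (fun z => z.2.1) hpq
  exact Subtype.ext (Prod.ext h1 h2)

theorem pairs_card_le [Finite k] (V : Finset k[X]) :
    Nat.card {p : Matrix (Fin (2 * g + 1)) (Fin (2 * g + 1)) k[X] ×
      Matrix (Fin (2 * g + 1)) (Fin (2 * g + 1)) k[X] // DegP g m r p.1 p.2 ∧ Undet V p.1 p.2} ≤
      Nat.card k ^ (sumLe (e1 g r) + sumLe (e2 g m r)) := by
  have f1 := finite_symm (k := k) (e1 g r)
  have f2 := finite_symm (k := k) (e2 g m r)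
  rw [pow_add, ← card_symm (k := k) (e1 g r) pr_e1, ← card_symm (k := k) (e2 g m r) pr_e2,
    ← Nat.card_prod]
  refine Nat.card_le_card_of_injective (fun p => ((⟨p.1.1, p.2.1.s1, (degP_degree p.2.1).1⟩,
    ⟨p.1.2, p.2.1.s2, (degP_degree p.2.1).2⟩) :
    {G : Matrix (Fin (2 * g + 1)) (Fin (2 * g + 1)) k[X] // G.transpose = G ∧
      ∀ i j, (G i j).degree < e1 g r i j} ×
    {G : Matrix (Fin (2 * g + 1)) (Fin (2 * g + 1)) k[X] // G.transpose = G ∧
      ∀ i j, (G i j).degree < e2 g m r i j})) ?_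
  intro p q hpq
  have h1 := congrArg (fun z => z.1.1) hpq
  have h2 := congrArg (fun z => z.2.1) hpq
  exact Subtype.ext (Prod.ext h1 h2)

theorem undet_card [Finite k] (h2 : (2 : k) ≠ 0) (hg : 1 ≤ g) (V : Finset k[X])
    (hV : ∀ π ∈ V, π.Monic ∧ Irreducible π)
    (he : ∀ i j, (∏ π ∈ V, π).natDegree ≤ e2 g m r i j) :
    (32 * g) ^ V.card * Nat.card {p : Matrix (Fin (2 * g + 1)) (Fin (2 * g + 1)) k[X] ×
      Matrix (Fin (2 * g + 1)) (Fin (2 * g + 1)) k[X] // DegP g m r p.1 p.2 ∧ Undet V p.1 p.2} ≤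
      (32 * g - 1) ^ V.card * Nat.card k ^ (sumLe (e1 g r) + sumLe (e2 g m r)) := by
  classical
  have f1 := finite_symm (k := k) (e1 g r)
  have f2 := finite_symm (k := k) (e2 g m r)
  -- the fibre over `G1`
  set Fib : {G : Matrix (Fin (2 * g + 1)) (Fin (2 * g + 1)) k[X] // G.transpose = G ∧
      ∀ i j, (G i j).degree < e1 g r i j} → Type := fun G1 =>
    {G2 : Matrix (Fin (2 * g + 1)) (Fin (2 * g + 1)) k[X] //
      DegP g m r G1.1 G2 ∧ Undet V G1.1 G2} with hFib
  have hinjF : ∀ G1, Function.Injective (fun G2 : Fib G1 =>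
      (⟨G2.1, G2.2.1.s2, (degP_degree G2.2.1).2⟩ :
        {G : Matrix (Fin (2 * g + 1)) (Fin (2 * g + 1)) k[X] // G.transpose = G ∧
          ∀ i j, (G i j).degree < e2 g m r i j})) := by
    intro G1 p q hpq
    exact Subtype.ext (congrArg (fun z => z.1) hpq)
  have hfin : ∀ G1, Finite (Fib G1) := fun G1 => Finite.of_injective _ (hinjF G1)
  have hbound : ∀ G1, (32 * g) ^ V.card * Nat.card (Fib G1) ≤
      (32 * g - 1) ^ V.card * Nat.card k ^ sumLe (e2 g m r) := by
    intro G1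
    by_cases hemp : IsEmpty (Fib G1)
    · rw [Nat.card_of_isEmpty, mul_zero]
      exact Nat.zero_le _
    · rw [not_isEmpty_iff] at hemp
      obtain ⟨G2, hG2, -⟩ := hemp
      obtain ⟨u, hu, hdet⟩ := hG2.det
      have hP : ∀ π ∈ V, (32 * g) * Nat.card
          {S : Matrix (Fin (2 * g + 1)) (Fin (2 * g + 1)) (AdjoinRoot π) //
            S.transpose = S ∧ ∀ h : Irreducible π, haveI : Fact (Irreducible π) := ⟨h⟩;
              ¬ Det (G1.1.map (AdjoinRoot.mk π)) S} ≤
          (32 * g - 1) * Nat.card k ^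
            (π.natDegree * ((2 * g + 1) * (2 * g + 1 + 1) / 2)) := by
        intro π hπ
        obtain ⟨hm, hirr⟩ := hV π hπ
        have hfact : Fact (Irreducible π) := ⟨hirr⟩
        have hmf : Module.Finite k (AdjoinRoot π) := (AdjoinRoot.powerBasis' hm).finite
        have hfi : Finite (AdjoinRoot π) := Module.finite_of_finite k
        have h2' : (2 : AdjoinRoot π) ≠ 0 := by
          have h5 : (algebraMap k (AdjoinRoot π)) 2 ≠ 0 := (_root_.map_ne_zero _).2 h2
          rwa [map_ofNat] at h5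
        have hs' : (G1.1.map (AdjoinRoot.mk π)).transpose = G1.1.map (AdjoinRoot.mk π) := by
          conv_rhs => rw [← G1.2.1]
          exact Matrix.transpose_map.symm
        have hd' : (G1.1.map (AdjoinRoot.mk π)).det ≠ 0 := by
          have h6 : (G1.1.map (AdjoinRoot.mk π)).det = AdjoinRoot.mk π G1.1.det :=
            ((AdjoinRoot.mk π).map_det G1.1).symm
          rw [h6]
          intro h7
          have h8 := congrArg (AdjoinRoot.mk π) hdet
          rw [map_mul, h7, mul_zero] at h8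
          have h9 : AdjoinRoot.mk π (C (u ^ 2)) = algebraMap k (AdjoinRoot π) (u ^ 2) := rfl
          rw [h9] at h8
          exact (_root_.map_ne_zero (algebraMap k (AdjoinRoot π))).2 (pow_ne_zero 2 hu) h8.symm
        have h10 := pr_dens h2' hg (G1.1.map (AdjoinRoot.mk π)) hs' hd'
        rw [Pool.Agent.BSDP.card_adjoinRoot hm, ← pow_mul] at h10
        have h11 : Nat.card
            {S : Matrix (Fin (2 * g + 1)) (Fin (2 * g + 1)) (AdjoinRoot π) //
              S.transpose = S ∧ ∀ h : Irreducible π, haveI : Fact (Irreducible π) := ⟨h⟩;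
                ¬ Det (G1.1.map (AdjoinRoot.mk π)) S} =
            Nat.card {S : Matrix (Fin (2 * g + 1)) (Fin (2 * g + 1)) (AdjoinRoot π) //
              S.transpose = S ∧ ¬ Det (G1.1.map (AdjoinRoot.mk π)) S} :=
          Nat.card_congr (Equiv.subtypeEquivRight fun S =>
            and_congr_right fun _ => ⟨fun h => h hirr, fun h _ => h⟩)
        rw [h11]
        exact h10
      have hcrt := crt_symm V hV
        (fun π S => ∀ h : Irreducible π, haveI : Fact (Irreducible π) := ⟨h⟩;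
          ¬ Det (G1.1.map (AdjoinRoot.mk π)) S) (32 * g - 1) (32 * g) hP (e2 g m r) pr_e2 he
      refine le_trans (Nat.mul_le_mul_left _ ?_) hcrt
      have hfin3 : Finite {G : Matrix (Fin (2 * g + 1)) (Fin (2 * g + 1)) k[X] //
          G.transpose = G ∧ (∀ i j, (G i j).degree < e2 g m r i j) ∧
          ∀ π ∈ V, ∀ h : Irreducible π, haveI : Fact (Irreducible π) := ⟨h⟩;
            ¬ Det (G1.1.map (AdjoinRoot.mk π)) (G.map (AdjoinRoot.mk π))} := by
        refine Finite.of_injective (fun G => (⟨G.1, G.2.1, G.2.2.1⟩ :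
          {G : Matrix (Fin (2 * g + 1)) (Fin (2 * g + 1)) k[X] // G.transpose = G ∧
            ∀ i j, (G i j).degree < e2 g m r i j})) ?_
        intro p q hpq
        exact Subtype.ext (congrArg (fun z => z.1) hpq)
      refine Nat.card_le_card_of_injective (fun G2 : Fib G1 =>
        (⟨G2.1, G2.2.1.s2, (degP_degree G2.2.1).2, G2.2.2⟩ :
          {G : Matrix (Fin (2 * g + 1)) (Fin (2 * g + 1)) k[X] //
          G.transpose = G ∧ (∀ i j, (G i j).degree < e2 g m r i j) ∧
          ∀ π ∈ V, ∀ h : Irreducible π, haveI : Fact (Irreducible π) := ⟨h⟩;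
            ¬ Det (G1.1.map (AdjoinRoot.mk π)) (G.map (AdjoinRoot.mk π))})) ?_
      intro p q hpq
      exact Subtype.ext (congrArg (fun z => z.1) hpq)
  have := Fintype.ofFinite {G : Matrix (Fin (2 * g + 1)) (Fin (2 * g + 1)) k[X] //
    G.transpose = G ∧ ∀ i j, (G i j).degree < e1 g r i j}
  have hcard : Nat.card {p : Matrix (Fin (2 * g + 1)) (Fin (2 * g + 1)) k[X] ×
      Matrix (Fin (2 * g + 1)) (Fin (2 * g + 1)) k[X] // DegP g m r p.1 p.2 ∧ Undet V p.1 p.2} ≤
      ∑ G1, Nat.card (Fib G1) := by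
    rw [← Nat.card_sigma]
    refine Nat.card_le_card_of_injective (fun p => (⟨⟨p.1.1, p.2.1.s1, (degP_degree p.2.1).1⟩,
      ⟨p.1.2, p.2⟩⟩ : Σ G1, Fib G1)) ?_
    intro p q hpq
    have h1 := congrArg (fun z => z.1.1) hpq
    have h2 := congrArg (fun z : (Σ G1, Fib G1) => z.2.1) hpq
    exact Subtype.ext (Prod.ext h1 h2)
  calc (32 * g) ^ V.card * Nat.card {p : Matrix (Fin (2 * g + 1)) (Fin (2 * g + 1)) k[X] ×
        Matrix (Fin (2 * g + 1)) (Fin (2 * g + 1)) k[X] //
          DegP g m r p.1 p.2 ∧ Undet V p.1 p.2}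
      ≤ (32 * g) ^ V.card * ∑ G1, Nat.card (Fib G1) := Nat.mul_le_mul_left _ hcard
    _ = ∑ G1, (32 * g) ^ V.card * Nat.card (Fib G1) := Finset.mul_sum _ _ _
    _ ≤ ∑ _G1 : {G : Matrix (Fin (2 * g + 1)) (Fin (2 * g + 1)) k[X] // G.transpose = G ∧
          ∀ i j, (G i j).degree < e1 g r i j},
          (32 * g - 1) ^ V.card * Nat.card k ^ sumLe (e2 g m r) :=
        Finset.sum_le_sum fun G1 _ => hbound G1
    _ = (32 * g - 1) ^ V.card * Nat.card k ^ (sumLe (e1 g r) + sumLe (e2 g m r)) := by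
        rw [Finset.sum_const, Finset.card_univ, ← Nat.card_eq_fintype_card,
          card_symm (k := k) (e1 g r) pr_e1, smul_eq_mul, pow_add]
        ring

end Pool.Agent.HYP
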