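import Pool.Agent.Lib.HYP.C.Act
import Pool.Agent.Lib.HYP.C.Pr
import Pool.Agent.Lib.HYP.C.Exps

/-!
Module C.RepCard. The number of the polynomials of the family which are represented by a pair of
type `r`, undetected at the primes of `V`.

`card_rep_mul`: choose for each such `f` a pair `(G1, G2)` (`Classical.choose`); the map
`(f, h, s) ↦ (h G1 hᵀ, h G2 hᵀ - s h G1 hᵀ)` into the pairs with `DegP` and `Undet V` is injective
(`act_inj₁`, then the pairs are the same, then `act_inj₂`); `card_uni`, `Pool.Agent.BSDP.card_degree_lt`,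
`finite_pairs`.

`card_rep_le`: with `pairs_card_le` and `exps`: in the exponents, with `A = sumLe e1 + sumLe e2`,
`B = sumLt eh + 2 m`, `E = (2 g + 1) (g + 2) + m (4 g ^ 2 + 6 g)`, `ρ = ∑ r b`: `g A + ρ ≤ g (B + E)`;
from `# * q ^ B ≤ q ^ A` we get `# ^ g * q ^ (g B) ≤ q ^ (g A)`, so
`# ^ g * q ^ ρ * q ^ (g B) ≤ q ^ (g A + ρ) ≤ q ^ (g B) q ^ (g E)`.
Stated without roots: `# ^ g * q ^ ρ ≤ (q ^ E) ^ g`; the second bound in the same way.
-/

set_option autoImplicit false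

open Polynomial

namespace Pool.Agent.HYP

variable {k : Type} [Field k] {g m : ℕ} {r : ℕ → ℕ}

private theorem exists_inj (hn : ((2 * g + 1 : ℕ) : k) ≠ 0) {φ : k[X]}
    (V : Finset k[X]) (hi : ∀ f : k[X][X], Fam g m φ f → Irreducible (fK f)) (hr : Typ g m r) :
    ∃ Φ : {f : k[X][X] // Fam g m φ f ∧ RepV g m V r f} ×
        {h : Matrix (Fin (2 * g + 1)) (Fin (2 * g + 1)) k[X] // Uni (eh g r) h} ×
        {s : k[X] // s.degree < ((2 * m : ℕ) : WithBot ℕ)} →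
      {p : Matrix (Fin (2 * g + 1)) (Fin (2 * g + 1)) k[X] ×
        Matrix (Fin (2 * g + 1)) (Fin (2 * g + 1)) k[X] //
          DegP g m r p.1 p.2 ∧ Undet V p.1 p.2}, Function.Injective Φ := by
  have hch : ∀ f : {f : k[X][X] // Fam g m φ f ∧ RepV g m V r f},
      ∃ G1 G2, Rep g m r f.1 G1 G2 ∧ Undet V G1 G2 := fun f => f.2.2
  choose G1 G2 hR hU using hch
  refine ⟨fun x => ⟨(x.2.1.1 * G1 x.1 * x.2.1.1.transpose,
    x.2.1.1 * G2 x.1 * x.2.1.1.transpose - x.2.2.1 • (x.2.1.1 * G1 x.1 * x.2.1.1.transpose)),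
    act_degP hr (hR x.1).deg x.2.1.2 x.2.2.2, act_undet x.2.1.2 x.2.2.1 (hU x.1)⟩, ?_⟩
  rintro ⟨f, h, s⟩ ⟨f', h', s'⟩ he
  simp only [Subtype.mk.injEq, Prod.mk.injEq] at he
  obtain ⟨h1, h2⟩ := he
  obtain ⟨hs, hf⟩ := act_inj₁ hn f.2.1.monic f.2.1.deg f.2.1.tr f'.2.1.monic f'.2.1.deg
    f'.2.1.tr (hR f) (hR f') h.2 h'.2 h1 h2
  obtain rfl : s = s' := Subtype.ext hs
  obtain rfl : f = f' := Subtype.ext hf
  have h3 := act_inj₂ (hi f.1 f.2.1) f.2.1.monic (hR f) h.2 h'.2 h1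
    (by rw [h1] at h2; exact sub_left_inj.1 h2)
  obtain rfl : h = h' := Subtype.ext h3
  rfl

private theorem uni_one {n : ℕ} (e : Fin n → Fin n → ℕ) :
    Uni e (1 : Matrix (Fin n) (Fin n) k[X]) where
  diag i := Matrix.one_apply_eq i
  up i j h := Matrix.one_apply_ne h.ne
  low i j h := by
    rw [Matrix.one_apply_ne h.ne', Polynomial.degree_zero]
    exact WithBot.bot_lt_coe _

theorem finite_rep [Finite k] (hg : 1 ≤ g) (hn : ((2 * g + 1 : ℕ) : k) ≠ 0) {φ : k[X]}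
    (V : Finset k[X]) (hi : ∀ f : k[X][X], Fam g m φ f → Irreducible (fK f)) (hr : Typ g m r) :
    Finite {f : k[X][X] // Fam g m φ f ∧ RepV g m V r f} := by
  obtain ⟨Φ, hΦ⟩ := exists_inj (g := g) (m := m) (r := r) hn (φ := φ) V hi hr
  have := finite_pairs (g := g) (m := m) (r := r) V
  refine Finite.of_injective (fun f => Φ (f, ⟨1, uni_one _⟩, ⟨0, ?_⟩)) ?_
  · rw [Polynomial.degree_zero]
    exact WithBot.bot_lt_coe _
  · intro f f' h
    exact (Prod.mk.inj (hΦ h)).1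

theorem card_rep_mul [Finite k] (hg : 1 ≤ g) (hn : ((2 * g + 1 : ℕ) : k) ≠ 0) {φ : k[X]}
    (V : Finset k[X]) (hi : ∀ f : k[X][X], Fam g m φ f → Irreducible (fK f)) (hr : Typ g m r) :
    Nat.card {f : k[X][X] // Fam g m φ f ∧ RepV g m V r f} *
      Nat.card k ^ (sumLt (eh g r) + 2 * m) ≤
      Nat.card {p : Matrix (Fin (2 * g + 1)) (Fin (2 * g + 1)) k[X] ×
        Matrix (Fin (2 * g + 1)) (Fin (2 * g + 1)) k[X] //
          DegP g m r p.1 p.2 ∧ Undet V p.1 p.2} := by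
  obtain ⟨Φ, hΦ⟩ := exists_inj (g := g) (m := m) (r := r) hn (φ := φ) V hi hr
  have := finite_pairs (g := g) (m := m) (r := r) V
  have h := Nat.card_le_card_of_injective Φ hΦ
  rw [Nat.card_prod, Nat.card_prod, card_uni, Pool.Agent.BSDP.card_degree_lt, ← pow_add] at h
  exact h

theorem card_rep_le [Finite k] (hg : 1 ≤ g) (hn : ((2 * g + 1 : ℕ) : k) ≠ 0) {φ : k[X]}
    (V : Finset k[X]) (hi : ∀ f : k[X][X], Fam g m φ f → Irreducible (fK f)) (hr : Typ g m r) :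
    Nat.card {f : k[X][X] // Fam g m φ f ∧ RepV g m V r f} ^ g *
      Nat.card k ^ (∑ b ∈ Finset.Icc 1 g, r b) ≤
      (Nat.card k ^ ((2 * g + 1) * (g + 2) + m * (4 * g ^ 2 + 6 * g))) ^ g := by
  have h1 := (card_rep_mul (g := g) (m := m) (r := r) hg hn (φ := φ) V hi hr).trans
    (pairs_card_le V)
  have h2 := exps hg hr
  have hq : 0 < Nat.card k := Nat.card_pos
  set N := Nat.card {f : k[X][X] // Fam g m φ f ∧ RepV g m V r f}
  set q := Nat.card k
  set A := sumLe (e1 g r) + sumLe (e2 g m r)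
  set B := sumLt (eh g r) + 2 * m
  set E := (2 * g + 1) * (g + 2) + m * (4 * g ^ 2 + 6 * g)
  set ρ := ∑ b ∈ Finset.Icc 1 g, r b
  have h2' : g * A + ρ ≤ g * B + g * E := by
    refine h2.trans (le_of_eq ?_)
    simp only [B, E]
    ring
  refine Nat.le_of_mul_le_mul_left (c := q ^ (g * B)) ?_ (pow_pos hq _)
  calc q ^ (g * B) * (N ^ g * q ^ ρ) = (N * q ^ B) ^ g * q ^ ρ := by
        rw [mul_pow, ← pow_mul, mul_comm B g]; ring
    _ ≤ (q ^ A) ^ g * q ^ ρ := Nat.mul_le_mul_right _ (Nat.pow_le_pow_left h1 g)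
    _ = q ^ (g * A + ρ) := by rw [← pow_mul, mul_comm A g, pow_add]
    _ ≤ q ^ (g * B + g * E) := Nat.pow_le_pow_right hq h2'
    _ = q ^ (g * B) * (q ^ E) ^ g := by rw [pow_add, ← pow_mul, mul_comm E g]

theorem card_rep_undet_le [Finite k] (h2 : (2 : k) ≠ 0) (hg : 1 ≤ g)
    (hn : ((2 * g + 1 : ℕ) : k) ≠ 0) {φ : k[X]} (V : Finset k[X])
    (hV : ∀ π ∈ V, π.Monic ∧ Irreducible π)
    (hi : ∀ f : k[X][X], Fam g m φ f → Irreducible (fK f)) (hr : Typ g m r)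
    (hs : 2 * r g + (∏ π ∈ V, π).natDegree ≤ 2 * m) :
    ((32 * g) ^ V.card * Nat.card {f : k[X][X] // Fam g m φ f ∧ RepV g m V r f}) ^ g *
      Nat.card k ^ (∑ b ∈ Finset.Icc 1 g, r b) ≤
      ((32 * g - 1) ^ V.card *
        Nat.card k ^ ((2 * g + 1) * (g + 2) + m * (4 * g ^ 2 + 6 * g))) ^ g := by
  have he : ∀ i j, (∏ π ∈ V, π).natDegree ≤ e2 g m r i j := by
    intro i j
    have h1 := abs_nn_le hr i
    have h2 := abs_nn_le hr j
    unfold e2
    omega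
  have h1 := card_rep_mul (g := g) (m := m) (r := r) hg hn (φ := φ) V hi hr
  have h3 := undet_card (g := g) (m := m) (r := r) h2 hg V hV he
  have h4 := exps hg hr
  have hq : 0 < Nat.card k := Nat.card_pos
  set N := Nat.card {f : k[X][X] // Fam g m φ f ∧ RepV g m V r f}
  set q := Nat.card k
  set A := sumLe (e1 g r) + sumLe (e2 g m r)
  set B := sumLt (eh g r) + 2 * m
  set E := (2 * g + 1) * (g + 2) + m * (4 * g ^ 2 + 6 * g)
  set ρ := ∑ b ∈ Finset.Icc 1 g, r b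
  have h2' : g * A + ρ ≤ g * B + g * E := by
    refine h4.trans (le_of_eq ?_)
    simp only [B, E]
    ring
  have h5 : (32 * g) ^ V.card * N * q ^ B ≤ (32 * g - 1) ^ V.card * q ^ A := by
    rw [mul_assoc]
    exact (Nat.mul_le_mul_left _ h1).trans h3
  refine Nat.le_of_mul_le_mul_left (c := q ^ (g * B)) ?_ (pow_pos hq _)
  calc q ^ (g * B) * (((32 * g) ^ V.card * N) ^ g * q ^ ρ)
      = ((32 * g) ^ V.card * N * q ^ B) ^ g * q ^ ρ := by
        rw [mul_pow _ (q ^ B), ← pow_mul, mul_comm B g]; ring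
    _ ≤ ((32 * g - 1) ^ V.card * q ^ A) ^ g * q ^ ρ :=
        Nat.mul_le_mul_right _ (Nat.pow_le_pow_left h5 g)
    _ = ((32 * g - 1) ^ V.card) ^ g * q ^ (g * A + ρ) := by
        rw [mul_pow, ← pow_mul q, mul_comm A g, pow_add, mul_assoc]
    _ ≤ ((32 * g - 1) ^ V.card) ^ g * q ^ (g * B + g * E) :=
        Nat.mul_le_mul_left _ (Nat.pow_le_pow_right hq h2')
    _ = q ^ (g * B) * ((32 * g - 1) ^ V.card * q ^ E) ^ g := by
        rw [mul_pow, pow_add, ← pow_mul q, mul_comm E g]; ring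

end Pool.Agent.HYP
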