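import Pool.Agent.Lib.BSDP.C.Crt
import Pool.Agent.Lib.HYP.C.Defs

/-!
Module C.Vec. Vectors of polynomials with bounded degrees: their number, and the number of those with
conditions modulo a finite set of primes. Template: `Pool/Agent/Lib/BSDP/C/Crt.lean` (`low_card`,
`undetected_card`), where the vectors are quintuples.

* `card_vec`: a product (`Nat.card_pi`, `Pool.Agent.BSDP.card_degree_lt`).
* `crt_low`: induction on `V` (`Finset.induction_on`) as in `low_card`: for `insert π V'`,
  `M' = ∏ V'`, a vector with degrees `< deg (π M')` is determined by its image in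
  `ι → AdjoinRoot π` and the vector of the remainders modulo `M'`.
* `crt_vec`: divide by `M = ∏ V` with remainder: the vector is determined by the remainders
  (degrees `< deg M`, the same conditions modulo `π ∈ V`) and the quotients (degrees
  `< e i - deg M`).
-/

/-!
Module C.Vec. Vectors of polynomials with bounded degrees: their number, and the number of those with
conditions modulo a finite set of primes. Template: `Pool/Agent/Lib/BSDP/C/Crt.lean` (`low_card`,
`undetected_card`), where the vectors are quintuples.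

* `card_vec`: a product (`Nat.card_pi`, `Pool.Agent.BSDP.card_degree_lt`).
* `crt_low`: induction on `V` (`Finset.induction_on`) as in `low_card`: for `insert π V'`,
  `M' = ∏ V'`, a vector with degrees `< deg (π M')` is determined by its image in
  `ι → AdjoinRoot π` and the vector of the remainders modulo `M'`.
* `crt_vec`: divide by `M = ∏ V` with remainder: the vector is determined by the remainders
  (degrees `< deg M`, the same conditions modulo `π ∈ V`) and the quotients (degrees
  `< e i - deg M`).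
-/

set_option autoImplicit false

open Polynomial

namespace Pool.Agent.HYP

variable {k : Type} [Field k] {ι : Type} [Fintype ι]

private theorem vec_fin1 [Finite k] (D : ℕ) : Finite {f : k[X] // f.degree < D} := by
  have : Nonempty k := ⟨0⟩
  apply Nat.finite_of_card_ne_zero
  rw [Pool.Agent.BSDP.card_degree_lt]
  exact pow_ne_zero _ Nat.card_pos.ne'

/-- a vector of bounded polynomials -/
private def vecEquiv (e : ι → ℕ) :
    {v : ι → k[X] // ∀ i, (v i).degree < e i} ≃ ∀ i, {f : k[X] // f.degree < e i} where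
  toFun v i := ⟨v.1 i, v.2 i⟩
  invFun w := ⟨fun i => (w i).1, fun i => (w i).2⟩
  left_inv _ := rfl
  right_inv _ := rfl

theorem finite_vec [Finite k] (e : ι → ℕ) : Finite {v : ι → k[X] // ∀ i, (v i).degree < e i} := by
  have := fun i => vec_fin1 (k := k) (e i)
  exact Finite.of_equiv _ (vecEquiv (k := k) e).symm

theorem card_vec [Finite k] (e : ι → ℕ) :
    Nat.card {v : ι → k[X] // ∀ i, (v i).degree < e i} = Nat.card k ^ (∑ i, e i) := by
  rw [Nat.card_congr (vecEquiv (k := k) e), Nat.card_pi, ← Finset.prod_pow_eq_pow_sum]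
  exact Finset.prod_congr rfl fun i _ => Pool.Agent.BSDP.card_degree_lt (e i)

private theorem vec_mk {π M : k[X]} (h : π ∣ M) (f : k[X]) :
    AdjoinRoot.mk π (f %ₘ M) = AdjoinRoot.mk π f := by
  rw [AdjoinRoot.mk_eq_mk]
  have h1 : f %ₘ M - f = M * (-(f /ₘ M)) := by
    rw [Polynomial.modByMonic_eq_sub_mul_div]
    ring
  rw [h1]
  exact h.mul_right _

private theorem vec_inj {π M : k[X]} (hπ : π.Monic) (hM : M.Monic) (hc : IsCoprime π M) {f g : k[X]}
    (hf : f.degree < (π * M).natDegree) (hg : g.degree < (π * M).natDegree)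
    (h1 : AdjoinRoot.mk π f = AdjoinRoot.mk π g) (h2 : f %ₘ M = g %ₘ M) : f = g := by
  rw [AdjoinRoot.mk_eq_mk] at h1
  have h3 : M ∣ f - g := by
    rw [← Polynomial.modByMonic_eq_zero_iff_dvd hM, Polynomial.sub_modByMonic, h2, sub_self]
  have h4 : π * M ∣ f - g := hc.mul_dvd h1 h3
  rw [← sub_eq_zero]
  refine Polynomial.eq_zero_of_dvd_of_degree_lt h4 ?_
  rw [Polynomial.degree_eq_natDegree (hπ.mul hM).ne_zero]
  exact lt_of_le_of_lt (Polynomial.degree_sub_le _ _) (max_lt hf hg)

private theorem vec_finP [Finite k] (e : ι → ℕ) (C : (ι → k[X]) → Prop) :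
    Finite {v : ι → k[X] // (∀ i, (v i).degree < e i) ∧ C v} := by
  have := finite_vec (k := k) e
  refine Finite.of_injective (β := {v : ι → k[X] // ∀ i, (v i).degree < e i})
    (fun v => ⟨v.1, v.2.1⟩) ?_
  intro v v' h
  exact Subtype.ext (congrArg (fun x => (x.1 : ι → k[X])) h)

theorem crt_low [Finite k] (V : Finset k[X]) (hV : ∀ π ∈ V, π.Monic ∧ Irreducible π)
    (P : ∀ π : k[X], (ι → AdjoinRoot π) → Prop) (a b : ℕ)
    (hP : ∀ π ∈ V, b * Nat.card {v : ι → AdjoinRoot π // P π v} ≤
      a * Nat.card k ^ (π.natDegree * Fintype.card ι)) :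
    b ^ V.card * Nat.card {v : ι → k[X] // (∀ i, (v i).degree < (∏ π ∈ V, π).natDegree) ∧
      ∀ π ∈ V, P π (fun i => AdjoinRoot.mk π (v i))} ≤
      a ^ V.card * Nat.card k ^ ((∏ π ∈ V, π).natDegree * Fintype.card ι) := by
  classical
  induction V using Finset.induction_on with
  | empty =>
    rw [Finset.card_empty, pow_zero, pow_zero, one_mul, one_mul, Finset.prod_empty,
      Polynomial.natDegree_one, zero_mul, pow_zero]
    have := vec_finP (k := k) (fun _ : ι => 0)
      (fun v => ∀ π ∈ (∅ : Finset k[X]), P π (fun i => AdjoinRoot.mk π (v i)))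
    rw [Finite.card_le_one_iff_subsingleton]
    have h0 : ∀ f : k[X], f.degree < ((0 : ℕ) : WithBot ℕ) → f = 0 := fun f hf => by
      rw [Nat.cast_zero] at hf
      by_contra hne
      exact absurd (Polynomial.zero_le_degree_iff.2 hne) (not_le.2 hf)
    refine ⟨fun t t' => Subtype.ext (funext fun i => ?_)⟩
    rw [h0 _ (t.2.1 i), h0 _ (t'.2.1 i)]
  | insert π V' hπV ih =>
    have hmon := (hV π (Finset.mem_insert_self π V')).1
    have hirr := (hV π (Finset.mem_insert_self π V')).2
    have hV' : ∀ ρ ∈ V', ρ.Monic ∧ Irreducible ρ := fun ρ hρ => hV ρ (Finset.mem_insert_of_mem hρ)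
    have ih' := ih hV' fun ρ hρ => hP ρ (Finset.mem_insert_of_mem hρ)
    have hPπ := hP π (Finset.mem_insert_self π V')
    have := (AdjoinRoot.powerBasis' hmon).finite
    have hfin : Finite (AdjoinRoot π) := Module.finite_of_finite k
    set M : k[X] := ∏ ρ ∈ V', ρ with hMdef
    have hM : M.Monic := Polynomial.monic_prod_of_monic _ _ fun ρ hρ => (hV' ρ hρ).1
    have hdvd : ∀ ρ ∈ V', ρ ∣ M := fun ρ hρ => Finset.dvd_prod_of_mem _ hρ
    have hcop : IsCoprime π M := by
      refine IsCoprime.prod_right fun ρ hρ => ?_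
      refine (hirr.coprime_iff_not_dvd).2 fun hd => ?_
      have h1 : π = ρ := Polynomial.eq_of_monic_of_associated hmon (hV' ρ hρ).1
        ((hirr.associated_of_dvd (hV' ρ hρ).2 hd))
      exact hπV (h1 ▸ hρ)
    rw [Finset.prod_insert hπV, ← hMdef]
    have := vec_finP (k := k) (fun _ : ι => M.natDegree)
      (fun v => ∀ ρ ∈ V', P ρ (fun i => AdjoinRoot.mk ρ (v i)))
    let Φ : {v : ι → k[X] // (∀ i, (v i).degree < (π * M).natDegree) ∧
        ∀ ρ ∈ insert π V', P ρ (fun i => AdjoinRoot.mk ρ (v i))} →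
      {u : ι → AdjoinRoot π // P π u} × {v : ι → k[X] // (∀ i, (v i).degree < M.natDegree) ∧
        ∀ ρ ∈ V', P ρ (fun i => AdjoinRoot.mk ρ (v i))} := fun v =>
        (⟨fun i => AdjoinRoot.mk π (v.1 i), v.2.2 π (Finset.mem_insert_self π V')⟩,
          ⟨fun i => v.1 i %ₘ M, fun i => by
            rw [← Polynomial.degree_eq_natDegree hM.ne_zero]
            exact Polynomial.degree_modByMonic_lt _ hM,
            fun ρ hρ => by
              have h1 := v.2.2 ρ (Finset.mem_insert_of_mem hρ)
              have h2 : (fun i => AdjoinRoot.mk ρ (v.1 i %ₘ M)) =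
                  fun i => AdjoinRoot.mk ρ (v.1 i) := funext fun i => vec_mk (hdvd ρ hρ) _
              rw [h2]
              exact h1⟩)
    have hΦ : Function.Injective Φ := by
      intro t t' h
      have h1 : (fun i => AdjoinRoot.mk π (t.1 i)) = fun i => AdjoinRoot.mk π (t'.1 i) :=
        congrArg (fun x => (x.1 : ι → AdjoinRoot π)) h
      have h2 : (fun i => t.1 i %ₘ M) = fun i => t'.1 i %ₘ M :=
        congrArg (fun x => (x.2 : ι → k[X])) h
      refine Subtype.ext (funext fun i => ?_)
      exact vec_inj hmon hM hcop (t.2.1 i) (t'.2.1 i) (congrFun h1 i) (congrFun h2 i)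
    have hcard := Nat.card_le_card_of_injective Φ hΦ
    rw [Nat.card_prod] at hcard
    rw [Finset.card_insert_of_notMem hπV]
    calc b ^ (V'.card + 1) * _ ≤ b ^ (V'.card + 1) * _ := Nat.mul_le_mul_left _ hcard
      _ = (b * Nat.card {u : ι → AdjoinRoot π // P π u}) * (b ^ V'.card * _) := by
          rw [pow_succ]
          ring
      _ ≤ (a * Nat.card k ^ (π.natDegree * Fintype.card ι)) *
          (a ^ V'.card * Nat.card k ^ (M.natDegree * Fintype.card ι)) :=
          Nat.mul_le_mul hPπ ih'
      _ = a ^ (V'.card + 1) * Nat.card k ^ ((π * M).natDegree * Fintype.card ι) := by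
          rw [hmon.natDegree_mul hM, pow_succ, add_mul, pow_add]
          ring

theorem crt_vec [Finite k] (V : Finset k[X]) (hV : ∀ π ∈ V, π.Monic ∧ Irreducible π)
    (P : ∀ π : k[X], (ι → AdjoinRoot π) → Prop) (a b : ℕ)
    (hP : ∀ π ∈ V, b * Nat.card {v : ι → AdjoinRoot π // P π v} ≤
      a * Nat.card k ^ (π.natDegree * Fintype.card ι))
    (e : ι → ℕ) (he : ∀ i, (∏ π ∈ V, π).natDegree ≤ e i) :
    b ^ V.card * Nat.card {v : ι → k[X] // (∀ i, (v i).degree < e i) ∧
      ∀ π ∈ V, P π (fun i => AdjoinRoot.mk π (v i))} ≤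
      a ^ V.card * Nat.card k ^ (∑ i, e i) := by
  classical
  set M : k[X] := ∏ ρ ∈ V, ρ with hMdef
  have hM : M.Monic := Polynomial.monic_prod_of_monic _ _ fun ρ hρ => (hV ρ hρ).1
  have hdvd : ∀ ρ ∈ V, ρ ∣ M := fun ρ hρ => Finset.dvd_prod_of_mem _ hρ
  have hlow := crt_low V hV P a b hP
  rw [← hMdef] at hlow
  have := vec_finP (k := k) (fun _ : ι => M.natDegree)
    (fun v => ∀ ρ ∈ V, P ρ (fun i => AdjoinRoot.mk ρ (v i)))
  have := finite_vec (k := k) (fun i => e i - M.natDegree)
  have hq : ∀ (N : ℕ) (f : k[X]), f.degree < N → M.natDegree ≤ N →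
      (f /ₘ M).degree < ((N - M.natDegree : ℕ) : WithBot ℕ) := by
    intro N f hf hN
    by_cases h0 : f /ₘ M = 0
    · rw [h0, Polynomial.degree_zero]
      exact WithBot.bot_lt_coe _
    · rw [Polynomial.degree_eq_natDegree h0, Polynomial.natDegree_divByMonic _ hM]
      have hf0 : f ≠ 0 := by
        intro h
        rw [h, Polynomial.zero_divByMonic] at h0
        exact h0 rfl
      have h1 : M.natDegree ≤ f.natDegree := by
        by_contra hlt
        push Not at hlt
        exact h0 ((Polynomial.divByMonic_eq_zero_iff hM).2 (Polynomial.degree_lt_degree hlt))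
      rw [Polynomial.degree_eq_natDegree hf0] at hf
      have hf' : f.natDegree < N := by exact_mod_cast hf
      have h2 : f.natDegree - M.natDegree < N - M.natDegree := by omega
      exact_mod_cast h2
  have hinj : ∀ f g : k[X], f %ₘ M = g %ₘ M → f /ₘ M = g /ₘ M → f = g := by
    intro f g h1 h2
    rw [← Polynomial.modByMonic_add_div f M, ← Polynomial.modByMonic_add_div g M, h1, h2]
  let Φ : {v : ι → k[X] // (∀ i, (v i).degree < e i) ∧
      ∀ ρ ∈ V, P ρ (fun i => AdjoinRoot.mk ρ (v i))} →
      {v : ι → k[X] // (∀ i, (v i).degree < M.natDegree) ∧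
        ∀ ρ ∈ V, P ρ (fun i => AdjoinRoot.mk ρ (v i))} ×
      {v : ι → k[X] // ∀ i, (v i).degree < ((e i - M.natDegree : ℕ) : WithBot ℕ)} := fun v =>
        (⟨fun i => v.1 i %ₘ M, fun i => by
            rw [← Polynomial.degree_eq_natDegree hM.ne_zero]
            exact Polynomial.degree_modByMonic_lt _ hM,
            fun ρ hρ => by
              have h1 := v.2.2 ρ hρ
              have h2 : (fun i => AdjoinRoot.mk ρ (v.1 i %ₘ M)) =
                  fun i => AdjoinRoot.mk ρ (v.1 i) := funext fun i => vec_mk (hdvd ρ hρ) _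
              rw [h2]
              exact h1⟩,
          ⟨fun i => v.1 i /ₘ M, fun i => hq _ _ (v.2.1 i) (he i)⟩)
  have hΦ : Function.Injective Φ := by
    intro t t' h
    have h1 : (fun i => t.1 i %ₘ M) = fun i => t'.1 i %ₘ M :=
      congrArg (fun x => (x.1 : ι → k[X])) h
    have h2 : (fun i => t.1 i /ₘ M) = fun i => t'.1 i /ₘ M :=
      congrArg (fun x => (x.2 : ι → k[X])) h
    refine Subtype.ext (funext fun i => ?_)
    exact hinj _ _ (congrFun h1 i) (congrFun h2 i)
  have hcard := Nat.card_le_card_of_injective Φ hΦ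
  rw [Nat.card_prod, card_vec] at hcard
  calc b ^ V.card * _ ≤ b ^ V.card * _ := Nat.mul_le_mul_left _ hcard
    _ = (b ^ V.card * _) * Nat.card k ^ (∑ i, (e i - M.natDegree)) := by
        rw [mul_assoc]
    _ ≤ (a ^ V.card * Nat.card k ^ (M.natDegree * Fintype.card ι)) *
        Nat.card k ^ (∑ i, (e i - M.natDegree)) := Nat.mul_le_mul_right _ hlow
    _ = a ^ V.card * Nat.card k ^ (∑ i, e i) := by
        rw [mul_assoc, ← pow_add]
        congr 2
        have h1 : ∑ i, e i = ∑ i, (M.natDegree + (e i - M.natDegree)) :=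
          Finset.sum_congr rfl fun i _ => by have := he i; omega
        rw [h1, Finset.sum_add_distrib, Finset.sum_const, Finset.card_univ, smul_eq_mul, mul_comm]

end Pool.Agent.HYP
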